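import Pool.Agent.H644R2.SIJ.Proj

/-!
Anti-concentration of the inner product of two independent, nearly unbiased 0-1 vectors.
-/

open Finset
open scoped RealInnerProductSpace

set_option linter.unusedSectionVars false
set_option linter.unusedVariables false
set_option linter.unusedSimpArgs false

namespace H644R2.SIJ

lemma exists_of_weight {α : Type*} [Fintype α] {W S : α → ℝ} {c : ℝ} (hW : ∀ a, 0 ≤ W a)
    (hpos : 0 < mn W) (h : mn (fun a => W a * S a) ≤ c * mn W) : ∃ a, 0 < W a ∧ S a ≤ c := by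
  by_contra hcon
  push Not at hcon
  have h1 : ∀ a, 0 ≤ W a * (S a - c) := by
    intro a
    rcases (hW a).eq_or_lt with h0 | h0
    · rw [← h0]; simp
    · have := hcon a h0
      exact mul_nonneg h0.le (by linarith)
  obtain ⟨a, ha⟩ : ∃ a, 0 < W a := by
    by_contra h2
    push Not at h2
    have h3 : mn W ≤ mn (fun _ : α => (0 : ℝ)) := mn_mono h2
    have h4 : mn (fun _ : α => (0 : ℝ)) = 0 := by simp [mn]
    linarith
  have h2 : 0 < mn (fun a => W a * (S a - c)) :=
    mn_pos_of h1 (a := a) (mul_pos ha (by have := hcon a ha; linarith))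
  have h3 : mn (fun a => W a * (S a - c)) = mn (fun a => W a * S a) - c * mn W := by
    rw [← mn_mul_left, ← mn_sub]
    exact mn_congr fun a => by ring
  linarith

lemma exists_of_sum_weight {α : Type*} [Fintype α] {W T : α → ℝ} (hW : ∀ a, 0 ≤ W a)
    (hT : ∀ a, W a = 0 → 0 ≤ T a)
    (hpos : 0 < ∑ a, W a) (h : ∑ a, T a ≤ ∑ a, W a) : ∃ a, 0 < W a ∧ T a ≤ W a := by
  by_contra hcon
  push Not at hcon
  have h1 : ∀ a ∈ univ, W a ≤ T a := by
    intro a _
    rcases (hW a).eq_or_lt with h0 | h0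
    · rw [← h0]; exact hT a h0.symm
    · exact (hcon a h0).le
  obtain ⟨a, _, ha⟩ : ∃ a ∈ univ, 0 < W a := by
    by_contra h2
    push Not at h2
    have : ∑ a, W a ≤ 0 := sum_nonpos fun a _ => h2 a (mem_univ a)
    linarith
  have h2 : ∑ a, W a < ∑ a, T a := sum_lt_sum h1 ⟨a, mem_univ a, hcon a ha⟩
  linarith

variable {I : Type} [Fintype I] [DecidableEq I]

section samples

variable {K : ℕ} {C : Type} [Fintype C] [Nonempty C]

/-- the other weights -/
noncomputable def Wo (f : C → ℝ) (i : Fin K) (X : Fin K → C) : ℝ := ∏ j ∈ univ.erase i, f (X j)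

lemma Wo_nonneg {f : C → ℝ} (hf : ∀ x, 0 ≤ f x) (i : Fin K) (X : Fin K → C) : 0 ≤ Wo f i X :=
  prod_nonneg fun _ _ => hf _

lemma prod_update (f : C → ℝ) (i : Fin K) (X : Fin K → C) (x : C) :
    ∏ j, f (Function.update X i x j) = Wo f i X * f x := by
  rw [← mul_prod_erase univ _ (mem_univ i), Function.update_self, mul_comm]
  congr 1
  refine prod_congr rfl fun j hj => ?_
  rw [Function.update_of_ne (ne_of_mem_erase hj)]

lemma mn_sample [DecidableEq C] (f : C → ℝ) (i : Fin K) (H : (Fin K → C) → C → ℝ)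
    (hH : ∀ X x y, H (Function.update X i x) y = H X y) :
    mn (fun X : Fin K → C => (∏ j, f (X j)) * H X (X i)) =
      mn (fun X : Fin K → C => Wo f i X * mn (fun x => f x * H X x)) := by
  rw [← mn_update i]
  refine mn_congr fun X => ?_
  rw [← mn_mul_left]
  refine mn_congr fun x => ?_
  rw [prod_update, hH, Function.update_self]
  ring

lemma mn_weight [DecidableEq C] (f : C → ℝ) (i : Fin K) :
    mn (fun X : Fin K → C => ∏ j, f (X j)) = mn (fun X : Fin K → C => Wo f i X) * mn f := by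
  have := mn_sample f i (fun _ _ => 1) (fun _ _ _ => rfl)
  simp only [mul_one] at this
  rw [this, mn_mul_right]

end samples

variable {E : ℕ}

/-- the all-ones vector -/
noncomputable def ones (E : ℕ) : EuclideanSpace ℝ (Fin E) := WithLp.toLp 2 (fun _ => 1)

/-- the 0-1 vector -/
noncomputable def uv (q : Fin E → I) (x : I → Bool) : EuclideanSpace ℝ (Fin E) :=
  (1 / 2 : ℝ) • (ones E + av q x)

lemma norm_av_sq (q : Fin E → I) (x : I → Bool) : ‖av q x‖ ^ 2 = E := by
  rw [norm_sq_eq]
  have : ∀ k, (av q x) k ^ 2 = 1 := fun k => sg_sq _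
  simp [this]

/-- number of common ones -/
def com (q : Fin E → I) (x y : I → Bool) : ℕ := #{k : Fin E | x (q k) = true ∧ y (q k) = true}

lemma inner_uv (q : Fin E → I) (x y : I → Bool) :
    ⟪uv q x, av q y⟫ = 2 * com q x y - ∑ k, (uv q x) k := by
  rw [inner_eq]
  have h1 : ∀ k, (uv q x) k * (av q y) k =
      2 * (if x (q k) = true ∧ y (q k) = true then 1 else 0) - (uv q x) k := by
    intro k
    simp only [uv, ones, av, PiLp.smul_apply, PiLp.add_apply, smul_eq_mul]
    cases x (q k) <;> cases y (q k) <;> norm_num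
  rw [sum_congr rfl (fun k _ => h1 k), sum_sub_distrib, ← mul_sum]
  congr 2
  simp [com]

/-- the span of the other samples and the all-ones vector -/
noncomputable def Ws {K : ℕ} (q : Fin E → I) (i : Fin K) (X : Fin K → I → Bool) :
    Submodule ℝ (EuclideanSpace ℝ (Fin E)) :=
  Submodule.span ℝ (Set.range (fun j : Fin K => if j = i then ones E else uv q (X j)))

lemma Ws_update {K : ℕ} (q : Fin E → I) (i : Fin K) (X : Fin K → I → Bool) (x : I → Bool) :
    Ws q i (Function.update X i x) = Ws q i X := by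
  unfold Ws
  congr 2
  funext j
  by_cases h : j = i
  · simp [h]
  · simp [h, Function.update_of_ne h]

lemma finrank_Ws {K : ℕ} (q : Fin E → I) (i : Fin K) (X : Fin K → I → Bool) :
    Module.finrank ℝ (Ws q i X) ≤ K := by
  have := finrank_range_le_card (R := ℝ) (fun j : Fin K => if j = i then ones E else uv q (X j))
  rw [Fintype.card_fin] at this
  exact this

/-- bad projection of the `i`-th sample -/
def Near {K : ℕ} (q : Fin E → I) (i : Fin K) (X : Fin K → I → Bool) : Prop :=
  (E : ℝ) / 2 ≤ ‖(Ws q i X).starProjection (av q (X i))‖ ^ 2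

open Classical in
lemma near_bound {K : ℕ} {q : Fin E → I} {J : Fin E → Finset I} (hF : Filt q J)
    (f : (I → Bool) → ℝ) (hf : ∀ x, 0 ≤ f x) (hE : 0 < E) {δ : ℝ}
    (hD : ∑ k, D (J k) (q k) f ≤ δ * E * mn f) (i : Fin K) :
    mn (fun X : Fin K → I → Bool => (∏ j, f (X j)) * (if Near q i X then (1 : ℝ) else 0)) ≤
      4 * (K / E + δ) * mn (fun X : Fin K → I → Bool => ∏ j, f (X j)) := by
  have hE' : (0 : ℝ) < E := by exact_mod_cast hE
  have h1 : ∀ X : Fin K → I → Bool, (∏ j, f (X j)) * (if Near q i X then (1 : ℝ) else 0) ≤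
      (∏ j, f (X j)) * (2 / E * ‖(Ws q i X).starProjection (av q (X i))‖ ^ 2) := by
    intro X
    refine mul_le_mul_of_nonneg_left ?_ (prod_nonneg fun _ _ => hf _)
    split_ifs with h
    · unfold Near at h
      rw [div_mul_eq_mul_div, le_div_iff₀ hE']
      linarith
    · positivity
  refine (mn_mono h1).trans ?_
  have h2 := mn_sample f i (fun (X : Fin K → I → Bool) (x : I → Bool) =>
    2 / E * ‖(Ws q i X).starProjection (av q x)‖ ^ 2) (fun X x y => by rw [Ws_update])
  rw [h2, mn_weight f i]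
  have h3 : ∀ X : Fin K → I → Bool, Wo f i X * mn (fun x => f x *
      (2 / E * ‖(Ws q i X).starProjection (av q x)‖ ^ 2)) ≤
      Wo f i X * (4 * (K / E + δ) * mn f) := by
    intro X
    refine mul_le_mul_of_nonneg_left ?_ (Wo_nonneg hf i X)
    have h4 := mn_proj_av hF f hf (Ws q i X)
    have h5 : mn (fun x => f x * (2 / E * ‖(Ws q i X).starProjection (av q x)‖ ^ 2)) =
        2 / E * mn (fun x => f x * ‖(Ws q i X).starProjection (av q x)‖ ^ 2) := by
      rw [← mn_mul_left]
      exact mn_congr fun x => by ring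
    rw [h5]
    have h6 : (Module.finrank ℝ (Ws q i X) : ℝ) ≤ K := by exact_mod_cast finrank_Ws q i X
    have h7 : mn (fun x => f x * ‖(Ws q i X).starProjection (av q x)‖ ^ 2) ≤
        2 * (K * mn f) + 2 * (δ * E * mn f) := by
      have := mul_le_mul_of_nonneg_right h6 (mn_nonneg hf)
      linarith
    calc 2 / E * mn (fun x => f x * ‖(Ws q i X).starProjection (av q x)‖ ^ 2)
        ≤ 2 / E * (2 * (K * mn f) + 2 * (δ * E * mn f)) :=
          mul_le_mul_of_nonneg_left h7 (by positivity)
      _ = 4 * (K / E + δ) * mn f := by field_simp; ring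
  refine (mn_mono h3).trans (le_of_eq ?_)
  rw [mn_mul_right]
  ring

/-- the pattern of satisfied constraints -/
noncomputable def pat {K : ℕ} (q : Fin E → I) (X : Fin K → I → Bool) (τ : (I → Bool) → ℝ) (w : ℝ)
    (y : I → Bool) : Finset (Fin K) :=
  univ.filter (fun i => |(com q (X i) y : ℝ) - τ (X i)| ≤ w)

lemma dep_com (q : Fin E → I) (x : I → Bool) : Dep (univ.image q) (com q x) := by
  apply dep_of_update
  intro y y' h
  unfold com
  congr 1
  apply filter_congr
  intro k _
  rw [h (q k) (mem_image_of_mem q (mem_univ k))]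

lemma dep_pat {K : ℕ} (q : Fin E → I) (X : Fin K → I → Bool) (τ : (I → Bool) → ℝ) (w : ℝ) :
    Dep (univ.image q) (pat q X τ w) := by
  intro y y'
  unfold pat
  apply filter_congr
  intro i _
  rw [dep_com q (X i) y y']

section patterns

variable {K : ℕ} (Q : Finset I) (P : (I → Bool) → Finset (Fin K)) (g : (I → Bool) → ℝ)

/-- the part of `g` with pattern `G` -/
noncomputable def gp (G : Finset (Fin K)) (y : I → Bool) : ℝ := if P y = G then g y else 0

lemma sum_gp (y : I → Bool) : ∑ G, gp P g G y = g y := by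
  unfold gp
  simp

lemma cav_gp (hP : Dep Q P) (G : Finset (Fin K)) (y : I → Bool) :
    cav Q (gp P g G) y = if P y = G then cav Q g y else 0 := by
  unfold cav gp
  have : ∀ y', (if P (mix Q y y') = G then g (mix Q y y') else 0) =
      if P y = G then g (mix Q y y') else 0 := fun y' => by rw [hP]
  rw [mn_congr this]
  split_ifs
  · rfl
  · simp [mn]

lemma sum_phi_cav_gp (hP : Dep Q P) :
    ∑ G, mn (fun y => phi (cav Q (gp P g G) y)) = mn (fun y => phi (cav Q g y)) := by
  rw [← GKS.mn_finset_sum]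
  refine mn_congr fun y => ?_
  have : ∀ G, phi (cav Q (gp P g G) y) = if P y = G then phi (cav Q g y) else 0 := by
    intro G
    rw [cav_gp Q P g hP]
    split_ifs
    · rfl
    · simp [phi]
  simp [this]

lemma sum_mn_gp : ∑ G, mn (gp P g G) = mn g := by
  rw [← GKS.mn_finset_sum]
  exact mn_congr fun y => sum_gp P g y

/-- entropy of the pattern -/
lemma entropy_pat (hg : ∀ y, 0 ≤ g y) (hm : 0 < mn g) {ρ : ℝ} (hρ : 0 < ρ) :
    phi (mn g) - ∑ G, phi (mn (gp P g G)) ≤
      K * ρ * mn g + Real.log (1 / ρ) * ∑ G : Finset (Fin K), (#Gᶜ : ℝ) * mn (gp P g G) := by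
  have hgp : ∀ G, 0 ≤ mn (gp P g G) := fun G => mn_nonneg fun y => by
    unfold gp; split_ifs; exacts [hg y, le_rfl]
  set π : Finset (Fin K) → ℝ := fun G => ρ ^ (#Gᶜ) / (1 + ρ) ^ K with hπ
  have hπpos : ∀ G, 0 < π G := fun G => by rw [hπ]; positivity
  have hπsum : ∑ G, π G = 1 := by
    rw [hπ]
    simp only
    rw [← sum_div, div_eq_one_iff_eq (by positivity)]
    have h1 : ∑ G : Finset (Fin K), ρ ^ (#Gᶜ) = ∑ G : Finset (Fin K), ρ ^ (#G) :=
      Fintype.sum_equiv (Equiv.mk (fun G : Finset (Fin K) => Gᶜ) (fun G => Gᶜ)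
        (fun G => compl_compl G) (fun G => compl_compl G)) _ _ (fun G => rfl)
    rw [h1]
    have h2 := (Fintype.sum_pow_mul_eq_add_pow (Fin K) ρ 1)
    simp only [one_pow, mul_one, Fintype.card_fin] at h2
    rw [h2, add_comm]
  have key : ∀ G, mn (gp P g G) - mn g * π G ≤ phi (mn (gp P g G)) -
      mn (gp P g G) * Real.log (mn g) - mn (gp P g G) * Real.log (π G) := by
    intro G
    have := gibbs_pt (g := mn (gp P g G)) (w := π G) (m := mn g) (Z := 1) (hgp G)
      (hπpos G).le hm one_pos (fun h => absurd h (hπpos G).ne')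
    simp only [Real.log_one, mul_zero, sub_zero, div_one] at this
    exact this
  have h1 := sum_le_sum (fun G (_ : G ∈ (univ : Finset (Finset (Fin K)))) => key G)
  rw [sum_sub_distrib, sum_sub_distrib, sum_sub_distrib, ← sum_mul, ← mul_sum, sum_mn_gp,
    hπsum] at h1
  have h2 : ∀ G : Finset (Fin K), -(mn (gp P g G) * Real.log (π G)) ≤
      K * ρ * mn (gp P g G) + Real.log (1 / ρ) * ((#Gᶜ : ℝ) * mn (gp P g G)) := by
    intro G
    have h3 : Real.log (π G) = (#Gᶜ : ℝ) * Real.log ρ - K * Real.log (1 + ρ) := by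
      rw [hπ]
      simp only
      rw [Real.log_div (by positivity) (by positivity), Real.log_pow, Real.log_pow]
    have h4 : Real.log (1 + ρ) ≤ ρ := by
      have := Real.log_le_sub_one_of_pos (x := 1 + ρ) (by linarith)
      linarith
    rw [h3, one_div, Real.log_inv]
    have h5 : (K : ℝ) * Real.log (1 + ρ) ≤ K * ρ := mul_le_mul_of_nonneg_left h4 (by positivity)
    nlinarith [hgp G, mul_le_mul_of_nonneg_right h5 (hgp G)]
  have h3 := sum_le_sum (fun G (_ : G ∈ (univ : Finset (Finset (Fin K)))) => h2 G)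
  rw [sum_neg_distrib, sum_add_distrib, ← mul_sum, ← mul_sum, sum_mn_gp] at h3
  have h4 : phi (mn g) = mn g * Real.log (mn g) := rfl
  linarith

end patterns

/-- number of violated constraints, averaged -/
lemma sum_compl_gp {K : ℕ} (q : Fin E → I) (X : Fin K → I → Bool) (τ : (I → Bool) → ℝ) (w : ℝ)
    (g : (I → Bool) → ℝ) :
    ∑ G : Finset (Fin K), (#Gᶜ : ℝ) * mn (gp (pat q X τ w) g G) =
      ∑ i, mn (fun y => g y * (if |(com q (X i) y : ℝ) - τ (X i)| ≤ w then (0 : ℝ) else 1)) := by
  have h1 : ∀ G : Finset (Fin K), (#Gᶜ : ℝ) * mn (gp (pat q X τ w) g G) =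
      mn (fun y => (#Gᶜ : ℝ) * gp (pat q X τ w) g G y) := fun G => by rw [mn_mul_left]
  rw [sum_congr rfl (fun G _ => h1 G), ← GKS.mn_finset_sum, ← GKS.mn_finset_sum]
  refine mn_congr fun y => ?_
  have h2 : ∀ G : Finset (Fin K), (#Gᶜ : ℝ) * gp (pat q X τ w) g G y =
      if pat q X τ w y = G then (#Gᶜ : ℝ) * g y else 0 := by
    intro G; unfold gp; split_ifs <;> simp
  rw [sum_congr rfl (fun G _ => h2 G), sum_ite_eq, if_pos (mem_univ _), ← mul_sum, mul_comm]
  congr 1
  have h3 : (pat q X τ w y)ᶜ = univ.filter (fun i => ¬ |(com q (X i) y : ℝ) - τ (X i)| ≤ w) := by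
    unfold pat
    rw [compl_filter]
  rw [h3, card_filter]
  push_cast
  refine sum_congr rfl fun i _ => ?_
  split_ifs <;> simp_all

end H644R2.SIJ
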