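import Pool.Agent.H644R2.SIJ.AC

/-!
The anti-concentration theorem.
-/

open Finset
open scoped RealInnerProductSpace

set_option linter.unusedSectionVars false
set_option linter.unusedVariables false
set_option linter.unusedSimpArgs false

namespace H644R2.SIJ

variable {I : Type} [Fintype I] [DecidableEq I] {E : ℕ}

lemma ones_mem {K : ℕ} (q : Fin E → I) (i : Fin K) (X : Fin K → I → Bool) :
    ones E ∈ Ws q i X := Submodule.subset_span ⟨i, by simp⟩

lemma uv_mem {K : ℕ} (q : Fin E → I) {i j : Fin K} (h : j ≠ i) (X : Fin K → I → Bool) :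
    uv q (X j) ∈ Ws q i X := Submodule.subset_span ⟨j, by simp [h]⟩

/-- the residual vectors -/
noncomputable def nv {K : ℕ} (q : Fin E → I) (X : Fin K → I → Bool) (i : Fin K) :
    EuclideanSpace ℝ (Fin E) := uv q (X i) - (Ws q i X).starProjection (uv q (X i))

lemma nv_inner {K : ℕ} (q : Fin E → I) (X : Fin K → I → Bool) {i j : Fin K} (h : j ≠ i) :
    ⟪nv q X i, uv q (X j)⟫ = 0 :=
  Submodule.starProjection_inner_eq_zero _ _ (uv_mem q h X)

lemma nv_inner_self {K : ℕ} (q : Fin E → I) (X : Fin K → I → Bool) (i : Fin K) :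
    ⟪nv q X i, uv q (X i)⟫ = ‖nv q X i‖ ^ 2 := by
  rw [← real_inner_self_eq_norm_sq]
  conv_rhs => rw [nv, inner_sub_right]
  have : ⟪nv q X i, (Ws q i X).starProjection (uv q (X i))⟫ = 0 :=
    Submodule.starProjection_inner_eq_zero _ _ (Submodule.starProjection_apply_mem _ _)
  unfold nv at this ⊢
  rw [this, sub_zero]

lemma nv_norm {K : ℕ} (q : Fin E → I) (X : Fin K → I → Bool) {i : Fin K} (h : ¬ Near q i X) :
    (E : ℝ) / 8 ≤ ‖nv q X i‖ ^ 2 := by
  have h1 : nv q X i = (1 / 2 : ℝ) • (av q (X i) - (Ws q i X).starProjection (av q (X i))) := by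
    unfold nv uv
    rw [map_smul, map_add, Submodule.starProjection_eq_self_iff.2 (ones_mem q i X)]
    module
  have h2 := Submodule.norm_sq_eq_add_norm_sq_starProjection (av q (X i)) (Ws q i X)
  have h3 : (Ws q i X)ᗮ.starProjection (av q (X i)) =
      av q (X i) - (Ws q i X).starProjection (av q (X i)) := by
    rw [Submodule.starProjection_orthogonal']
    simp
  rw [h1, norm_smul, mul_pow, ← h3]
  rw [norm_av_sq] at h2
  unfold Near at h
  push Not at h
  have : ‖(1 / 2 : ℝ)‖ ^ 2 = 1 / 4 := by norm_num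
  rw [this]
  linarith

/-- bad event -/
def Bd (q : Fin E → I) (τ : (I → Bool) → ℝ) (w : ℝ) (x y : I → Bool) : Prop :=
  ¬ |(com q x y : ℝ) - τ x| ≤ w

open Classical in
/-- Two independent nearly unbiased vectors: their inner product is not concentrated. -/
theorem anti {q : Fin E → I} (hq : Function.Injective q) {r r' : I → ℕ}
    (hr : Function.Injective r) (hr' : Function.Injective r') (f g : (I → Bool) → ℝ)
    (hf : ∀ x, 0 ≤ f x) (hg : ∀ y, 0 ≤ g y) (hfm : 0 < mn f) (hgm : 0 < mn g) (hE : 200 ≤ E)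
    (hDf : ∑ k, D (pre r univ (q k)) (q k) f ≤ 1 / 30000 * E * mn f)
    (hDg : ∑ k, D (pre r' univ (q k)) (q k) g ≤ 1 / 30000 * E * mn g)
    (τ : (I → Bool) → ℝ) {w : ℝ} (hw : w ^ 2 ≤ E / 256)
    (hbad : mn (fun x => f x * mn (fun y => g y * (if Bd q τ w x y then (1 : ℝ) else 0))) ≤
      1 / 10000 * (mn f * mn g)) : False := by
  have hE0 : 0 < E := by omega
  have hE' : (0 : ℝ) < E := by exact_mod_cast hE0
  set K : ℕ := E / 100 with hK
  have hK1 : (K : ℝ) ≤ E / 100 := by
    rw [le_div_iff₀ (by norm_num)]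
    have : K * 100 ≤ E := by rw [hK]; omega
    exact_mod_cast this
  have hK2 : (E : ℝ) / 200 ≤ K := by
    rw [div_le_iff₀ (by norm_num)]
    have : E ≤ K * 200 := by rw [hK]; omega
    exact_mod_cast this
  have hK0 : (0 : ℝ) < K := lt_of_lt_of_le (by positivity) hK2
  have hKn : 0 < K := by exact_mod_cast hK0
  have hF := filt_pre hq hr (s := univ) (fun k => mem_univ (q k))
  set Z := mn (fun X : Fin K → I → Bool => ∏ j, f (X j)) with hZ
  have hZpos : 0 < Z := by
    rw [hZ, mn_pi_prod (fun _ : Fin K => f), prod_const]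
    positivity
  set V : (I → Bool) → ℝ := fun x => mn (fun y => g y * (if Bd q τ w x y then (1 : ℝ) else 0))
    with hV
  have hV0 : ∀ x, 0 ≤ V x := fun x => mn_nonneg fun y =>
    mul_nonneg (hg y) (by split_ifs <;> norm_num)
  -- choice of the samples
  obtain ⟨X, hX1, hX2⟩ : ∃ X : Fin K → I → Bool, 0 < ∏ j, f (X j) ∧
      (∑ i, (4 / K * (if Near q i X then (1 : ℝ) else 0) + 10000 / (4 * K * mn g) * V (X i))) ≤
        1 / 2 := by
    refine exists_of_weight (fun X => prod_nonneg fun _ _ => hf _) hZpos ?_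
    have h1 : mn (fun X : Fin K → I → Bool => (∏ j, f (X j)) *
        ∑ i, (4 / K * (if Near q i X then (1 : ℝ) else 0) + 10000 / (4 * K * mn g) * V (X i))) =
        ∑ i : Fin K, (4 / K * mn (fun X : Fin K → I → Bool => (∏ j, f (X j)) *
          (if Near q i X then (1 : ℝ) else 0)) +
          10000 / (4 * K * mn g) * mn (fun X : Fin K → I → Bool => (∏ j, f (X j)) * V (X i))) := by
      have h2 : ∀ X : Fin K → I → Bool, (∏ j, f (X j)) *
          ∑ i, (4 / K * (if Near q i X then (1 : ℝ) else 0) + 10000 / (4 * K * mn g) * V (X i)) =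
          ∑ i, (4 / K * ((∏ j, f (X j)) * (if Near q i X then (1 : ℝ) else 0)) +
          10000 / (4 * K * mn g) * ((∏ j, f (X j)) * V (X i))) := by
        intro X
        rw [mul_sum]
        refine sum_congr rfl fun i _ => ?_
        ring
      refine (mn_congr h2).trans ((GKS.mn_finset_sum univ _).trans ?_)
      refine sum_congr rfl fun i _ => ?_
      rw [mn_add, mn_mul_left, mn_mul_left]
    rw [h1]
    have h3 : ∀ i ∈ (univ : Finset (Fin K)), (4 / K * mn (fun X : Fin K → I → Bool =>
          (∏ j, f (X j)) * (if Near q i X then (1 : ℝ) else 0)) +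
          10000 / (4 * K * mn g) * mn (fun X : Fin K → I → Bool => (∏ j, f (X j)) * V (X i))) ≤
          1 / (2 * K) * Z := by
      intro i _
      have h4 := near_bound hF f hf hE0 hDf i
      have h5 : mn (fun X : Fin K → I → Bool => (∏ j, f (X j)) * V (X i)) ≤
          1 / 10000 * mn g * Z := by
        have h6 := mn_sample f i (fun (_ : Fin K → I → Bool) x => V x) (fun _ _ _ => rfl)
        rw [h6, mn_mul_right, hZ, mn_weight f i]
        have h7 : 0 ≤ mn (fun X : Fin K → I → Bool => Wo f i X) :=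
          mn_nonneg fun X => Wo_nonneg hf i X
        have h8 := mul_le_mul_of_nonneg_left hbad h7
        calc _ ≤ mn (fun X : Fin K → I → Bool => Wo f i X) * (1 / 10000 * (mn f * mn g)) := h8
          _ = _ := by ring
      have h9 : 4 * ((K : ℝ) / E + 1 / 30000) ≤ 1 / 16 := by
        have : (K : ℝ) / E ≤ 1 / 100 := by
          rw [div_le_iff₀ hE']; linarith
        linarith
      have h10 : 4 / K * mn (fun X : Fin K → I → Bool =>
          (∏ j, f (X j)) * (if Near q i X then (1 : ℝ) else 0)) ≤ 4 / K * (1 / 16 * Z) := by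
        refine mul_le_mul_of_nonneg_left (h4.trans ?_) (by positivity)
        exact mul_le_mul_of_nonneg_right h9 hZpos.le
      have h11 : 10000 / (4 * K * mn g) * mn (fun X : Fin K → I → Bool =>
          (∏ j, f (X j)) * V (X i)) ≤ 10000 / (4 * K * mn g) * (1 / 10000 * mn g * Z) :=
        mul_le_mul_of_nonneg_left h5 (by positivity)
      have h12 : 10000 / (4 * K * mn g) * (1 / 10000 * mn g * Z) = 1 / (4 * K) * Z := by
        field_simp
      have h13 : 4 / K * (1 / 16 * Z) = 1 / (4 * K) * Z := by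
        field_simp
        norm_num
      have h14 : 1 / (2 * K) * Z = 1 / (4 * K) * Z + 1 / (4 * K) * Z := by
        field_simp
        norm_num
      linarith
    refine (sum_le_card_nsmul univ _ _ h3).trans (le_of_eq ?_)
    rw [card_univ, Fintype.card_fin, nsmul_eq_mul, ← hZ]
    field_simp
  -- consequences
  rw [sum_add_distrib, ← mul_sum, ← mul_sum] at hX2
  set NN : Finset (Fin K) := univ.filter (fun i => Near q i X) with hNN
  have hNNs : ∑ i, (if Near q i X then (1 : ℝ) else 0) = #NN := by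
    rw [hNN, card_filter]; push_cast; rfl
  rw [hNNs] at hX2
  have hVs : 0 ≤ ∑ i, V (X i) := sum_nonneg fun i _ => hV0 _
  have hN : (#NN : ℝ) ≤ K / 8 := by
    have h1 : 4 / K * (#NN : ℝ) ≤ 1 / 2 := by
      have : 0 ≤ 10000 / (4 * K * mn g) * ∑ i, V (X i) := by positivity
      linarith
    rw [div_mul_eq_mul_div, div_le_iff₀ hK0] at h1
    linarith
  have hviol : ∑ i, V (X i) ≤ 2 / 10000 * K * mn g := by
    have h1 : 10000 / (4 * K * mn g) * ∑ i, V (X i) ≤ 1 / 2 := by
      have : 0 ≤ 4 / K * (#NN : ℝ) := by positivity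
      linarith
    rw [div_mul_eq_mul_div, div_le_iff₀ (by positivity)] at h1
    linarith
  -- patterns
  set Q : Finset I := univ.image q with hQ
  set P : (I → Bool) → Finset (Fin K) := pat q X τ w with hP
  have hPd : Dep Q P := dep_pat q X τ w
  set S : Finset (Fin K) → ℝ := fun G => ∑ k, D (pre r' Q (q k)) (q k) (gp P g G) with hS
  have hgp0 : ∀ G y, 0 ≤ gp P g G y := fun G y => by
    unfold gp; split_ifs; exacts [hg y, le_rfl]
  have hsumQ : ∀ F : I → ℝ, ∑ i ∈ Q, F i = ∑ k, F (q k) := by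
    intro F
    rw [hQ, sum_image (fun a _ b _ h => hq h)]
  have hS0 : ∀ G, 0 ≤ S G := fun G => sum_nonneg fun k _ => D_nonneg (hgp0 G) _ _
  have hS1 : ∑ G, S G ≤ 4 * (1 / 30000 * E * mn g + (K * (1 / 200) * mn g +
      Real.log (1 / (1 / 200)) * (2 / 10000 * K * mn g))) := by
    have h1 : ∀ G, S G ≤ 4 * (mn (fun y => phi (cav Q (gp P g G) y)) - phi (mn (gp P g G))) := by
      intro G
      have := chain_lower hr' Q (hgp0 G)
      rw [hsumQ] at this
      exact this
    have h2 := sum_le_sum (fun G (_ : G ∈ (univ : Finset (Finset (Fin K)))) => h1 G)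
    rw [← mul_sum, sum_sub_distrib, sum_phi_cav_gp Q P g hPd] at h2
    have h3 := chain_upper hr' Q hg
    rw [hsumQ] at h3
    have h4 : ∑ k, D (pre r' Q (q k)) (q k) g ≤ ∑ k, D (pre r' univ (q k)) (q k) g := by
      refine sum_le_sum fun k _ => D_mono ?_ (not_mem_pre _ _ _) hg
      exact filter_subset_filter _ (subset_univ _)
    have h5 := entropy_pat P g hg hgm (ρ := 1 / 200) (by norm_num)
    have h6 : ∑ G : Finset (Fin K), (#Gᶜ : ℝ) * mn (gp P g G) ≤ 2 / 10000 * K * mn g := by
      rw [hP, sum_compl_gp]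
      refine le_trans (le_of_eq ?_) hviol
      refine sum_congr rfl fun i _ => mn_congr fun y => ?_
      by_cases h : |(com q (X i) y : ℝ) - τ (X i)| ≤ w
      · rw [if_pos h, if_neg (show ¬ Bd q τ w (X i) y from fun hb => hb h)]
      · rw [if_neg h, if_pos (show Bd q τ w (X i) y from h)]
    have h7 : Real.log (1 / (1 / 200)) * ∑ G : Finset (Fin K), (#Gᶜ : ℝ) * mn (gp P g G) ≤
        Real.log (1 / (1 / 200)) * (2 / 10000 * K * mn g) :=
      mul_le_mul_of_nonneg_left h6 (Real.log_nonneg (by norm_num))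
    linarith
  have hlog : Real.log (1 / (1 / 200)) ≤ 5.6 := by
    have h1 : (1 / (1 / 200) : ℝ) ≤ 2 ^ 8 := by norm_num
    have h2 : Real.log (1 / (1 / 200)) ≤ Real.log (2 ^ 8) := Real.log_le_log (by norm_num) h1
    rw [Real.log_pow] at h2
    have := Real.log_two_lt_d9
    push_cast at h2
    linarith
  set B : ℝ := 4 * (1 / 30000 * E + (K * (1 / 200) + 5.6 * (2 / 10000 * K))) with hB
  have hBpos : 0 < B := by rw [hB]; positivity
  have hS2 : ∑ G, S G ≤ B * mn g := by
    refine hS1.trans ?_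
    rw [hB]
    have : Real.log (1 / (1 / 200)) * (2 / 10000 * K * mn g) ≤ 5.6 * (2 / 10000 * K * mn g) :=
      mul_le_mul_of_nonneg_right hlog (by positivity)
    nlinarith
  -- choice of the pattern
  obtain ⟨G, hG1, hG2⟩ : ∃ G, 0 < mn (gp P g G) ∧
      S G / (2 * B) + 4 / K * ((#Gᶜ : ℝ) * mn (gp P g G)) ≤ mn (gp P g G) := by
    refine exists_of_sum_weight (fun G => mn_nonneg (hgp0 G)) ?_ ?_ ?_
    · intro G h
      rw [h]
      have := hS0 G
      simp only [mul_zero, add_zero]
      positivity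
    · rw [sum_mn_gp]; exact hgm
    · rw [sum_add_distrib, ← sum_div, ← mul_sum, sum_mn_gp]
      have h1 : (∑ G, S G) / (2 * B) ≤ 1 / 2 * mn g := by
        rw [div_le_iff₀ (by positivity)]
        nlinarith
      have h6 : ∑ G : Finset (Fin K), (#Gᶜ : ℝ) * mn (gp P g G) ≤ 2 / 10000 * K * mn g := by
        rw [hP, sum_compl_gp]
        refine le_trans (le_of_eq ?_) hviol
        refine sum_congr rfl fun i _ => mn_congr fun y => ?_
        by_cases h : |(com q (X i) y : ℝ) - τ (X i)| ≤ w
        · rw [if_pos h, if_neg (show ¬ Bd q τ w (X i) y from fun hb => hb h)]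
        · rw [if_neg h, if_pos (show Bd q τ w (X i) y from h)]
      have h7 : 4 / K * ∑ G : Finset (Fin K), (#Gᶜ : ℝ) * mn (gp P g G) ≤
          4 / K * (2 / 10000 * K * mn g) := mul_le_mul_of_nonneg_left h6 (by positivity)
      have h8 : 4 / K * (2 / 10000 * K * mn g) = 8 / 10000 * mn g := by
        field_simp
        norm_num
      nlinarith
  have hGa : S G ≤ 2 * B * mn (gp P g G) := by
    have h1 : S G / (2 * B) ≤ mn (gp P g G) := by
      have : 0 ≤ 4 / K * ((#Gᶜ : ℝ) * mn (gp P g G)) := by positivity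
      linarith
    rw [div_le_iff₀ (by positivity)] at h1
    linarith
  have hGb : (#Gᶜ : ℝ) ≤ K / 4 := by
    have h1 : 4 / K * ((#Gᶜ : ℝ) * mn (gp P g G)) ≤ mn (gp P g G) := by
      have : 0 ≤ S G / (2 * B) := div_nonneg (hS0 G) (by positivity)
      linarith
    rw [div_mul_eq_mul_div, div_le_iff₀ hK0] at h1
    have h2 : (4 * (#Gᶜ : ℝ)) * mn (gp P g G) ≤ K * mn (gp P g G) := by nlinarith
    have h3 := le_of_mul_le_mul_right h2 hG1
    linarith
  -- the core
  have hF' := filt_pre hq hr' (s := Q) (fun k => mem_image_of_mem q (mem_univ k))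
  have hcore := core hF' (gp P g G) (hgp0 G) (ι := {i : Fin K // i ∈ G ∧ i ∉ NN})
    (fun i => uv q (X i)) (fun i => nv q X i)
    (fun i => 2 * τ (X i) - ∑ k, (uv q (X i)) k) (E := E) (w := w) hE' hw
    (fun i j hij => nv_inner q X (fun h => hij (Subtype.ext h)))
    (fun i => nv_inner_self q X i)
    (fun i => nv_norm q X (fun h => i.2.2 (mem_filter.2 ⟨mem_univ _, h⟩)))
    (by
      intro y hy i
      have h1 : P y = G := by
        by_contra h
        exact hy (by unfold gp; rw [if_neg h])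
      have h2 : (i : Fin K) ∈ P y := by rw [h1]; exact i.2.1
      rw [hP] at h2
      simp only [pat, mem_filter, mem_univ, true_and] at h2
      rw [inner_uv]
      have h3 : 2 * (com q (X i) y : ℝ) - ∑ k, (uv q (X i)) k -
          (2 * τ (X i) - ∑ k, (uv q (X i)) k) = 2 * ((com q (X i) y : ℝ) - τ (X i)) := by ring
      rw [h3, abs_mul, abs_two]
      linarith)
  have hcard : (5 / 8 : ℝ) * K ≤ Fintype.card {i : Fin K // i ∈ G ∧ i ∉ NN} := by
    have h1 : Fintype.card {i : Fin K // i ∈ G ∧ i ∉ NN} = #(G \ NN) := by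
      rw [Fintype.card_subtype]
      congr 1
      ext i
      simp
    rw [h1]
    have h2 : K ≤ #(G \ NN) + #Gᶜ + #NN := by
      have h3 : (univ : Finset (Fin K)) ⊆ (G \ NN) ∪ Gᶜ ∪ NN := by
        intro i _
        by_cases h4 : i ∈ G <;> by_cases h5 : i ∈ NN <;> simp [h4, h5]
      have h4 := card_le_card h3
      rw [card_univ, Fintype.card_fin] at h4
      refine h4.trans ((card_union_le _ _).trans ?_)
      exact Nat.add_le_add_right (card_union_le _ _) _
    have h5 : (K : ℝ) ≤ #(G \ NN) + #Gᶜ + #NN := by exact_mod_cast h2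
    linarith
  have h1 : (5 / 8 : ℝ) * K * mn (gp P g G) ≤ 5 * (2 * B * mn (gp P g G)) :=
    (mul_le_mul_of_nonneg_right hcard hG1.le).trans (hcore.trans (by linarith))
  have h2 : (5 / 8 : ℝ) * K ≤ 10 * B := by
    have : ((5 / 8 : ℝ) * K) * mn (gp P g G) ≤ (10 * B) * mn (gp P g G) := by linarith
    exact le_of_mul_le_mul_right this hG1
  rw [hB] at h2
  linarith

end H644R2.SIJ
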