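import Pool.Agent.H644R2.SIJ.Defs
import Pool.Agent.H644R2.GKS.Prob

/-!
From protocols to rectangle partitions; amplification by medians.
-/

open Finset

set_option linter.unusedSectionVars false
set_option linter.unusedVariables false
set_option linter.unusedSimpArgs false

namespace H644R2.SIJ

/-- the leaves of a deterministic protocol -/
lemma tree_part {X Y : Type} (T : Tree X Y) :
    ∃ (L : Type) (_ : Fintype L) (A : L → X → Bool) (B : L → Y → Bool) (out : L → X → ℝ),
      Fintype.card L ≤ 2 ^ T.cost ∧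
      (∀ x y, ∑ l, (if A l x then (1 : ℝ) else 0) * (if B l y then 1 else 0) = 1) ∧
      ∀ x y l, A l x = true → B l y = true → out l x = T.run x y := by
  induction T with
  | out z =>
    refine ⟨Unit, inferInstance, fun _ _ => true, fun _ _ => true, fun _ => z, ?_, ?_, ?_⟩
    · simp [Tree.cost]
    · intro x y; simp
    · intro x y l _ _; rfl
  | alice b t f iht ihf =>
    obtain ⟨L1, i1, A1, B1, o1, c1, p1, r1⟩ := iht
    obtain ⟨L2, i2, A2, B2, o2, c2, p2, r2⟩ := ihf
    refine ⟨L1 ⊕ L2, inferInstance,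
      Sum.elim (fun l x => b x && A1 l x) (fun l x => !b x && A2 l x),
      Sum.elim B1 B2, Sum.elim o1 o2, ?_, ?_, ?_⟩
    · rw [Fintype.card_sum]
      have h1 : 2 ^ t.cost ≤ 2 ^ max t.cost f.cost := Nat.pow_le_pow_right (by norm_num) (le_max_left _ _)
      have h2 : 2 ^ f.cost ≤ 2 ^ max t.cost f.cost := Nat.pow_le_pow_right (by norm_num) (le_max_right _ _)
      simp only [Tree.cost]
      rw [pow_add, pow_one]
      omega
    · intro x y
      rw [Fintype.sum_sum_type]
      cases hb : b x
      · simp only [Sum.elim_inl, Sum.elim_inr, hb, Bool.false_and, Bool.not_false, Bool.true_and,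
          Bool.false_eq_true, if_false, zero_mul, mul_zero, sum_const_zero, zero_add]
        exact p2 x y
      · simp only [Sum.elim_inl, Sum.elim_inr, hb, Bool.not_true, Bool.false_and, Bool.true_and,
          Bool.false_eq_true, if_false, zero_mul, mul_zero, sum_const_zero, add_zero]
        exact p1 x y
    · rintro x y (l | l) hA hB
      · simp only [Sum.elim_inl, Bool.and_eq_true] at hA hB ⊢
        rw [r1 x y l hA.2 hB]
        simp [Tree.run, hA.1]
      · simp only [Sum.elim_inr, Bool.and_eq_true, Bool.not_eq_true'] at hA hB ⊢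
        rw [r2 x y l hA.2 hB]
        simp [Tree.run, hA.1]
  | bob b t f iht ihf =>
    obtain ⟨L1, i1, A1, B1, o1, c1, p1, r1⟩ := iht
    obtain ⟨L2, i2, A2, B2, o2, c2, p2, r2⟩ := ihf
    refine ⟨L1 ⊕ L2, inferInstance, Sum.elim A1 A2,
      Sum.elim (fun l y => b y && B1 l y) (fun l y => !b y && B2 l y),
      Sum.elim o1 o2, ?_, ?_, ?_⟩
    · rw [Fintype.card_sum]
      have h1 : 2 ^ t.cost ≤ 2 ^ max t.cost f.cost := Nat.pow_le_pow_right (by norm_num) (le_max_left _ _)
      have h2 : 2 ^ f.cost ≤ 2 ^ max t.cost f.cost := Nat.pow_le_pow_right (by norm_num) (le_max_right _ _)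
      simp only [Tree.cost]
      rw [pow_add, pow_one]
      omega
    · intro x y
      rw [Fintype.sum_sum_type]
      cases hb : b y
      · simp only [Sum.elim_inl, Sum.elim_inr, hb, Bool.false_and, Bool.not_false, Bool.true_and,
          Bool.false_eq_true, if_false, zero_mul, mul_zero, sum_const_zero, zero_add]
        exact p2 x y
      · simp only [Sum.elim_inl, Sum.elim_inr, hb, Bool.not_true, Bool.false_and, Bool.true_and,
          Bool.false_eq_true, if_false, zero_mul, mul_zero, sum_const_zero, add_zero]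
        exact p1 x y
    · rintro x y (l | l) hA hB
      · simp only [Sum.elim_inl, Bool.and_eq_true] at hA hB ⊢
        rw [r1 x y l hA hB.2]
        simp [Tree.run, hB.1]
      · simp only [Sum.elim_inr, Bool.and_eq_true, Bool.not_eq_true'] at hA hB ⊢
        rw [r2 x y l hA hB.2]
        simp [Tree.run, hB.1]

/-- a median -/
lemma exists_median {k : ℕ} (z : Fin k → ℝ) : ∃ c : ℝ,
    2 * #{i | z i < c} ≤ k ∧ 2 * #{i | c < z i} ≤ k := by
  classical
  rcases Nat.eq_zero_or_pos k with hk | hk
  · subst hk; exact ⟨0, by simp, by simp⟩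
  have : Nonempty (Fin k) := ⟨⟨0, hk⟩⟩
  set S : Finset (Fin k) := univ.filter (fun i => k ≤ 2 * #{j | z j ≤ z i}) with hS
  have hne : S.Nonempty := by
    obtain ⟨i, hi⟩ := Finite.exists_max z
    refine ⟨i, ?_⟩
    rw [hS, mem_filter]
    refine ⟨mem_univ _, ?_⟩
    have : ({j | z j ≤ z i} : Finset (Fin k)) = univ := by
      ext j; simp [hi j]
    rw [this, card_univ, Fintype.card_fin]
    omega
  obtain ⟨i, hiS, hi⟩ := exists_min_image S z hne
  refine ⟨z i, ?_, ?_⟩
  · by_contra hcon
    push Not at hcon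
    have h1 : ({j | z j < z i} : Finset (Fin k)).Nonempty := by
      rw [← card_pos]; omega
    obtain ⟨a, haS, ha⟩ := exists_max_image _ z h1
    have h2 : a ∈ S := by
      rw [hS, mem_filter]
      refine ⟨mem_univ _, ?_⟩
      have h3 : ({j | z j < z i} : Finset (Fin k)) ⊆ ({j | z j ≤ z a} : Finset (Fin k)) := by
        intro j hj
        simp only [mem_filter, mem_univ, true_and]
        exact ha j hj
      have := card_le_card h3
      omega
    have h3 := hi a h2
    simp only [mem_filter, mem_univ, true_and] at haS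
    linarith
  · have h1 : k ≤ 2 * #{j | z j ≤ z i} := by
      rw [hS, mem_filter] at hiS
      exact hiS.2
    have h2 : #{j | z j ≤ z i} + #{j | z i < z j} = k := by
      have := card_filter_add_card_filter_not (s := (univ : Finset (Fin k)))
        (p := fun j => z j ≤ z i)
      simp only [not_le] at this
      rw [this, card_univ, Fintype.card_fin]
    omega

/-- the median -/
noncomputable def med {k : ℕ} (z : Fin k → ℝ) : ℝ := (exists_median z).choose

lemma med_mem {k : ℕ} (z : Fin k → ℝ) {lo hi : ℝ}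
    (h : 2 * #{i | ¬ (lo ≤ z i ∧ z i ≤ hi)} < k) : lo ≤ med z ∧ med z ≤ hi := by
  classical
  obtain ⟨h1, h2⟩ := (exists_median z).choose_spec
  have key : k = #{i | (lo ≤ z i ∧ z i ≤ hi)} + #{i | ¬ (lo ≤ z i ∧ z i ≤ hi)} := by
    have := card_filter_add_card_filter_not (s := (univ : Finset (Fin k)))
      (p := fun i => lo ≤ z i ∧ z i ≤ hi)
    rw [this, card_univ, Fintype.card_fin]
  constructor
  · by_contra hcon
    push Not at hcon
    have h3 : ({i | (lo ≤ z i ∧ z i ≤ hi)} : Finset (Fin k)) ⊆
        ({i | med z < z i} : Finset (Fin k)) := by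
      intro i hi'
      simp only [mem_filter, mem_univ, true_and] at hi' ⊢
      exact lt_of_lt_of_le hcon hi'.1
    have h4 := card_le_card h3
    have h5 : 2 * #{i | med z < z i} ≤ k := h2
    omega
  · by_contra hcon
    push Not at hcon
    have h3 : ({i | (lo ≤ z i ∧ z i ≤ hi)} : Finset (Fin k)) ⊆
        ({i | z i < med z} : Finset (Fin k)) := by
      intro i hi'
      simp only [mem_filter, mem_univ, true_and] at hi' ⊢
      exact lt_of_le_of_lt hi'.2 hcon
    have h4 := card_le_card h3
    have h5 : 2 * #{i | z i < med z} ≤ k := h1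
    omega

lemma sum_prod_weights {Ω : Type} [Fintype Ω] {k : ℕ} (f : Ω → ℝ) :
    ∑ W : Fin k → Ω, ∏ i, f (W i) = (∑ ω, f ω) ^ k := by
  classical
  have := Finset.prod_univ_sum (fun _ : Fin k => (univ : Finset Ω)) (fun _ ω => f ω)
  rw [Fintype.piFinset_univ] at this
  rw [← this, prod_const, card_univ, Fintype.card_fin]

/-- Chernoff bound -/
lemma chernoff {Ω : Type} [Fintype Ω] (p : Ω → ℝ) (hp : ∀ ω, 0 ≤ p ω) (hp1 : ∑ ω, p ω = 1)
    (W : Ω → Prop) [DecidablePred W] {δ : ℝ} (hδ : 0 < δ) (hδ2 : δ < 1 / 2)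
    (hW : ∑ ω with W ω, p ω ≤ δ) (m : ℕ) :
    ∑ Z : Fin (2 * m) → Ω with 2 * m ≤ 2 * #{i | W (Z i)}, ∏ i, p (Z i) ≤ (4 * δ * (1 - δ)) ^ m := by
  classical
  set lam : ℝ := (1 - δ) / δ with hlam
  have hlam1 : 1 ≤ lam := by
    rw [hlam, le_div_iff₀ hδ]; linarith
  have hlam0 : 0 < lam := by linarith
  have key : ∀ Z : Fin (2 * m) → Ω, (if 2 * m ≤ 2 * #{i | W (Z i)} then ∏ i, p (Z i) else 0) ≤
      (∏ i, (p (Z i) * if W (Z i) then lam else 1)) * (lam ^ m)⁻¹ := by
    intro Z
    have h0 : 0 ≤ ∏ i, p (Z i) := prod_nonneg fun i _ => hp _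
    have e1 : ∏ i, (p (Z i) * if W (Z i) then lam else 1) =
        (∏ i, p (Z i)) * lam ^ #{i | W (Z i)} := by
      rw [prod_mul_distrib]
      congr 1
      rw [prod_ite, prod_const, prod_const_one, mul_one]
    rw [e1]
    split_ifs with h
    · have h1 : lam ^ m ≤ lam ^ #{i | W (Z i)} := pow_le_pow_right₀ hlam1 (by omega)
      have h2 : 1 ≤ lam ^ #{i | W (Z i)} * (lam ^ m)⁻¹ := by
        rw [← div_eq_mul_inv, le_div_iff₀ (by positivity)]
        linarith
      nlinarith
    · positivity
  rw [sum_filter]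
  refine (sum_le_sum fun Z _ => key Z).trans ?_
  rw [← sum_mul, sum_prod_weights (fun ω => p ω * if W ω then lam else 1)]
  have e2 : ∑ ω, (p ω * if W ω then lam else 1) = 1 + (lam - 1) * ∑ ω with W ω, p ω := by
    have e3 : ∀ ω, (p ω * if W ω then lam else 1) =
        p ω + (lam - 1) * (if W ω then p ω else 0) := by
      intro ω
      split_ifs <;> ring
    rw [sum_filter, mul_sum, sum_congr rfl (fun ω _ => e3 ω), sum_add_distrib, hp1]
  rw [e2]
  have h3 : 0 ≤ ∑ ω with W ω, p ω := sum_nonneg fun ω _ => hp ω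
  have h4 : 1 + (lam - 1) * ∑ ω with W ω, p ω ≤ 2 * (1 - δ) := by
    have : (lam - 1) * ∑ ω with W ω, p ω ≤ (lam - 1) * δ :=
      mul_le_mul_of_nonneg_left hW (by linarith)
    have h5 : (lam - 1) * δ = 1 - 2 * δ := by
      rw [hlam]; field_simp; ring
    linarith
  have h6 : 0 ≤ 1 + (lam - 1) * ∑ ω with W ω, p ω := by
    have : 0 ≤ (lam - 1) * ∑ ω with W ω, p ω := mul_nonneg (by linarith) h3
    linarith
  calc (1 + (lam - 1) * ∑ ω with W ω, p ω) ^ (2 * m) * (lam ^ m)⁻¹
      ≤ (2 * (1 - δ)) ^ (2 * m) * (lam ^ m)⁻¹ :=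
        mul_le_mul_of_nonneg_right (pow_le_pow_left₀ h6 h4 _) (by positivity)
    _ = (4 * δ * (1 - δ)) ^ m := by
        rw [pow_mul, ← inv_pow, ← mul_pow]
        congr 1
        rw [hlam]
        have h7 : (1 - δ) ≠ 0 := by linarith
        field_simp
        ring

/-- Amplified, distributional version of a public-coin protocol. -/
theorem dist_of_public {X Y : Type} {lo hi : X → Y → ℝ} {δ : ℝ} (hδ0 : 0 < δ) (hδ : δ < 1 / 2)
    {C : ℕ} (hC : PublicCost X Y (fun x y z => lo x y ≤ z ∧ z ≤ hi x y) δ C) (m : ℕ)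
    {S : Type} [Fintype S] [Nonempty S] (u : S → X) (v : S → Y) :
    ∃ (L : Type) (_ : Fintype L) (A : L → X → Bool) (B : L → Y → Bool) (out : L → X → ℝ),
      Fintype.card L ≤ 2 ^ (2 * m * C) ∧
      (∀ x y, ∑ l, (if A l x then (1 : ℝ) else 0) * (if B l y then 1 else 0) = 1) ∧
      mn (fun s => ∑ l, (if A l (u s) then (1 : ℝ) else 0) * (if B l (v s) then 1 else 0) *
        (if lo (u s) (v s) ≤ out l (u s) ∧ out l (u s) ≤ hi (u s) (v s) then 0 else 1)) ≤
        (4 * δ * (1 - δ)) ^ m := by
  classical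
  obtain ⟨Ω, iΩ, Dd, T, hcost, herr⟩ := hC
  choose L iL A B o hcard hpart hrun using fun ω => tree_part (T ω)
  -- the error of a tuple of coins on an input
  set P : (Fin (2 * m) → Ω) → ℝ := fun Z => ∏ i, Dd.prob (Z i) with hP
  have hP0 : ∀ Z, 0 ≤ P Z := fun Z => prod_nonneg fun i _ => Dd.nonneg _
  have hPs : ∑ Z, P Z = 1 := by
    rw [hP, sum_prod_weights, Dd.total, one_pow]
  set Er : (Fin (2 * m) → Ω) → S → ℝ := fun Z s =>
    if 2 * m ≤ 2 * #{i | ¬ (lo (u s) (v s) ≤ (T (Z i)).run (u s) (v s) ∧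
      (T (Z i)).run (u s) (v s) ≤ hi (u s) (v s))} then 1 else 0 with hEr
  have h1 : ∀ s, ∑ Z, P Z * Er Z s ≤ (4 * δ * (1 - δ)) ^ m := by
    intro s
    have h2 := chernoff Dd.prob Dd.nonneg Dd.total
      (fun ω => ¬ (lo (u s) (v s) ≤ (T ω).run (u s) (v s) ∧
        (T ω).run (u s) (v s) ≤ hi (u s) (v s))) hδ0 hδ
      (herr (u s) (v s) _ (fun ω hω => (mem_filter.1 hω).2)) m
    refine le_trans (le_of_eq ?_) h2
    rw [sum_filter]
    refine sum_congr rfl fun Z _ => ?_
    simp only [hEr, hP]
    split_ifs <;> simp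
  obtain ⟨Z, hZ⟩ : ∃ Z, mn (Er Z) ≤ (4 * δ * (1 - δ)) ^ m := by
    by_contra hcon
    push Not at hcon
    have h3 : mn (fun s => ∑ Z, P Z * Er Z s) ≤ (4 * δ * (1 - δ)) ^ m := by
      refine (mn_mono h1).trans (le_of_eq (mn_const _))
    have h4 : mn (fun s => ∑ Z, P Z * Er Z s) = ∑ Z, P Z * mn (Er Z) := by
      refine (GKS.mn_finset_sum univ _).trans ?_
      exact sum_congr rfl fun Z _ => mn_mul_left _ _
    rw [h4] at h3
    have h5 : (4 * δ * (1 - δ)) ^ m = ∑ Z, P Z * (4 * δ * (1 - δ)) ^ m := by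
      rw [← sum_mul, hPs, one_mul]
    have h6 : ∃ Z ∈ (univ : Finset (Fin (2 * m) → Ω)), 0 < P Z := by
      by_contra h7
      push Not at h7
      have : ∑ Z, P Z ≤ 0 := sum_nonpos fun Z hZ => h7 Z hZ
      linarith
    obtain ⟨Z0, _, hZ0⟩ := h6
    have h7 : ∑ Z, P Z * (4 * δ * (1 - δ)) ^ m < ∑ Z, P Z * mn (Er Z) :=
      sum_lt_sum (fun Z _ => mul_le_mul_of_nonneg_left (hcon Z).le (hP0 Z))
        ⟨Z0, mem_univ _, mul_lt_mul_of_pos_left (hcon Z0) hZ0⟩
    linarith
  -- the product partition
  refine ⟨(i : Fin (2 * m)) → L (Z i), inferInstance,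
    fun l x => decide (∀ i, A (Z i) (l i) x = true), fun l y => decide (∀ i, B (Z i) (l i) y = true),
    fun l x => med (fun i => o (Z i) (l i) x), ?_, ?_, ?_⟩
  · rw [Fintype.card_pi]
    calc ∏ i, Fintype.card (L (Z i)) ≤ ∏ _i : Fin (2 * m), 2 ^ C :=
          prod_le_prod' fun i _ => (hcard (Z i)).trans (Nat.pow_le_pow_right (by norm_num) (hcost _))
      _ = 2 ^ (2 * m * C) := by
          rw [prod_const, card_univ, Fintype.card_fin, ← pow_mul, mul_comm]
  · intro x y
    have h2 : ∀ l : (i : Fin (2 * m)) → L (Z i),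
        (if decide (∀ i, A (Z i) (l i) x = true) then (1 : ℝ) else 0) *
          (if decide (∀ i, B (Z i) (l i) y = true) then 1 else 0) =
        ∏ i, ((if A (Z i) (l i) x then (1 : ℝ) else 0) * (if B (Z i) (l i) y then 1 else 0)) := by
      intro l
      rw [prod_mul_distrib]
      congr 1
      · simp only [decide_eq_true_eq]
        rw [prod_ite_zero]; simp
      · simp only [decide_eq_true_eq]
        rw [prod_ite_zero]; simp
    rw [sum_congr rfl (fun l _ => h2 l)]
    have h3 := Finset.prod_univ_sum (fun i : Fin (2 * m) => (univ : Finset (L (Z i))))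
      (fun i l => (if A (Z i) l x then (1 : ℝ) else 0) * (if B (Z i) l y then 1 else 0))
    rw [Fintype.piFinset_univ] at h3
    rw [← h3, prod_congr rfl (fun i _ => hpart (Z i) x y), prod_const_one]
  · refine le_trans (mn_mono fun s => ?_) hZ
    set x := u s
    set y := v s
    have hx1 : ∀ i, ∃ l : L (Z i), A (Z i) l x = true ∧ B (Z i) l y = true := by
      intro i
      by_contra h
      push Not at h
      have h2 := hpart (Z i) x y
      rw [sum_eq_zero] at h2
      · exact zero_ne_one h2
      · intro l _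
        by_cases h3 : A (Z i) l x = true
        · have := h l h3
          simp [this]
        · simp [h3]
    -- the sum over the leaves
    have h4 : ∀ l : (i : Fin (2 * m)) → L (Z i),
        (if decide (∀ i, A (Z i) (l i) x = true) then (1 : ℝ) else 0) *
          (if decide (∀ i, B (Z i) (l i) y = true) then 1 else 0) *
          (if lo x y ≤ med (fun i => o (Z i) (l i) x) ∧ med (fun i => o (Z i) (l i) x) ≤ hi x y
            then 0 else 1) ≤
        (if decide (∀ i, A (Z i) (l i) x = true) then (1 : ℝ) else 0) *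
          (if decide (∀ i, B (Z i) (l i) y = true) then 1 else 0) * Er Z s := by
      intro l
      by_cases ha : ∀ i, A (Z i) (l i) x = true
      · by_cases hb : ∀ i, B (Z i) (l i) y = true
        · simp only [ha, hb, implies_true, decide_true, if_true, one_mul]
          split_ifs with h5
          · simp only [hEr]; split_ifs <;> norm_num
          · simp only [hEr]
            rw [if_pos]
            by_contra h6
            apply h5
            apply med_mem
            refine lt_of_le_of_lt (le_of_eq ?_) (not_le.1 h6)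
            congr 2
            apply filter_congr
            intro i _
            rw [hrun (Z i) x y (l i) (ha i) (hb i)]
        · simp [hb]
      · simp [ha]
    refine (sum_le_sum fun l _ => h4 l).trans ?_
    rw [← sum_mul]
    have h5 : ∑ l : (i : Fin (2 * m)) → L (Z i),
        (if decide (∀ i, A (Z i) (l i) x = true) then (1 : ℝ) else 0) *
          (if decide (∀ i, B (Z i) (l i) y = true) then 1 else 0) = 1 := by
      have h2 : ∀ l : (i : Fin (2 * m)) → L (Z i),
        (if decide (∀ i, A (Z i) (l i) x = true) then (1 : ℝ) else 0) *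
          (if decide (∀ i, B (Z i) (l i) y = true) then 1 else 0) =
        ∏ i, ((if A (Z i) (l i) x then (1 : ℝ) else 0) * (if B (Z i) (l i) y then 1 else 0)) := by
        intro l
        rw [prod_mul_distrib]
        congr 1
        · simp only [decide_eq_true_eq]
          rw [prod_ite_zero]; simp
        · simp only [decide_eq_true_eq]
          rw [prod_ite_zero]; simp
      rw [sum_congr rfl (fun l _ => h2 l)]
      have h3 := Finset.prod_univ_sum (fun i : Fin (2 * m) => (univ : Finset (L (Z i))))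
        (fun i l => (if A (Z i) l x then (1 : ℝ) else 0) * (if B (Z i) l y then 1 else 0))
      rw [Fintype.piFinset_univ] at h3
      rw [← h3, prod_congr rfl (fun i _ => hpart (Z i) x y), prod_const_one]
    rw [h5, one_mul]

end H644R2.SIJ
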