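import Pool.Agent.H644R2.GKS.Prob

/-!
Conditional averages on the cube, biases, the chain rule for squared biases.
-/

open Finset

set_option linter.unusedSectionVars false
set_option linter.unusedVariables false
set_option linter.unusedSimpArgs false

namespace H644R2.SIJ

variable {I : Type} [Fintype I] [DecidableEq I]

/-- the coordinates in `J` from `x`, the others from `x'` -/
def mix (J : Finset I) (x x' : I → Bool) : I → Bool := fun i => if i ∈ J then x i else x' i

lemma mix_mix_left (J : Finset I) (x x' x'' : I → Bool) :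
    mix J (mix J x x') x'' = mix J x x'' := by
  funext i; unfold mix; split_ifs <;> rfl

lemma mix_mix_right (J : Finset I) (x x' x'' : I → Bool) :
    mix J x (mix J x' x'') = mix J x x'' := by
  funext i; unfold mix; split_ifs <;> rfl

/-- the swap of two configurations outside `J` -/
def mixEquiv (J : Finset I) : ((I → Bool) × (I → Bool)) ≃ ((I → Bool) × (I → Bool)) where
  toFun z := (mix J z.1 z.2, mix J z.2 z.1)
  invFun z := (mix J z.1 z.2, mix J z.2 z.1)
  left_inv z := by
    rcases z with ⟨x, x'⟩
    simp only [Prod.mk.injEq]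
    constructor <;> funext i <;> unfold mix <;> split_ifs <;> rfl
  right_inv z := by
    rcases z with ⟨x, x'⟩
    simp only [Prod.mk.injEq]
    constructor <;> funext i <;> unfold mix <;> split_ifs <;> rfl

lemma mn_mix (J : Finset I) (F : (I → Bool) → (I → Bool) → ℝ) :
    mn (fun x => mn (fun x' => F (mix J x x') (mix J x' x))) =
      mn (fun x => mn (fun x' => F x x')) := by
  have h := mn_equiv (mixEquiv J) (fun z : (I → Bool) × (I → Bool) => F z.1 z.2)
  rw [mn_prod, mn_prod] at h
  exact h

/-- conditional average given the coordinates in `J` -/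
noncomputable def cav (J : Finset I) (f : (I → Bool) → ℝ) (x : I → Bool) : ℝ :=
  mn (fun x' => f (mix J x x'))

/-- `g` depends on the coordinates in `J` only -/
def Dep (J : Finset I) {R : Type} (g : (I → Bool) → R) : Prop := ∀ x x', g (mix J x x') = g x

lemma dep_cav (J : Finset I) (f : (I → Bool) → ℝ) : Dep J (cav J f) := by
  intro x x'
  unfold cav
  exact mn_congr fun x'' => by rw [mix_mix_left]

lemma mix_sub {J J' : Finset I} (h : J ⊆ J') (x x' : I → Bool) :
    mix J (mix J' x x') (mix J' x x') = mix J' x x' ∧ mix J' (mix J x x') x = mix J x (mix J' x' x) := by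
  constructor
  · funext i; unfold mix; split_ifs <;> rfl
  · funext i
    unfold mix
    by_cases h1 : i ∈ J
    · simp [h1]
    · by_cases h2 : i ∈ J' <;> simp [h1, h2]

lemma Dep.mono {J J' : Finset I} (h : J ⊆ J') {R : Type} {g : (I → Bool) → R} (hg : Dep J g) :
    Dep J' g := by
  intro x x'
  rw [← hg (mix J' x x') x, ← hg x x]
  congr 1
  funext i
  unfold mix
  by_cases h1 : i ∈ J
  · simp [h1, h h1]
  · simp [h1]

lemma Dep.update {J : Finset I} {R : Type} {g : (I → Bool) → R} (hg : Dep J g) {i : I}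
    (hi : i ∉ J) (x : I → Bool) (b : Bool) : g (Function.update x i b) = g x := by
  rw [← hg (Function.update x i b) x, ← hg x x]
  congr 1
  funext j
  unfold mix
  by_cases h1 : j ∈ J
  · have : j ≠ i := fun h => hi (h ▸ h1)
    simp [h1, Function.update_of_ne this]
  · simp [h1]

lemma dep_of_update {J : Finset I} {R : Type} {g : (I → Bool) → R}
    (h : ∀ x x' : I → Bool, (∀ i ∈ J, x i = x' i) → g x = g x') : Dep J g := by
  intro x x'
  apply h
  intro i hi
  simp [mix, hi]

lemma Dep.eq {J : Finset I} {R : Type} {g : (I → Bool) → R} (hg : Dep J g)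
    {x x' : I → Bool} (h : ∀ i ∈ J, x i = x' i) : g x = g x' := by
  rw [← hg x x', ← hg x' x']
  congr 1
  funext i
  unfold mix
  by_cases h1 : i ∈ J
  · simp [h1, h i h1]
  · simp [h1]

lemma mn_cav_mul (J : Finset I) (f g : (I → Bool) → ℝ) (hg : Dep J g) :
    mn (fun x => cav J f x * g x) = mn (fun x => f x * g x) := by
  have h := mn_mix J (fun x _ => f x * g x)
  have h2 : mn (fun x : I → Bool => mn (fun _ : I → Bool => f x * g x)) =
      mn (fun x => f x * g x) := mn_congr fun x => mn_const _
  rw [h2] at h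
  rw [← h]
  refine mn_congr fun x => ?_
  unfold cav
  rw [← mn_mul_right]
  exact mn_congr fun x' => by rw [hg]

lemma mn_cav (J : Finset I) (f : (I → Bool) → ℝ) : mn (cav J f) = mn f := by
  have := mn_cav_mul J f (fun _ => 1) (fun _ _ => rfl)
  simpa using this

lemma cav_cav {J J' : Finset I} (h : J ⊆ J') (f : (I → Bool) → ℝ) (x : I → Bool) :
    cav J (cav J' f) x = cav J f x := by
  unfold cav
  have h1 := mn_mix J' (fun x' _ => f (mix J x x'))
  have h2 : mn (fun x' : I → Bool => mn (fun _ : I → Bool => f (mix J x x'))) =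
      mn (fun x' => f (mix J x x')) := mn_congr fun x => mn_const _
  rw [h2] at h1
  rw [← h1]
  refine mn_congr fun x' => mn_congr fun x'' => ?_
  congr 1
  funext i
  unfold mix
  by_cases h1 : i ∈ J
  · simp [h1, h h1]
  · by_cases h2 : i ∈ J' <;> simp [h1, h2]

lemma cav_nonneg {f : (I → Bool) → ℝ} (hf : ∀ x, 0 ≤ f x) (J : Finset I) (x : I → Bool) :
    0 ≤ cav J f x := mn_nonneg fun _ => hf _

lemma cav_empty (f : (I → Bool) → ℝ) (x : I → Bool) : cav ∅ f x = mn f := by
  unfold cav
  exact mn_congr fun x' => by congr 1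

lemma cav_univ (f : (I → Bool) → ℝ) (x : I → Bool) : cav univ f x = f x := by
  unfold cav
  have : ∀ x', f (mix univ x x') = f x := fun x' => by
    congr 1; funext i; simp [mix]
  rw [mn_congr this, mn_const]

/-- value of the conditional average when the new coordinate `i` is set to `b` -/
noncomputable def cb (J : Finset I) (i : I) (b : Bool) (f : (I → Bool) → ℝ) (x : I → Bool) : ℝ :=
  cav (insert i J) f (Function.update x i b)

lemma mn_bool (h : Bool → ℝ) : mn h = (h true + h false) / 2 := by
  simp [mn]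

lemma cb_eq (J : Finset I) (i : I) (b : Bool) (f : (I → Bool) → ℝ) (x : I → Bool) :
    cb J i b f x = mn (fun x' => f (Function.update (mix J x x') i b)) := by
  unfold cb cav
  refine mn_congr fun x' => ?_
  congr 1
  funext j
  unfold mix
  by_cases h1 : j = i
  · subst h1; simp
  · simp [h1, Function.update_of_ne h1]

lemma dep_cb (J : Finset I) (i : I) (b : Bool) (f : (I → Bool) → ℝ) : Dep J (cb J i b f) := by
  intro x x'
  rw [cb_eq, cb_eq]
  exact mn_congr fun x'' => by rw [mix_mix_left]

lemma cb_nonneg {f : (I → Bool) → ℝ} (hf : ∀ x, 0 ≤ f x) (J : Finset I) (i : I) (b : Bool)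
    (x : I → Bool) : 0 ≤ cb J i b f x := cav_nonneg hf _ _

lemma cav_eq_half {J : Finset I} {i : I} (hi : i ∉ J) (f : (I → Bool) → ℝ) (x : I → Bool) :
    cav J f x = (cb J i true f x + cb J i false f x) / 2 := by
  rw [cb_eq, cb_eq, ← mn_bool (fun b => mn (fun x' => f (Function.update (mix J x x') i b)))]
  rw [← mn_comm]
  unfold cav
  rw [← mn_update i (fun x' => f (mix J x x'))]
  refine mn_congr fun x' => mn_congr fun b => ?_
  congr 1
  funext j
  unfold mix
  by_cases h1 : j = i
  · subst h1; simp [hi]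
  · simp [Function.update_of_ne h1]

/-- conditional averages of a coordinate value -/
lemma cb_cav {J J' : Finset I} (h : J ⊆ J') {i : I} (hi : i ∉ J') (b : Bool)
    (f : (I → Bool) → ℝ) (x : I → Bool) :
    cav J (cb J' i b f) x = cb J i b f x := by
  have h1 : cb J i b f x = cb J i b (cav (insert i J') f) x := by
    unfold cb
    rw [cav_cav (insert_subset_insert i h)]
  rw [h1, cb_eq]
  unfold cav cb
  rfl

/-- mean squared bias (times the mean) of coordinate `i` given the coordinates in `J` -/
noncomputable def D (J : Finset I) (i : I) (f : (I → Bool) → ℝ) : ℝ :=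
  mn (fun x => (cb J i true f x - cb J i false f x) ^ 2 / (4 * cav J f x))

lemma D_nonneg {f : (I → Bool) → ℝ} (hf : ∀ x, 0 ≤ f x) (J : Finset I) (i : I) :
    0 ≤ D J i f :=
  mn_nonneg fun x => div_nonneg (sq_nonneg _) (by have := cav_nonneg hf J x; positivity)

/-- the function `z log z` -/
noncomputable def phi (z : ℝ) : ℝ := z * Real.log z

lemma phi_upper {p q : ℝ} (hp : 0 ≤ p) (hq : 0 ≤ q) :
    (phi p + phi q) / 2 - phi ((p + q) / 2) ≤ (p - q) ^ 2 / (4 * ((p + q) / 2)) := by
  rcases (add_nonneg hp hq).eq_or_lt with h | h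
  · have h1 : p = 0 := by linarith
    have h2 : q = 0 := by linarith
    simp [h1, h2, phi]
  set m := (p + q) / 2 with hm
  have hmpos : 0 < m := by rw [hm]; linarith
  have key : ∀ z : ℝ, 0 ≤ z → phi z ≤ z * Real.log m + z * (z / m - 1) := by
    intro z hz
    rcases hz.eq_or_lt with h0 | h0
    · simp [← h0, phi]
    · unfold phi
      have h1 := Real.log_le_sub_one_of_pos (x := z / m) (by positivity)
      rw [Real.log_div h0.ne' hmpos.ne'] at h1
      nlinarith
  have h1 := key p hp
  have h2 := key q hq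
  have h3 : phi m = (p / 2 + q / 2) * Real.log m := by unfold phi; rw [hm]; ring
  rw [h3]
  have h4 : (p - q) ^ 2 / (4 * m) = (p * (p / m - 1) + q * (q / m - 1)) / 2 := by
    have : m ≠ 0 := hmpos.ne'
    have hq' : q = 2 * m - p := by rw [hm]; ring
    rw [hq']
    field_simp
    ring
  rw [h4]
  linarith

lemma phi_lower {p q : ℝ} (hp : 0 ≤ p) (hq : 0 ≤ q) :
    (p - q) ^ 2 / (4 * ((p + q) / 2)) ≤ 4 * ((phi p + phi q) / 2 - phi ((p + q) / 2)) := by
  rcases (add_nonneg hp hq).eq_or_lt with h | h
  · have h1 : p = 0 := by linarith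
    have h2 : q = 0 := by linarith
    simp [h1, h2, phi]
  set m := (p + q) / 2 with hm
  have hmpos : 0 < m := by rw [hm]; linarith
  have key : ∀ z : ℝ, 0 ≤ z → z * Real.log m + 2 * (z - √z * √m) ≤ phi z := by
    intro z hz
    rcases hz.eq_or_lt with h0 | h0
    · simp [← h0, phi]
    · unfold phi
      have h1 := Real.one_sub_inv_le_log_of_pos (x := √z / √m) (by positivity)
      rw [Real.log_div (by positivity) (by positivity), Real.log_sqrt hz,
        Real.log_sqrt hmpos.le, inv_div] at h1
      have h2 : z * (√m / √z) = √z * √m := by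
        have : √z * √z = z := Real.mul_self_sqrt hz
        have h3 : √z ≠ 0 := by positivity
        field_simp
        nlinarith
      nlinarith [mul_le_mul_of_nonneg_left h1 hz]
  have h1 := key p hp
  have h2 := key q hq
  have h3 : phi m = (p / 2 + q / 2) * Real.log m := by unfold phi; rw [hm]; ring
  rw [h3]
  have hP : √p * √p = p := Real.mul_self_sqrt hp
  have hQ : √q * √q = q := Real.mul_self_sqrt hq
  have hM : √m * √m = m := Real.mul_self_sqrt hmpos.le
  have h5 : √m * (√p + √q) ≤ 2 * m - (√p - √q) ^ 2 / 4 := by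
    have : 0 ≤ (2 * √m - (√p + √q)) ^ 2 := sq_nonneg _
    have e : p + q = 2 * m := by rw [hm]; ring
    nlinarith
  have h6 : (p - q) ^ 2 / (4 * m) ≤ (√p - √q) ^ 2 := by
    rw [div_le_iff₀ (by positivity)]
    have e : p + q = 2 * m := by rw [hm]; ring
    have e1 : (p - q) ^ 2 = (√p - √q) ^ 2 * (√p + √q) ^ 2 := by
      have : p - q = (√p - √q) * (√p + √q) := by nlinarith
      rw [this]; ring
    rw [e1]
    have e2 : (√p + √q) ^ 2 ≤ 4 * m := by nlinarith [sq_nonneg (√p - √q)]
    exact mul_le_mul_of_nonneg_left e2 (sq_nonneg _)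
  nlinarith

lemma mn_phi_cav (J : Finset I) {i : I} (f : (I → Bool) → ℝ) :
    mn (fun x => phi (cav (insert i J) f x)) =
      mn (fun x => (phi (cb J i true f x) + phi (cb J i false f x)) / 2) := by
  rw [← mn_update i (fun x => phi (cav (insert i J) f x))]
  refine mn_congr fun x => ?_
  rw [mn_bool]
  rfl

lemma step_lower {J : Finset I} {i : I} (hi : i ∉ J) {f : (I → Bool) → ℝ} (hf : ∀ x, 0 ≤ f x) :
    D J i f ≤ 4 * (mn (fun x => phi (cav (insert i J) f x)) - mn (fun x => phi (cav J f x))) := by
  rw [mn_phi_cav, ← mn_sub, ← mn_mul_left]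
  refine mn_mono fun x => ?_
  rw [cav_eq_half hi]
  exact phi_lower (cb_nonneg hf _ _ _ _) (cb_nonneg hf _ _ _ _)

lemma step_upper {J : Finset I} {i : I} (hi : i ∉ J) {f : (I → Bool) → ℝ} (hf : ∀ x, 0 ≤ f x) :
    mn (fun x => phi (cav (insert i J) f x)) - mn (fun x => phi (cav J f x)) ≤ D J i f := by
  rw [mn_phi_cav, ← mn_sub]
  refine mn_mono fun x => ?_
  rw [cav_eq_half hi]
  exact phi_upper (cb_nonneg hf _ _ _ _) (cb_nonneg hf _ _ _ _)

/-- the elements of `s` of smaller rank than `i` -/
def pre (r : I → ℕ) (s : Finset I) (i : I) : Finset I := s.filter (fun j => r j < r i)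

lemma not_mem_pre (r : I → ℕ) (s : Finset I) (i : I) : i ∉ pre r s i := by
  simp [pre]

lemma pre_insert {r : I → ℕ} {s : Finset I} {a : I} (ha : ∀ x ∈ s, r x ≤ r a) {i : I}
    (hi : i ∈ s) : pre r (insert a s) i = pre r s i := by
  unfold pre
  rw [filter_insert, if_neg (not_lt.2 (ha i hi))]

lemma pre_insert_self {r : I → ℕ} (hr : Function.Injective r) {s : Finset I} {a : I}
    (has : a ∉ s) (ha : ∀ x ∈ s, r x ≤ r a) : pre r (insert a s) a = s := by
  unfold pre
  rw [filter_insert, if_neg (lt_irrefl _), filter_true_of_mem]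
  intro x hx
  exact lt_of_le_of_ne (ha x hx) fun h => has (hr h ▸ hx)

/-- chain rule, upper bound for the squared biases -/
lemma chain_lower {r : I → ℕ} (hr : Function.Injective r) (s : Finset I)
    {f : (I → Bool) → ℝ} (hf : ∀ x, 0 ≤ f x) :
    ∑ i ∈ s, D (pre r s i) i f ≤ 4 * (mn (fun x => phi (cav s f x)) - phi (mn f)) := by
  induction s using Finset.induction_on_max_value r with
  | empty =>
    have : ∀ x : I → Bool, phi (cav ∅ f x) = phi (mn f) := fun x => by rw [cav_empty]
    rw [mn_congr this, mn_const]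
    simp
  | insert a s has ha ih =>
    rw [sum_insert has, pre_insert_self hr has ha,
      sum_congr rfl (fun i hi => by rw [pre_insert ha hi])]
    have := step_lower has hf
    linarith

/-- chain rule, lower bound for the squared biases -/
lemma chain_upper {r : I → ℕ} (hr : Function.Injective r) (s : Finset I)
    {f : (I → Bool) → ℝ} (hf : ∀ x, 0 ≤ f x) :
    mn (fun x => phi (cav s f x)) - phi (mn f) ≤ ∑ i ∈ s, D (pre r s i) i f := by
  induction s using Finset.induction_on_max_value r with
  | empty =>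
    have : ∀ x : I → Bool, phi (cav ∅ f x) = phi (mn f) := fun x => by rw [cav_empty]
    rw [mn_congr this, mn_const]
    simp
  | insert a s has ha ih =>
    rw [sum_insert has, pre_insert_self hr has ha,
      sum_congr rfl (fun i hi => by rw [pre_insert ha hi])]
    have := step_upper has hf
    linarith

lemma cav_eq_zero {f : (I → Bool) → ℝ} (hf : ∀ x, 0 ≤ f x) {J : Finset I} {i : I} (hi : i ∉ J)
    {x : I → Bool} (h : cav J f x = 0) : cb J i true f x = 0 ∧ cb J i false f x = 0 := by
  rw [cav_eq_half hi] at h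
  have h1 := cb_nonneg hf J i true x
  have h2 := cb_nonneg hf J i false x
  constructor <;> linarith

/-- Cauchy-Schwarz for means -/
lemma mn_cs {α : Type*} [Fintype α] (d m : α → ℝ) (hm : ∀ a, 0 ≤ m a) (h0 : ∀ a, m a = 0 → d a = 0) :
    (mn d) ^ 2 / mn m ≤ mn (fun a => d a ^ 2 / m a) := by
  rcases (mn_nonneg hm).eq_or_lt with h | h
  · rw [← h, div_zero]
    exact mn_nonneg fun a => div_nonneg (sq_nonneg _) (hm a)
  set c := mn d / mn m with hc
  have h1 : ∀ a, 2 * c * d a - c ^ 2 * m a ≤ d a ^ 2 / m a := by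
    intro a
    rcases (hm a).eq_or_lt with h2 | h2
    · rw [h0 a h2.symm, ← h2]; simp
    · rw [le_div_iff₀ h2]
      nlinarith [sq_nonneg (d a - c * m a)]
  have h2 := mn_mono h1
  rw [mn_sub, mn_mul_left, mn_mul_left] at h2
  have h3 : (mn d) ^ 2 / mn m = 2 * c * mn d - c ^ 2 * mn m := by
    rw [hc]
    have : mn m ≠ 0 := h.ne'
    field_simp
    ring
  rw [h3]
  exact h2

/-- fewer conditions, smaller squared bias -/
lemma D_mono {J J' : Finset I} (h : J ⊆ J') {i : I} (hi : i ∉ J') {f : (I → Bool) → ℝ}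
    (hf : ∀ x, 0 ≤ f x) : D J i f ≤ D J' i f := by
  have h1 : D J' i f = mn (cav J (fun x => (cb J' i true f x - cb J' i false f x) ^ 2 /
      (4 * cav J' f x))) := by
    rw [mn_cav]; rfl
  rw [h1]
  refine mn_mono fun x => ?_
  have e1 : cb J i true f x - cb J i false f x =
      mn (fun x' => cb J' i true f (mix J x x') - cb J' i false f (mix J x x')) := by
    rw [mn_sub, ← cb_cav h hi, ← cb_cav h hi]
    rfl
  have e2 : 4 * cav J f x = mn (fun x' => 4 * cav J' f (mix J x x')) := by
    rw [mn_mul_left, ← cav_cav h]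
    rfl
  rw [e1, e2]
  refine mn_cs _ _ (fun x' => by have := cav_nonneg hf J' (mix J x x'); positivity) ?_
  intro x' h0
  have h2 : cav J' f (mix J x x') = 0 := by linarith
  have h3 := cav_eq_zero hf hi h2
  rw [h3.1, h3.2, sub_zero]

end H644R2.SIJ
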