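import Pool.Agent.H644R2.SIJ.Cav

/-!
Cut-and-paste for squared biases.
-/

open Finset

set_option linter.unusedSectionVars false
set_option linter.unusedVariables false
set_option linter.unusedSimpArgs false

namespace H644R2.SIJ

section pure

variable {L : Type} [Fintype L]

/-- squared norm of the difference of square roots -/
noncomputable def hd (p r : L → ℝ) : ℝ := ∑ l, (√(p l) - √(r l)) ^ 2

lemma hd_nonneg (p r : L → ℝ) : 0 ≤ hd p r := sum_nonneg fun _ _ => sq_nonneg _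

lemma hd_comm (p r : L → ℝ) : hd p r = hd r p := sum_congr rfl fun _ _ => by ring

lemma hd_triangle (p r s : L → ℝ) : hd p s ≤ 2 * hd p r + 2 * hd r s := by
  unfold hd
  rw [mul_sum, mul_sum, ← sum_add_distrib]
  refine sum_le_sum fun l _ => ?_
  nlinarith [sq_nonneg ((√(p l) - √(r l)) - (√(r l) - √(s l)))]

lemma hd_eq (p r : L → ℝ) (hp : ∀ l, 0 ≤ p l) (hr : ∀ l, 0 ≤ r l) (sp : ∑ l, p l = 1)
    (sr : ∑ l, r l = 1) : hd p r = 2 - 2 * ∑ l, √(p l * r l) := by
  unfold hd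
  have h : ∀ l, (√(p l) - √(r l)) ^ 2 = p l + r l - 2 * √(p l * r l) := by
    intro l
    rw [Real.sqrt_mul (hp l)]
    have h1 := Real.sq_sqrt (hp l)
    have h2 := Real.sq_sqrt (hr l)
    nlinarith
  rw [sum_congr rfl (fun l _ => h l), sum_sub_distrib, sum_add_distrib, sp, sr, ← mul_sum]
  ring

/-- the squared bias term -/
noncomputable def sb (a1 a0 : ℝ) : ℝ := (a1 - a0) ^ 2 / (4 * ((a1 + a0) / 2))

lemma sb_lower {a1 a0 : ℝ} (h1 : 0 ≤ a1) (h0 : 0 ≤ a0) :
    (√a1 - √a0) ^ 2 ≤ 2 * sb a1 a0 := by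
  rcases (add_nonneg h1 h0).eq_or_lt with h | h
  · have e1 : a1 = 0 := by linarith
    have e0 : a0 = 0 := by linarith
    simp [e1, e0, sb]
  unfold sb
  have h2 : 2 * ((a1 - a0) ^ 2 / (4 * ((a1 + a0) / 2))) = (a1 - a0) ^ 2 / (a1 + a0) := by
    field_simp
    ring
  rw [h2, le_div_iff₀ h]
  have hP := Real.sq_sqrt h1
  have hQ := Real.sq_sqrt h0
  have e : a1 - a0 = (√a1 - √a0) * (√a1 + √a0) := by nlinarith
  rw [e, mul_pow]
  refine mul_le_mul_of_nonneg_left ?_ (sq_nonneg _)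
  nlinarith [mul_nonneg (Real.sqrt_nonneg a1) (Real.sqrt_nonneg a0)]

lemma sb_upper {a1 a0 : ℝ} (h1 : 0 ≤ a1) (h0 : 0 ≤ a0) :
    sb a1 a0 ≤ (√a1 - √a0) ^ 2 := by
  rcases (add_nonneg h1 h0).eq_or_lt with h | h
  · have e1 : a1 = 0 := by linarith
    have e0 : a0 = 0 := by linarith
    simp [e1, e0, sb]
  unfold sb
  rw [div_le_iff₀ (by positivity)]
  have hP := Real.sq_sqrt h1
  have hQ := Real.sq_sqrt h0
  have e : a1 - a0 = (√a1 - √a0) * (√a1 + √a0) := by nlinarith
  rw [e, mul_pow]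
  refine mul_le_mul_of_nonneg_left ?_ (sq_nonneg _)
  nlinarith [sq_nonneg (√a1 - √a0)]

lemma sb_nonneg {a1 a0 : ℝ} (h1 : 0 ≤ a1) (h0 : 0 ≤ a0) : 0 ≤ sb a1 a0 := by
  unfold sb; positivity

lemma sum_mul_sb_lower (b a1 a0 : L → ℝ) (hb : ∀ l, 0 ≤ b l) (h1 : ∀ l, 0 ≤ a1 l)
    (h0 : ∀ l, 0 ≤ a0 l) :
    hd (fun l => a1 l * b l) (fun l => a0 l * b l) ≤ 2 * ∑ l, b l * sb (a1 l) (a0 l) := by
  unfold hd
  rw [mul_sum]
  refine sum_le_sum fun l _ => ?_
  rw [Real.sqrt_mul (h1 l), Real.sqrt_mul (h0 l)]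
  have h2 := Real.sq_sqrt (hb l)
  have h3 := mul_le_mul_of_nonneg_left (sb_lower (h1 l) (h0 l)) (hb l)
  nlinarith

lemma sum_mul_sb_upper (b a1 a0 : L → ℝ) (hb : ∀ l, 0 ≤ b l) (h1 : ∀ l, 0 ≤ a1 l)
    (h0 : ∀ l, 0 ≤ a0 l) :
    ∑ l, b l * sb (a1 l) (a0 l) ≤ hd (fun l => a1 l * b l) (fun l => a0 l * b l) := by
  unfold hd
  refine sum_le_sum fun l _ => ?_
  rw [Real.sqrt_mul (h1 l), Real.sqrt_mul (h0 l)]
  have h2 := Real.sq_sqrt (hb l)
  have h3 := mul_le_mul_of_nonneg_left (sb_upper (h1 l) (h0 l)) (hb l)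
  nlinarith

/-- cut-and-paste -/
lemma cutpaste (a1 a0 b1 b0 : L → ℝ) (ha1 : ∀ l, 0 ≤ a1 l) (ha0 : ∀ l, 0 ≤ a0 l)
    (hb1 : ∀ l, 0 ≤ b1 l) (hb0 : ∀ l, 0 ≤ b0 l)
    (s11 : ∑ l, a1 l * b1 l = 1) (s10 : ∑ l, a1 l * b0 l = 1)
    (s01 : ∑ l, a0 l * b1 l = 1) (s00 : ∑ l, a0 l * b0 l = 1) :
    ∑ l, (b1 l + b0 l) / 2 * sb (a1 l) (a0 l) ≤
      10 * (∑ l, b0 l * sb (a1 l) (a0 l) + ∑ l, a0 l * sb (b1 l) (b0 l)) := by
  set u0 := ∑ l, b0 l * sb (a1 l) (a0 l) with hu0
  set v0 := ∑ l, a0 l * sb (b1 l) (b0 l) with hv0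
  have hu0' : 0 ≤ u0 := sum_nonneg fun l _ => mul_nonneg (hb0 l) (sb_nonneg (ha1 l) (ha0 l))
  have hv0' : 0 ≤ v0 := sum_nonneg fun l _ => mul_nonneg (ha0 l) (sb_nonneg (hb1 l) (hb0 l))
  have e1 : hd (fun l => a1 l * b0 l) (fun l => a0 l * b0 l) ≤ 2 * u0 :=
    sum_mul_sb_lower b0 a1 a0 hb0 ha1 ha0
  have e2 : hd (fun l => a0 l * b1 l) (fun l => a0 l * b0 l) ≤ 2 * v0 := by
    have := sum_mul_sb_lower a0 b1 b0 ha0 hb1 hb0
    simpa only [mul_comm] using this
  have e3 : hd (fun l => a1 l * b1 l) (fun l => a0 l * b0 l) =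
      hd (fun l => a1 l * b0 l) (fun l => a0 l * b1 l) := by
    rw [hd_eq _ _ (fun l => mul_nonneg (ha1 l) (hb1 l)) (fun l => mul_nonneg (ha0 l) (hb0 l)) s11 s00,
      hd_eq _ _ (fun l => mul_nonneg (ha1 l) (hb0 l)) (fun l => mul_nonneg (ha0 l) (hb1 l)) s10 s01]
    congr 2
    refine sum_congr rfl fun l _ => ?_
    congr 1
    ring
  have e4 : hd (fun l => a1 l * b0 l) (fun l => a0 l * b1 l) ≤ 4 * u0 + 4 * v0 := by
    have := hd_triangle (fun l => a1 l * b0 l) (fun l => a0 l * b0 l) (fun l => a0 l * b1 l)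
    rw [hd_comm (fun l => a0 l * b0 l) (fun l => a0 l * b1 l)] at this
    linarith
  have e5 : hd (fun l => a1 l * b1 l) (fun l => a0 l * b1 l) ≤ 8 * u0 + 12 * v0 := by
    have := hd_triangle (fun l => a1 l * b1 l) (fun l => a0 l * b0 l) (fun l => a0 l * b1 l)
    rw [hd_comm (fun l => a0 l * b0 l) (fun l => a0 l * b1 l)] at this
    linarith
  have e6 := sum_mul_sb_upper b1 a1 a0 hb1 ha1 ha0
  have e7 : ∑ l, (b1 l + b0 l) / 2 * sb (a1 l) (a0 l) =
      (∑ l, b1 l * sb (a1 l) (a0 l)) / 2 + u0 / 2 := by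
    rw [hu0, sum_div, sum_div, ← sum_add_distrib]
    refine sum_congr rfl fun l _ => ?_
    ring
  rw [e7]
  linarith

end pure

variable {I : Type} [Fintype I] [DecidableEq I]

lemma D_eq_sb {J : Finset I} {i : I} (hi : i ∉ J) (f : (I → Bool) → ℝ) :
    D J i f = mn (fun x => sb (cb J i true f x) (cb J i false f x)) := by
  unfold D sb
  refine mn_congr fun x => ?_
  rw [cav_eq_half hi]

lemma mn_cb (J : Finset I) (i : I) (b : Bool) (f : (I → Bool) → ℝ) :
    mn (cb J i b f) = mn (fun x => f (Function.update x i b)) := by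
  have h : ∀ x, cb J i b f x = cav J (fun x => f (Function.update x i b)) x := by
    intro x
    rw [cb_eq]
    rfl
  rw [mn_congr h, mn_cav]

section families

variable {L : Type} [Fintype L] (f g : L → (I → Bool) → ℝ)

lemma cb_sum (hfg : ∀ x y, ∑ l, f l x * g l y = 1) (J J' : Finset I) (i : I) (b b' : Bool)
    (x y : I → Bool) : ∑ l, cb J i b (f l) x * cb J' i b' (g l) y = 1 := by
  have h1 : ∀ l, cb J i b (f l) x * cb J' i b' (g l) y =
      mn (fun x' => mn (fun y' => f l (Function.update (mix J x x') i b) *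
        g l (Function.update (mix J' y y') i b'))) := by
    intro l
    rw [cb_eq, cb_eq, ← mn_mul_right]
    refine mn_congr fun x' => ?_
    rw [← mn_mul_left]
  rw [sum_congr rfl (fun l _ => h1 l), ← GKS.mn_finset_sum]
  have h2 : ∀ x' : I → Bool, ∑ l, mn (fun y' => f l (Function.update (mix J x x') i b) *
        g l (Function.update (mix J' y y') i b')) = 1 := by
    intro x'
    rw [← GKS.mn_finset_sum, mn_congr (fun y' => hfg _ _), mn_const]
  rw [mn_congr h2, mn_const]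

/-- cut-and-paste for the mean squared biases -/
lemma cut_D (hf : ∀ l x, 0 ≤ f l x) (hg : ∀ l x, 0 ≤ g l x)
    (hfg : ∀ x y, ∑ l, f l x * g l y = 1) {J J' : Finset I} {i : I} (hi : i ∉ J) (hi' : i ∉ J') :
    ∑ l, mn (g l) * D J i (f l) ≤
      10 * (∑ l, mn (fun y => g l (Function.update y i false)) * D J i (f l) +
        ∑ l, mn (fun x => f l (Function.update x i false)) * D J' i (g l)) := by
  have key : ∀ x y, ∑ l, cav J' (g l) y * sb (cb J i true (f l) x) (cb J i false (f l) x) ≤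
      10 * (∑ l, cb J' i false (g l) y * sb (cb J i true (f l) x) (cb J i false (f l) x) +
        ∑ l, cb J i false (f l) x * sb (cb J' i true (g l) y) (cb J' i false (g l) y)) := by
    intro x y
    have := cutpaste (fun l => cb J i true (f l) x) (fun l => cb J i false (f l) x)
      (fun l => cb J' i true (g l) y) (fun l => cb J' i false (g l) y)
      (fun l => cb_nonneg (hf l) _ _ _ _) (fun l => cb_nonneg (hf l) _ _ _ _)
      (fun l => cb_nonneg (hg l) _ _ _ _) (fun l => cb_nonneg (hg l) _ _ _ _)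
      (cb_sum f g hfg _ _ _ _ _ _ _) (cb_sum f g hfg _ _ _ _ _ _ _)
      (cb_sum f g hfg _ _ _ _ _ _ _) (cb_sum f g hfg _ _ _ _ _ _ _)
    refine le_trans (le_of_eq ?_) this
    refine sum_congr rfl fun l _ => ?_
    rw [cav_eq_half hi']
  have h1 := mn_mono (fun x => mn_mono (fun y => key x y))
  have e1 : mn (fun x => mn (fun y => ∑ l, cav J' (g l) y *
      sb (cb J i true (f l) x) (cb J i false (f l) x))) = ∑ l, mn (g l) * D J i (f l) := by
    have h2 : ∀ x, mn (fun y => ∑ l, cav J' (g l) y *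
      sb (cb J i true (f l) x) (cb J i false (f l) x)) =
      ∑ l, mn (g l) * sb (cb J i true (f l) x) (cb J i false (f l) x) := by
      intro x
      refine (GKS.mn_finset_sum univ _).trans ?_
      refine sum_congr rfl fun l _ => ?_
      rw [mn_mul_right, mn_cav]
    rw [mn_congr h2]
    refine (GKS.mn_finset_sum univ _).trans ?_
    refine sum_congr rfl fun l _ => ?_
    rw [mn_mul_left, D_eq_sb hi]
  have e2 : mn (fun x => mn (fun y =>
      10 * (∑ l, cb J' i false (g l) y * sb (cb J i true (f l) x) (cb J i false (f l) x) +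
        ∑ l, cb J i false (f l) x * sb (cb J' i true (g l) y) (cb J' i false (g l) y)))) =
      10 * (∑ l, mn (fun y => g l (Function.update y i false)) * D J i (f l) +
        ∑ l, mn (fun x => f l (Function.update x i false)) * D J' i (g l)) := by
    have h2 : ∀ x, mn (fun y =>
      10 * (∑ l, cb J' i false (g l) y * sb (cb J i true (f l) x) (cb J i false (f l) x) +
        ∑ l, cb J i false (f l) x * sb (cb J' i true (g l) y) (cb J' i false (g l) y))) =
      10 * (∑ l, mn (fun y => g l (Function.update y i false)) *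
          sb (cb J i true (f l) x) (cb J i false (f l) x) +
        ∑ l, cb J i false (f l) x * D J' i (g l)) := by
      intro x
      rw [mn_mul_left, mn_add]
      congr 2
      · refine (GKS.mn_finset_sum univ _).trans ?_
        refine sum_congr rfl fun l _ => ?_
        rw [mn_mul_right, mn_cb]
      · refine (GKS.mn_finset_sum univ _).trans ?_
        refine sum_congr rfl fun l _ => ?_
        rw [mn_mul_left, D_eq_sb hi']
    rw [mn_congr h2, mn_mul_left, mn_add]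
    congr 2
    · refine (GKS.mn_finset_sum univ _).trans ?_
      refine sum_congr rfl fun l _ => ?_
      rw [mn_mul_left, D_eq_sb hi]
    · refine (GKS.mn_finset_sum univ _).trans ?_
      refine sum_congr rfl fun l _ => ?_
      rw [mn_mul_right, mn_cb]
  rw [e1, e2] at h1
  exact h1

end families

end H644R2.SIJ
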