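import Mathlib

/-!
Two-party communication protocols and the support size of a Boolean matrix product.
-/

open Finset

namespace H644R2.SIJ

/-- Deterministic two-party protocols.  Alice holds `x : X`, Bob holds `y : Y`.
`alice b t f`: Alice sends the bit `b x`, the protocol continues with `t` if it is `true` and with
`f` otherwise; `bob` is the same for Bob; `out z`: the communication is over and Alice computes
the output `z x` (which may depend on her input). -/
inductive Tree (X Y : Type) : Type
  | out (z : X → ℝ) : Tree X Y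
  | alice (b : X → Bool) (t f : Tree X Y) : Tree X Y
  | bob (b : Y → Bool) (t f : Tree X Y) : Tree X Y

namespace Tree

variable {X Y : Type}

/-- Worst-case number of bits exchanged. -/
def cost : Tree X Y → ℕ
  | out _ => 0
  | alice _ t f => 1 + max t.cost f.cost
  | bob _ t f => 1 + max t.cost f.cost

/-- The output on the inputs `x`, `y`. -/
def run : Tree X Y → X → Y → ℝ
  | out z, x, _ => z x
  | alice b t f, x, y => if b x then t.run x y else f.run x y
  | bob b t f, x, y => if b y then t.run x y else f.run x y

/-- The output is determined by the exchanged bits, so that both players know it. -/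
def Common : Tree X Y → Prop
  | out z => ∀ x x', z x = z x'
  | alice _ t f => t.Common ∧ f.Common
  | bob _ t f => t.Common ∧ f.Common

end Tree

/-- Finite probability distributions. -/
structure Dist (Ω : Type) [Fintype Ω] where
  /-- the probabilities -/
  prob : Ω → ℝ
  nonneg : ∀ ω, 0 ≤ prob ω
  total : ∑ ω, prob ω = 1

/-- `C` bits suffice for a public-coin protocol (a probability distribution on deterministic
protocols) in which Alice alone has to know the output and in which, on every input, the output is
wrong with probability at most `δ`.  `Good x y z` means: `z` is a correct output on `x`, `y`. -/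
def PublicCost (X Y : Type) (Good : X → Y → ℝ → Prop) (δ : ℝ) (C : ℕ) : Prop :=
  ∃ (Ω : Type) (_ : Fintype Ω) (D : Dist Ω) (T : Ω → Tree X Y),
    (∀ ω, (T ω).cost ≤ C) ∧
    ∀ x y, ∀ Bad : Finset Ω, (∀ ω ∈ Bad, ¬ Good x y ((T ω).run x y)) → ∑ ω ∈ Bad, D.prob ω ≤ δ

/-- `C` bits suffice for a private-coin protocol (Alice and Bob toss their own, independent coins
`a` and `b`) in which both players know the output and in which, on every input, the output is
wrong with probability at most `δ`. -/
def PrivateCost (X Y : Type) (Good : X → Y → ℝ → Prop) (δ : ℝ) (C : ℕ) : Prop :=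
  ∃ (ΩA ΩB : Type) (_ : Fintype ΩA) (_ : Fintype ΩB) (DA : Dist ΩA) (DB : Dist ΩB)
    (T : Tree (X × ΩA) (Y × ΩB)),
    T.cost ≤ C ∧ T.Common ∧
    ∀ x y, ∀ Bad : Finset (ΩA × ΩB), (∀ ω ∈ Bad, ¬ Good x y (T.run (x, ω.1) (y, ω.2))) →
      ∑ ω ∈ Bad, DA.prob ω.1 * DB.prob ω.2 ≤ δ

/-- Matrices with entries `0` and `1`. -/
abbrev BMat (n : ℕ) : Type := Matrix (Fin n) (Fin n) Bool

/-- The integer matrix of a 0-1 matrix. -/
def toInt {n : ℕ} (A : BMat n) : Matrix (Fin n) (Fin n) ℤ := A.map (fun b => if b then 1 else 0)

/-- The number of nonzero entries of the integer matrix product `A B`. -/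
def supp {n : ℕ} (A B : BMat n) : ℕ :=
  #{p : Fin n × Fin n | (toInt A * toInt B) p.1 p.2 ≠ 0}

/-- `z` is a `(1+ε)`-approximation of the support size. -/
def Approx (n : ℕ) (ε : ℝ) (A B : BMat n) (z : ℝ) : Prop :=
  (supp A B : ℝ) / (1 + ε) ≤ z ∧ z ≤ (1 + ε) * (supp A B : ℝ)

/-- Public-coin communication complexity of `SIJ_{n,ε}` with error `δ`, Alice outputs. -/
noncomputable def Rpub (δ : ℝ) (n : ℕ) (ε : ℝ) : ℕ :=
  sInf {C : ℕ | PublicCost (BMat n) (BMat n) (Approx n ε) δ C}

/-- Private-coin communication complexity of `SIJ_{n,ε}` with error `δ`, both players know the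
output. -/
noncomputable def Rpriv (δ : ℝ) (n : ℕ) (ε : ℝ) : ℕ :=
  sInf {C : ℕ | PrivateCost (BMat n) (BMat n) (Approx n ε) δ C}

end H644R2.SIJ
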