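import Pool.Agent.H644R2.SIJ.Red

/-!
The lower bound: constant accuracy (disjointness) and the choice of the parameters.
-/

open Finset

set_option linter.unusedSectionVars false
set_option linter.unusedVariables false
set_option linter.unusedSimpArgs false

namespace H644R2.SIJ

section single

variable {I : Type} [Fintype I] [DecidableEq I]

lemma mn_sg_bound {J : Finset I} {i : I} (hi : i ∉ J) (g : (I → Bool) → ℝ) (hg : ∀ x, 0 ≤ g x)
    (hD : D J i g ≤ 1 / 30000 * mn g) : |mn (fun y => g y * sg (y i))| ≤ 1 / 100 * mn g := by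
  have h1 : mn (fun y => g y * sg (y i)) = mn (fun y => g y * bias J i g y) := by
    have e1 := mn_sign_mul hi g (fun _ => 1) (fun _ _ => rfl)
    have e2 := mn_bias_mul hi g (fun _ => 1) hg (fun _ _ => rfl)
    simp only [mul_one] at e1 e2
    rw [e1, e2]
  have h2 := mn_bias_sq hi g hg
  have h3 : mn (fun y => g y * bias J i g y) ≤ 1 / 200 * mn g + 50 * D J i g := by
    rw [← h2, ← mn_mul_left, ← mn_mul_left, ← mn_add]
    refine mn_mono fun y => ?_
    nlinarith [mul_nonneg (hg y) (sq_nonneg (bias J i g y - 1 / 100))]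
  have h4 : -(1 / 200 * mn g + 50 * D J i g) ≤ mn (fun y => g y * bias J i g y) := by
    rw [← h2, ← mn_mul_left, ← mn_mul_left, ← mn_add, ← mn_neg]
    refine mn_mono fun y => ?_
    nlinarith [mul_nonneg (hg y) (sq_nonneg (bias J i g y + 1 / 100))]
  rw [h1, abs_le]
  have h5 := mn_nonneg hg
  constructor <;> linarith

lemma mn_half {J : Finset I} {i : I} (hi : i ∉ J) (g : (I → Bool) → ℝ) (hg : ∀ x, 0 ≤ g x)
    (hD : D J i g ≤ 1 / 30000 * mn g) (b : Bool) :
    99 / 200 * mn g ≤ mn (fun y => g y * (if y i = b then 1 else 0)) := by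
  have h1 := abs_le.1 (mn_sg_bound hi g hg hD)
  have h2 : ∀ y, g y * (if y i = b then (1 : ℝ) else 0) =
      1 / 2 * g y + (sg b / 2) * (g y * sg (y i)) := by
    intro y
    cases b <;> cases y i <;> simp <;> ring
  rw [mn_congr h2, mn_add, mn_mul_left, mn_mul_left]
  cases b
  · simp only [sg_false]; linarith [h1.2]
  · simp only [sg_true]; linarith [h1.1]

open Classical in
lemma single {E : ℕ} (hE : E = 1) {q : Fin E → I} {r r' : I → ℕ} (f g : (I → Bool) → ℝ)
    (hf : ∀ x, 0 ≤ f x) (hg : ∀ y, 0 ≤ g y) (hfm : 0 < mn f) (hgm : 0 < mn g)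
    (hDf : ∑ k, D (pre r univ (q k)) (q k) f ≤ 1 / 30000 * E * mn f)
    (hDg : ∑ k, D (pre r' univ (q k)) (q k) g ≤ 1 / 30000 * E * mn g)
    (τ : (I → Bool) → ℝ)
    (hbad : mn (fun x => f x * mn (fun y => g y * (if Bd q τ (1 / 4) x y then (1 : ℝ) else 0))) ≤
      1 / 10000 * (mn f * mn g)) : False := by
  subst hE
  simp only [univ_unique, Fin.default_eq_zero, sum_singleton, Nat.cast_one, mul_one] at hDf hDg
  set i := q 0 with hi
  have hcom : ∀ x y, (com q x y : ℝ) = if x i = true ∧ y i = true then 1 else 0 := by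
    intro x y
    unfold com
    have : ({k : Fin 1 | x (q k) = true ∧ y (q k) = true} : Finset (Fin 1)) =
        if x i = true ∧ y i = true then univ else ∅ := by
      ext k
      have hk : k = 0 := Subsingleton.elim _ _
      subst hk
      split_ifs with h <;> simp_all
    rw [this]
    split_ifs <;> simp
  have hg1 := fun b => mn_half (not_mem_pre r' univ i) g hg hDg b
  have hf1 := mn_half (not_mem_pre r univ i) f hf hDf true
  have h1 : ∀ x, f x * ((if x i = true then 1 else 0) * (99 / 200 * mn g)) ≤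
      f x * mn (fun y => g y * (if Bd q τ (1 / 4) x y then (1 : ℝ) else 0)) := by
    intro x
    refine mul_le_mul_of_nonneg_left ?_ (hf x)
    by_cases hx : x i = true
    · rw [if_pos hx, one_mul]
      by_cases ht : |(1 : ℝ) - τ x| ≤ 1 / 4
      · refine (hg1 false).trans (mn_mono fun y => mul_le_mul_of_nonneg_left ?_ (hg y))
        by_cases hy : y i = false
        · rw [if_pos hy, if_pos]
          unfold Bd
          rw [hcom, if_neg (by simp [hy])]
          intro h2
          rw [abs_le] at ht h2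
          linarith [ht.2, h2.1]
        · rw [if_neg hy]; split_ifs <;> norm_num
      · refine (hg1 true).trans (mn_mono fun y => mul_le_mul_of_nonneg_left ?_ (hg y))
        by_cases hy : y i = true
        · rw [if_pos hy, if_pos]
          unfold Bd
          rw [hcom, if_pos ⟨hx, hy⟩]
          exact ht
        · rw [if_neg hy]; split_ifs <;> norm_num
    · rw [if_neg hx, zero_mul]
      exact mn_nonneg fun y => mul_nonneg (hg y) (by split_ifs <;> norm_num)
  have h2 := (mn_mono h1).trans hbad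
  have h3 : mn (fun x => f x * ((if x i = true then 1 else 0) * (99 / 200 * mn g))) =
      mn (fun x => f x * (if x i = true then 1 else 0)) * (99 / 200 * mn g) := by
    rw [← mn_mul_right]
    exact mn_congr fun x => by ring
  rw [h3] at h2
  have h4 : 99 / 200 * mn f * (99 / 200 * mn g) ≤
      mn (fun x => f x * (if x i = true then 1 else 0)) * (99 / 200 * mn g) :=
    mul_le_mul_of_nonneg_right hf1 (by positivity)
  have h5 : 0 < mn f * mn g := mul_pos hfm hgm
  nlinarith

end single

/-- linear lower bound for every accuracy -/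
theorem lb_disj {δ : ℝ} (hδ0 : 0 < δ) (hδ : δ < 1 / 2) : ∃ c : ℝ, 0 < c ∧
    ∀ n : ℕ, 1 ≤ n → ∀ ε : ℝ, 0 < ε → ε ≤ 1 →
      ∀ C : ℕ, PublicCost (BMat n) (BMat n) (Approx n ε) δ C → c * n ≤ C := by
  classical
  obtain ⟨m, hm⟩ : ∃ m : ℕ, (4 * δ * (1 - δ)) ^ m < 1 / 20000 :=
    exists_pow_lt_of_lt_one (by norm_num) (by nlinarith [sq_nonneg (1 - 2 * δ)])
  refine ⟨1 / (38400000 * (2 * (m + 1))), by positivity, ?_⟩
  intro n hn ε hε hε1 C hC
  obtain ⟨h, hh1, hh2⟩ : ∃ h : ℕ, 2 * h + 1 ≤ n ∧ n ≤ 2 * (h + 1) :=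
    ⟨(n - 1) / 2, by omega, by omega⟩
  obtain ⟨ι⟩ : Nonempty (Fin 1 × (Fin (2 * h + 1) ⊕ (Fin 0 × Bool)) ↪ Fin n) := by
    apply Function.Embedding.nonempty_of_card_le
    simp only [Fintype.card_prod, Fintype.card_sum, Fintype.card_fin, Fintype.card_bool]
    omega
  obtain ⟨code⟩ : Nonempty (Fin 1 ↪ (Fin 0 → Bool)) := by
    apply Function.Embedding.nonempty_of_card_le
    simp
  set S : Fin 1 → ℕ := fun _ => 0 with hSdef
  have hS : ∀ a, S a < 1 := fun _ => by simp [hSdef]
  have hinj : Function.Injective S := fun a b _ => Subsingleton.elim _ _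
  have hap : ∀ a b c : Fin 1, S a + S c = 2 * S b → a = b := fun a b _ _ => Subsingleton.elim _ _
  have h3 : 3 * 1 ≤ n + 2 := by omega
  set u : Sg (1 * 1) h × ((Ix (1 * 1) h → Bool) × (Ix (1 * 1) h → Bool)) → BMat n :=
    fun z => mkA S ι code (maskA z.1 z.2.1) with hu
  set v : Sg (1 * 1) h × ((Ix (1 * 1) h → Bool) × (Ix (1 * 1) h → Bool)) → BMat n :=
    fun z => mkB S ι code (maskB z.1 z.2.2) with hv
  obtain ⟨L, iL, A, B, out, hcard, hpart, herr⟩ := dist_of_public
    (lo := fun A B : BMat n => (supp A B : ℝ) / (1 + ε))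
    (hi := fun A B : BMat n => (1 + ε) * (supp A B : ℝ)) hδ0 hδ hC (m + 1) u v
  have hpm : (4 * δ * (1 - δ)) ^ (m + 1) ≤ 1 / 20000 := by
    refine le_trans ?_ hm.le
    refine pow_le_pow_of_le_one (mul_nonneg (by linarith) (by linarith)) ?_ (Nat.le_succ m)
    nlinarith [sq_nonneg (1 - 2 * δ)]
  by_contra hcon
  push Not at hcon
  have hlog : Real.log (Fintype.card L) ≤ ((1 * 1 : ℕ) : ℝ) * (h + 1) / 19200000 := by
    have hLpos : (0 : ℝ) < Fintype.card L := by
      have : Nonempty L := by
        by_contra hne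
        rw [not_nonempty_iff] at hne
        have := hpart (fun _ _ => false) (fun _ _ => false)
        simp at this
      exact_mod_cast Fintype.card_pos
    have h1 : (Fintype.card L : ℝ) ≤ 2 ^ (2 * (m + 1) * C) := by exact_mod_cast hcard
    have h2 := Real.log_le_log hLpos h1
    rw [Real.log_pow] at h2
    have h4 : Real.log 2 ≤ 1 := by
      have := Real.log_two_lt_d9; linarith
    have h5 : ((2 * (m + 1) * C : ℕ) : ℝ) * Real.log 2 ≤ ((2 * (m + 1) * C : ℕ) : ℝ) :=
      mul_le_of_le_one_right (by positivity) h4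
    refine h2.trans (h5.trans ?_)
    push_cast
    have h6 := mul_le_mul_of_nonneg_left hcon.le (show (0 : ℝ) ≤ 2 * (m + 1) by positivity)
    have h7 : (n : ℝ) ≤ 2 * (h + 1) := by exact_mod_cast hh2
    refine h6.trans ?_
    have h8 : 2 * ((m : ℝ) + 1) * (1 / (38400000 * (2 * (m + 1))) * n) = n / 38400000 := by
      field_simp
    rw [h8]
    linarith
  obtain ⟨σ, l, h1, h2, h4, h5, h6⟩ := select (fun l x => A l (mkA S ι code x))
    (fun l y => B l (mkB S ι code y)) (by norm_num : 0 < 1 * 1)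
    (fun x y => hpart _ _)
    (fun l x => if 1 / 2 ≤ out l (mkA S ι code x) then 1 else 0) (1 / 4) rk_inj rk_inj hlog (by
      refine le_trans ?_ (herr.trans hpm)
      rw [mn_prod]
      refine mn_mono fun σ => ?_
      rw [mn_prod]
      refine mn_mono fun x => mn_mono fun y => ?_
      refine sum_le_sum fun l _ => ?_
      unfold fA fB
      refine mul_le_mul_of_nonneg_left ?_ (mul_nonneg (by split_ifs <;> norm_num)
        (by split_ifs <;> norm_num))
      simp only [hu, hv]
      set z := out l (mkA S ι code (maskA σ x)) with hz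
      have hN := supp_mk S ι code hS h3 hinj hap (maskA σ x) (maskB σ y)
      rw [com_mask] at hN
      have hT0 : #(T0 n 1 S) = 0 := by
        rw [card_eq_zero]
        unfold T0
        rw [filter_eq_empty_iff]
        rintro p _ ⟨e, a, a', haa, _⟩
        exact haa (Subsingleton.elim _ _)
      rw [hT0, zero_add] at hN
      set N := supp (mkA S ι code (maskA σ x)) (mkB S ι code (maskB σ y)) with hNdef
      have hN1 : N ≤ 1 := by
        rw [hN]
        unfold com
        refine (card_filter_le _ _).trans ?_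
        simp
      by_cases hg : (N : ℝ) / (1 + ε) ≤ z ∧ z ≤ (1 + ε) * N
      · rw [if_pos hg, if_neg]
        unfold Bd
        rw [not_not]
        have hNr : (N : ℝ) = com (qs σ) x y := by exact_mod_cast hN
        rw [← hNr]
        rcases Nat.eq_zero_or_pos N with h0 | h0
        · rw [h0] at hg ⊢
          have : ¬ (1 / 2 ≤ z) := by
            have := hg.2
            simp only [Nat.cast_zero, mul_zero] at this
            linarith
          show |((0 : ℕ) : ℝ) - (if 1 / 2 ≤ z then 1 else 0)| ≤ 1 / 4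
          rw [if_neg this]
          norm_num
        · have h7 : N = 1 := by omega
          rw [h7] at hg ⊢
          have : 1 / 2 ≤ z := by
            refine le_trans ?_ hg.1
            rw [Nat.cast_one]
            exact one_div_le_one_div_of_le (by linarith) (by linarith)
          show |((1 : ℕ) : ℝ) - (if 1 / 2 ≤ z then 1 else 0)| ≤ 1 / 4
          rw [if_pos this]
          norm_num
      · rw [if_neg hg]
        split_ifs <;> norm_num)
  exact single (by norm_num) _ _ (fA_nonneg _ σ l) (fB_nonneg _ σ l) h1 h2 h4 h5 _ h6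


/-- The lower bound. -/
theorem lower {δ : ℝ} (hδ0 : 0 < δ) (hδ : δ < 1 / 2) : ∃ c : ℝ, 0 < c ∧
    ∀ n : ℕ, 1 ≤ n → ∀ ε : ℝ, 0 < ε → ε ≤ 1 →
      ∀ C : ℕ, PublicCost (BMat n) (BMat n) (Approx n ε) δ C →
        c * (n * min (1 / ε) n * Real.exp (-6 * √(Real.log (min (1 / ε) n)))) ≤ C := by
  obtain ⟨c1, hc1, h1⟩ := lb_disj hδ0 hδ
  obtain ⟨c2, hc2, h2⟩ := lb_core hδ0 hδ
  refine ⟨min (c1 / 19200) (c2 / 768), lt_min (by positivity) (by positivity), ?_⟩
  intro n hn ε hε hε1 C hC
  set M : ℝ := min (1 / ε) n with hM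
  have hn1 : (1 : ℝ) ≤ n := by exact_mod_cast hn
  have hM1 : 1 ≤ M := by
    rw [hM]
    refine le_min ?_ hn1
    rw [le_div_iff₀ hε]; linarith
  have hMn : M ≤ n := min_le_right _ _
  have hMε : ε * M ≤ 1 := by
    have : M ≤ 1 / ε := min_le_left _ _
    rw [le_div_iff₀ hε] at this
    linarith
  have hM0 : 0 < M := by linarith
  set y : ℝ := √(Real.log M) with hy
  have hy0 : 0 ≤ y := Real.sqrt_nonneg _
  have hy2 : y ^ 2 = Real.log M := Real.sq_sqrt (Real.log_nonneg hM1)
  set T : ℝ := Real.exp (-2 * y) with hT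
  have hT0 : 0 < T := Real.exp_pos _
  have hT1 : T ≤ 1 := by
    rw [hT, Real.exp_le_one_iff]; linarith
  have hT3 : Real.exp (-6 * y) = T ^ 3 := by
    rw [hT, ← Real.exp_nat_mul]
    congr 1
    push_cast
    ring
  rw [hT3]
  rcases lt_or_ge (T * M / 96) 200 with hR | hR
  · -- constant accuracy
    have h3 := h1 n hn ε hε hε1 C hC
    refine le_trans ?_ h3
    have h4 : (n : ℝ) * M * T ^ 3 ≤ 19200 * n := by
      have h5 : T * M ≤ 19200 := by
        have : T * M / 96 < 200 := hR
        rw [div_lt_iff₀ (by norm_num)] at this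
        linarith
      have h6 : T ^ 2 ≤ 1 := pow_le_one₀ hT0.le hT1
      calc (n : ℝ) * M * T ^ 3 = (n : ℝ) * ((T * M) * T ^ 2) := by ring
        _ ≤ (n : ℝ) * (19200 * 1) := by
          refine mul_le_mul_of_nonneg_left ?_ (by positivity)
          exact mul_le_mul h5 h6 (by positivity) (by norm_num)
        _ = 19200 * (n : ℝ) := by ring
    calc min (c1 / 19200) (c2 / 768) * ((n : ℝ) * M * T ^ 3)
        ≤ c1 / 19200 * (19200 * (n : ℝ)) :=
          mul_le_mul (min_le_left _ _) h4 (by positivity) (by positivity)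
      _ = c1 * (n : ℝ) := by ring
  · set R : ℝ := T * M / 96 with hRdef
    set Q : ℕ := ⌊R⌋₊ with hQ
    have hQ200 : 200 ≤ Q := Nat.le_floor (by exact_mod_cast hR)
    have hQR : (Q : ℝ) ≤ R := Nat.floor_le (by linarith)
    have hQR2 : R / 2 ≤ Q := by
      have := Nat.lt_floor_add_one R
      rw [← hQ] at this
      linarith
    have hQ0 : (0 : ℝ) < Q := by
      have : (200 : ℝ) ≤ Q := by exact_mod_cast hQ200
      linarith
    have hQ1 : 1 ≤ Q := by omega
    have hQM : (Q : ℝ) ≤ M := by
      refine hQR.trans ?_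
      rw [hRdef]
      nlinarith
    have hTM : T * M ≤ T * n := mul_le_mul_of_nonneg_left hMn hT0.le
    -- the AP-free set
    obtain ⟨t, htQ, htc, htf⟩ := rothNumberNat_spec Q
    set s : ℕ := #t with hs
    have hroth : (Q : ℝ) * T ^ 2 ≤ s := by
      have h3 := Behrend.roth_lower_bound (N := Q)
      rw [← htc] at h3
      refine le_trans ?_ h3
      refine mul_le_mul_of_nonneg_left ?_ (by positivity)
      rw [hT, ← Real.exp_nat_mul]
      apply Real.exp_le_exp.2
      have h4 : √(Real.log Q) ≤ y := by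
        rw [hy]
        apply Real.sqrt_le_sqrt
        exact Real.log_le_log hQ0 hQM
      push_cast
      linarith
    have hs0 : 0 < s := by
      have : (0 : ℝ) < s := lt_of_lt_of_le (by positivity) hroth
      exact_mod_cast this
    have hsQ : s ≤ Q := by
      have := card_le_card htQ
      rw [card_range] at this
      exact this
    set S : Fin s → ℕ := fun a => t.orderEmbOfFin hs.symm a with hS
    have hSt : ∀ a, S a ∈ t := fun a => t.orderEmbOfFin_mem _ a
    have hSinj : Function.Injective S := (t.orderEmbOfFin hs.symm).injective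
    have hSQ : ∀ a, S a < Q := fun a => mem_range.1 (htQ (hSt a))
    have hap : ∀ a b c, S a + S c = 2 * S b → a = b := by
      intro a b c h
      apply hSinj
      exact htf (hSt a) (hSt b) (hSt c) (by omega)
    set b : ℕ := Nat.log 2 Q + 1 with hb
    have hsb : s ≤ 2 ^ b := hsQ.trans (Nat.lt_pow_succ_log_self (by norm_num) Q).le
    have hbr : (b : ℝ) ≤ 3 / 2 * y ^ 2 + 1 := by
      have h3 : (2 : ℕ) ^ Nat.log 2 Q ≤ Q := Nat.pow_log_le_self 2 (by omega)
      have h4 : ((2 : ℝ)) ^ Nat.log 2 Q ≤ Q := by exact_mod_cast h3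
      have h5 := Real.log_le_log (by positivity) h4
      rw [Real.log_pow] at h5
      have h6 : Real.log Q ≤ y ^ 2 := by
        rw [hy2]; exact Real.log_le_log hQ0 hQM
      have h7 := Real.log_two_gt_d9
      have h8 : (0 : ℝ) ≤ Nat.log 2 Q := Nat.cast_nonneg _
      rw [hb]
      push_cast
      nlinarith
    set h : ℕ := n / (4 * Q) with hh
    have hh1 : 4 * Q * h ≤ n := Nat.mul_div_le n (4 * Q)
    have hh2 : n < 4 * Q * (h + 1) := Nat.lt_mul_div_succ n (by omega)
    have hh1' : 4 * (Q : ℝ) * h ≤ n := by exact_mod_cast hh1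
    have hh2' : (n : ℝ) < 4 * Q * (h + 1) := by exact_mod_cast hh2
    have hexp : T * (1 + y ^ 2) ≤ 1 := by
      have h3 : 1 + y ^ 2 ≤ Real.exp (2 * y) := by
        have := Real.quadratic_le_exp_of_nonneg (x := 2 * y) (by linarith)
        nlinarith
      have h4 : T * Real.exp (2 * y) = 1 := by
        rw [hT, ← Real.exp_add]
        simp
      calc T * (1 + y ^ 2) ≤ T * Real.exp (2 * y) := mul_le_mul_of_nonneg_left h3 hT0.le
        _ = 1 := h4
    have hU : Q * (2 * h + 1 + 2 * b) ≤ n := by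
      have h3 : (Q : ℝ) * (2 * h + 1 + 2 * b) ≤ n := by
        have h4 : (Q : ℝ) * (1 + 2 * b) ≤ n / 2 := by
          have h5 : (Q : ℝ) * (1 + 2 * b) ≤ (T * n / 96) * (3 * (1 + y ^ 2)) := by
            refine mul_le_mul ?_ (by linarith) (by positivity) (by positivity)
            refine hQR.trans ?_
            rw [hRdef]
            linarith
          have h6 : (T * n / 96) * (3 * (1 + y ^ 2)) = n / 32 * (T * (1 + y ^ 2)) := by ring
          have h7 : (n : ℝ) / 32 * (T * (1 + y ^ 2)) ≤ n / 32 * 1 :=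
            mul_le_mul_of_nonneg_left hexp (by positivity)
          linarith
        nlinarith
      exact_mod_cast h3
    have h3Q : 3 * Q ≤ n + 2 := by
      have h4 : (3 : ℝ) * Q ≤ n := by
        have : R ≤ n / 96 := by
          rw [hRdef]
          nlinarith
        linarith
      have h5 : 3 * Q ≤ n := by exact_mod_cast h4
      omega
    have hE : 200 ≤ Q * s := by nlinarith
    have hεQ : 9216 * ε ^ 2 * (Q : ℝ) ^ 3 ≤ s := by
      have h4 : 96 * (ε * Q) ≤ T := by
        have h5 : ε * Q ≤ ε * (T * M / 96) := mul_le_mul_of_nonneg_left hQR hε.le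
        have h6 : ε * (T * M / 96) = T * (ε * M) / 96 := by ring
        have h7 : T * (ε * M) ≤ T * 1 := mul_le_mul_of_nonneg_left hMε hT0.le
        linarith
      have h5 : (96 * (ε * Q)) ^ 2 ≤ T ^ 2 := pow_le_pow_left₀ (by positivity) h4 2
      calc 9216 * ε ^ 2 * (Q : ℝ) ^ 3 = Q * (96 * (ε * Q)) ^ 2 := by ring
        _ ≤ Q * T ^ 2 := mul_le_mul_of_nonneg_left h5 hQ0.le
        _ ≤ s := hroth
    have h3 := h2 n Q s h b S hSQ hSinj hap hsb hU h3Q hE ε hε hεQ C hC
    refine le_trans ?_ h3
    have h4 : (n : ℝ) * M * T ^ 3 ≤ 768 * (Q * s * (h + 1)) := by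
      have h5 : (n : ℝ) ≤ 4 * Q * (h + 1) := hh2'.le
      have h6 : T * M ≤ 192 * Q := by
        have : R / 2 ≤ Q := hQR2
        rw [hRdef] at this
        linarith
      calc (n : ℝ) * M * T ^ 3 = (n : ℝ) * ((T * M) * T ^ 2) := by ring
        _ ≤ (n : ℝ) * ((192 * (Q : ℝ)) * T ^ 2) := by gcongr
        _ = 192 * ((n : ℝ) * ((Q : ℝ) * T ^ 2)) := by ring
        _ ≤ 192 * ((4 * (Q : ℝ) * ((h : ℝ) + 1)) * (s : ℝ)) := by
          refine mul_le_mul_of_nonneg_left ?_ (by norm_num)
          exact mul_le_mul h5 hroth (by positivity) (by positivity)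
        _ = 768 * ((Q : ℝ) * s * (h + 1)) := by ring
    calc min (c1 / 19200) (c2 / 768) * ((n : ℝ) * M * T ^ 3)
        ≤ c2 / 768 * (768 * ((Q : ℝ) * s * (h + 1))) :=
          mul_le_mul (min_le_right _ _) h4 (by positivity) (by positivity)
      _ = c2 * ((Q : ℝ) * s * (h + 1)) := by ring

end H644R2.SIJ
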