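import Pool.Agent.H644R2.SIJ.UBFinal
import Pool.Agent.H644R2.SIJ.Low

/-!
Private coins are weaker than public coins; the complexity measures are well defined.
-/

open Finset

set_option linter.unusedSectionVars false
set_option linter.unusedVariables false
set_option linter.unusedSimpArgs false

namespace H644R2.SIJ

/-- change of inputs -/
def Tree.comap {X Y X' Y' : Type} (f : X → X') (g : Y → Y') : Tree X' Y' → Tree X Y
  | .out z => .out (fun x => z (f x))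
  | .alice b t u => .alice (fun x => b (f x)) (Tree.comap f g t) (Tree.comap f g u)
  | .bob b t u => .bob (fun y => b (g y)) (Tree.comap f g t) (Tree.comap f g u)

lemma Tree.comap_cost {X Y X' Y' : Type} (f : X → X') (g : Y → Y') : ∀ T : Tree X' Y',
    (T.comap f g).cost = T.cost
  | .out z => rfl
  | .alice b t u => by
    rw [Tree.comap, Tree.cost, Tree.cost, Tree.comap_cost f g t, Tree.comap_cost f g u]
  | .bob b t u => by
    rw [Tree.comap, Tree.cost, Tree.cost, Tree.comap_cost f g t, Tree.comap_cost f g u]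

lemma Tree.comap_run {X Y X' Y' : Type} (f : X → X') (g : Y → Y') : ∀ (T : Tree X' Y') (x : X)
    (y : Y), (T.comap f g).run x y = T.run (f x) (g y)
  | .out z, x, y => rfl
  | .alice b t u, x, y => by
    rw [Tree.comap, Tree.run, Tree.run, Tree.comap_run f g t, Tree.comap_run f g u]
  | .bob b t u, x, y => by
    rw [Tree.comap, Tree.run, Tree.run, Tree.comap_run f g t, Tree.comap_run f g u]

/-- product of distributions -/
noncomputable def Dist.prod {ΩA ΩB : Type} [Fintype ΩA] [Fintype ΩB] (DA : Dist ΩA)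
    (DB : Dist ΩB) : Dist (ΩA × ΩB) where
  prob ω := DA.prob ω.1 * DB.prob ω.2
  nonneg ω := mul_nonneg (DA.nonneg _) (DB.nonneg _)
  total := by
    rw [Fintype.sum_prod_type]
    simp only [← mul_sum, DB.total, mul_one, DA.total]

theorem public_of_private {X Y : Type} {Good : X → Y → ℝ → Prop} {δ : ℝ} {C : ℕ}
    (h : PrivateCost X Y Good δ C) : PublicCost X Y Good δ C := by
  obtain ⟨ΩA, ΩB, iA, iB, DA, DB, T, h1, h2, h3⟩ := h
  refine ⟨ΩA × ΩB, inferInstance, DA.prod DB,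
    fun ω => T.comap (fun x => (x, ω.1)) (fun y => (y, ω.2)), ?_, ?_⟩
  · intro ω
    rw [Tree.comap_cost]
    exact h1
  · intro x y Bad hBad
    refine h3 x y Bad ?_
    intro ω hω
    have := hBad ω hω
    rwa [Tree.comap_run] at this

theorem Rpub_le_Rpriv {δ : ℝ} (hδ : 0 < δ) {n : ℕ} (hn : 1 ≤ n) {ε : ℝ} (hε : 0 < ε)
    (hε1 : ε ≤ 1) : Rpub δ n ε ≤ Rpriv δ n ε := by
  obtain ⟨C, -, h⟩ := upper δ hδ
  obtain ⟨c, hc, -⟩ := h n hn ε hε hε1
  have h1 : Rpriv δ n ε ∈ {C : ℕ | PrivateCost (BMat n) (BMat n) (Approx n ε) δ C} :=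
    Nat.sInf_mem ⟨c, hc⟩
  exact Nat.sInf_le (public_of_private h1)

theorem final {δ : ℝ} (hδ : 0 < δ) (hδ2 : δ < 1 / 2) :
    ∃ c C : ℝ, 0 < c ∧ 0 < C ∧ ∀ n : ℕ, 1 ≤ n → ∀ ε : ℝ, 0 < ε → ε ≤ 1 →
      c * (n * min (1 / ε) n * Real.exp (-6 * √(Real.log (min (1 / ε) n)))) ≤ Rpub δ n ε ∧
      Rpub δ n ε ≤ Rpriv δ n ε ∧
      (Rpriv δ n ε : ℝ) ≤ C * (n * min (1 / ε) n * (1 + Real.log n) ^ 2) := by
  obtain ⟨c, hc, hlow⟩ := lower hδ hδ2
  obtain ⟨C, hC, hup⟩ := upper δ hδ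
  refine ⟨c, C, hc, hC, ?_⟩
  intro n hn ε hε hε1
  obtain ⟨k, hk, hkC⟩ := hup n hn ε hε hε1
  refine ⟨?_, Rpub_le_Rpriv hδ hn hε hε1, ?_⟩
  · have h1 : Rpub δ n ε ∈ {C : ℕ | PublicCost (BMat n) (BMat n) (Approx n ε) δ C} :=
      Nat.sInf_mem ⟨k, public_of_private hk⟩
    exact hlow n hn ε hε hε1 _ h1
  · have h1 : Rpriv δ n ε ≤ k := Nat.sInf_le hk
    have h2 : (Rpriv δ n ε : ℝ) ≤ k := by exact_mod_cast h1
    refine (h2.trans hkC).trans (le_of_eq ?_)
    ring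

end H644R2.SIJ
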