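import Pool.Agent.H644R2.SIJ.Cut

/-!
Hiding the special coordinates.
-/

open Finset

set_option linter.unusedSectionVars false
set_option linter.unusedVariables false
set_option linter.unusedSimpArgs false

namespace H644R2.SIJ

variable {E h : ℕ}

/-- the index set of `E` blocks of `2h+1` coordinates -/
abbrev Ix (E h : ℕ) : Type := Fin E × Fin (2 * h + 1)

/-- the middle position -/
def mid (h : ℕ) : Fin (2 * h + 1) := ⟨h, by omega⟩

/-- a permutation of the positions of every block -/
abbrev Sg (E h : ℕ) : Type := Fin E → Equiv.Perm (Fin (2 * h + 1))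

/-- the special coordinates -/
def qs (σ : Sg E h) (k : Fin E) : Ix E h := (k, σ k (mid h))

lemma qs_inj (σ : Sg E h) : Function.Injective (qs σ) := fun a b hab => (Prod.ext_iff.1 hab).1

/-- Alice's part of the coordinates -/
def maskA (σ : Sg E h) (x : Ix E h → Bool) : Ix E h → Bool :=
  fun i => decide ((σ i.1).symm i.2 ≤ mid h) && x i

/-- Bob's part of the coordinates -/
def maskB (σ : Sg E h) (x : Ix E h → Bool) : Ix E h → Bool :=
  fun i => decide (mid h ≤ (σ i.1).symm i.2) && x i

/-- Bob's part of the coordinates without the special coordinate of block `k` -/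
def mask0 (σ : Sg E h) (k : Fin E) (x : Ix E h → Bool) : Ix E h → Bool :=
  fun i => (if i.1 = k then decide (mid h < (σ i.1).symm i.2) else
    decide (mid h ≤ (σ i.1).symm i.2)) && x i

lemma maskB_update (σ : Sg E h) (k : Fin E) (y : Ix E h → Bool) :
    maskB σ (Function.update y (qs σ k) false) = mask0 σ k y := by
  funext i
  rcases i with ⟨j, l⟩
  unfold maskB mask0 qs
  by_cases hj : j = k
  · subst hj
    by_cases hl : l = σ j (mid h)
    · subst hl
      simp
    · have h1 : ((j, l) : Ix E h) ≠ (j, σ j (mid h)) := fun h => hl (Prod.ext_iff.1 h).2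
      rw [Function.update_of_ne h1]
      have h2 : (σ j).symm l ≠ mid h := fun h => hl (by rw [← h]; simp)
      have h3 : (mid h ≤ (σ j).symm l) ↔ (mid h < (σ j).symm l) :=
        ⟨fun h4 => lt_of_le_of_ne h4 h2.symm, le_of_lt⟩
      simp [h3]
  · have h1 : ((j, l) : Ix E h) ≠ (k, σ k (mid h)) := fun h => hj (Prod.ext_iff.1 h).1
    rw [Function.update_of_ne h1]
    simp [hj]

/-- move the special coordinate of block `k` to position `i` -/
def mv' (σ : Sg E h) (k : Fin E) (i : Fin (2 * h + 1)) : Sg E h :=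
  Function.update σ k (σ k * Equiv.swap i (mid h))

lemma mv'_symm_same (σ : Sg E h) (k : Fin E) (i l : Fin (2 * h + 1)) :
    (mv' σ k i k).symm l = Equiv.swap i (mid h) ((σ k).symm l) := by
  unfold mv'
  rw [Function.update_self]
  rfl

lemma mv'_ne (σ : Sg E h) {k j : Fin E} (hj : j ≠ k) (i : Fin (2 * h + 1)) :
    mv' σ k i j = σ j := Function.update_of_ne hj _ _

lemma swap_le_iff {i m : Fin (2 * h + 1)} (hi : i ≤ m) (a : Fin (2 * h + 1)) :
    Equiv.swap i m a ≤ m ↔ a ≤ m := by
  by_cases h1 : a = i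
  · subst h1; simp [hi]
  · by_cases h2 : a = m
    · subst h2; simp [hi]
    · rw [Equiv.swap_apply_of_ne_of_ne h1 h2]

lemma lt_swap_iff {i m : Fin (2 * h + 1)} (hi : i ≤ m) (a : Fin (2 * h + 1)) :
    m < Equiv.swap i m a ↔ m < a := by
  rw [← not_le, ← not_le, swap_le_iff hi]

lemma maskA_mv' (σ : Sg E h) (k : Fin E) {i : Fin (2 * h + 1)} (hi : i ≤ mid h)
    (x : Ix E h → Bool) : maskA (mv' σ k i) x = maskA σ x := by
  funext a
  rcases a with ⟨j, l⟩
  unfold maskA
  by_cases hj : j = k
  · subst hj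
    simp only [mv'_symm_same, swap_le_iff hi]
  · simp only [mv'_ne σ hj]

lemma mask0_mv' (σ : Sg E h) (k : Fin E) {i : Fin (2 * h + 1)} (hi : i ≤ mid h)
    (x : Ix E h → Bool) : mask0 (mv' σ k i) k x = mask0 σ k x := by
  funext a
  rcases a with ⟨j, l⟩
  unfold mask0
  by_cases hj : j = k
  · subst hj
    simp only [mv'_symm_same, lt_swap_iff hi, if_true]
  · simp only [mv'_ne σ hj]

lemma qs_mv' (σ : Sg E h) (k : Fin E) (i : Fin (2 * h + 1)) :
    qs (mv' σ k i) k = (k, σ k i) := by
  unfold qs mv'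
  rw [Function.update_self]
  simp

lemma mn_mv' (F : Sg E h → ℝ) (k : Fin E) (i : Fin (2 * h + 1)) :
    mn (fun σ => F (mv' σ k i)) = mn F := by
  rw [← mn_update k F, ← mn_update k (fun σ => F (mv' σ k i))]
  refine mn_congr fun σ => ?_
  have := mn_equiv (Equiv.mulRight (Equiv.swap i (mid h)))
    (fun τ : Equiv.Perm (Fin (2 * h + 1)) => F (Function.update σ k τ))
  rw [← this]
  refine mn_congr fun τ => ?_
  congr 1
  unfold mv'
  rw [Function.update_idem, Function.update_self]
  rfl

section hide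

variable {L : Type} [Fintype L] (A B : L → (Ix E h → Bool) → Bool)

/-- the rectangles seen from the full cube -/
def fA (σ : Sg E h) (l : L) (x : Ix E h → Bool) : ℝ := if A l (maskA σ x) then 1 else 0

/-- the rectangles seen from the full cube -/
def fB (σ : Sg E h) (l : L) (y : Ix E h → Bool) : ℝ := if B l (maskB σ y) then 1 else 0

lemma fA_nonneg (σ : Sg E h) (l : L) (x : Ix E h → Bool) : 0 ≤ fA A σ l x := by
  unfold fA; split_ifs <;> norm_num

lemma fB_nonneg (σ : Sg E h) (l : L) (x : Ix E h → Bool) : 0 ≤ fB B σ l x := by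
  unfold fB; split_ifs <;> norm_num

lemma fA_mv' (σ : Sg E h) (k : Fin E) {i : Fin (2 * h + 1)} (hi : i ≤ mid h) (l : L) :
    fA A (mv' σ k i) l = fA A σ l := by
  funext x
  unfold fA
  rw [maskA_mv' σ k hi]

/-- Bob's density with the special coordinate set to zero -/
noncomputable def gB0 (σ : Sg E h) (l : L) (k : Fin E) : ℝ :=
  mn (fun y => fB B σ l (Function.update y (qs σ k) false))

lemma gB0_nonneg (σ : Sg E h) (l : L) (k : Fin E) : 0 ≤ gB0 B σ l k :=
  mn_nonneg fun y => fB_nonneg B _ _ _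

lemma gB0_mv' (σ : Sg E h) (k : Fin E) {i : Fin (2 * h + 1)} (hi : i ≤ mid h) (l : L) :
    gB0 B (mv' σ k i) l k = gB0 B σ l k := by
  unfold gB0 fB
  refine mn_congr fun y => ?_
  rw [maskB_update, maskB_update, mask0_mv' σ k hi]

lemma gB0_le (σ : Sg E h) (l : L) (k : Fin E) : gB0 B σ l k ≤ 2 * mn (fB B σ l) := by
  have h1 := mn_update (qs σ k) (fB B σ l)
  have h2 : ∀ y, mn (fun b => fB B σ l (Function.update y (qs σ k) b)) =
      (fB B σ l (Function.update y (qs σ k) true) +
        fB B σ l (Function.update y (qs σ k) false)) / 2 := fun y => mn_bool _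
  have h3 : ∀ y, fB B σ l (Function.update y (qs σ k) false) ≤
      2 * mn (fun b => fB B σ l (Function.update y (qs σ k) b)) := by
    intro y
    rw [h2]
    have := fB_nonneg B σ l (Function.update y (qs σ k) true)
    linarith
  have h4 := mn_mono h3
  rw [mn_mul_left, h1] at h4
  exact h4

lemma part_mn (hpart : ∀ x y, ∑ l, (if A l x then (1 : ℝ) else 0) * (if B l y then 1 else 0) = 1)
    (σ : Sg E h) (x y : Ix E h → Bool) : ∑ l, fA A σ l x * fB B σ l y = 1 := hpart _ _

lemma part_weights (hpart : ∀ x y, ∑ l, (if A l x then (1 : ℝ) else 0) * (if B l y then 1 else 0) = 1)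
    (σ : Sg E h) : ∑ l, mn (fA A σ l) * mn (fB B σ l) = 1 := by
  have h1 : ∀ l, mn (fA A σ l) * mn (fB B σ l) =
      mn (fun x => mn (fun y => fA A σ l x * fB B σ l y)) := by
    intro l
    rw [← mn_mul_right]
    refine mn_congr fun x => ?_
    rw [← mn_mul_left]
  rw [sum_congr rfl (fun l _ => h1 l), ← GKS.mn_finset_sum]
  have h2 : ∀ x, ∑ l, mn (fun y => fA A σ l x * fB B σ l y) = 1 := by
    intro x
    rw [← GKS.mn_finset_sum, mn_congr (fun y => part_mn A B hpart σ x y), mn_const]
  rw [mn_congr h2, mn_const]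

/-- entropy of the leaf -/
lemma entropy_leaf (a b : L → ℝ) (ha : ∀ l, 0 ≤ a l) (hb : ∀ l, 0 ≤ b l) (ha1 : ∀ l, a l ≤ 1)
    (hb1 : ∀ l, b l ≤ 1) (hab : ∑ l, a l * b l = 1) :
    ∑ l, b l * (- phi (a l)) ≤ Real.log (Fintype.card L) := by
  have hL : (0 : ℝ) < Fintype.card L := by
    have : Nonempty L := by
      by_contra h
      rw [not_nonempty_iff] at h
      simp at hab
    exact_mod_cast Fintype.card_pos
  have key : ∀ l, b l * (- phi (a l)) ≤ a l * b l * Real.log (Fintype.card L) +
      (1 / Fintype.card L - a l * b l) := by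
    intro l
    rcases (mul_nonneg (ha l) (hb l)).eq_or_lt with h | h
    · have h1 : b l * (- phi (a l)) = 0 := by
        unfold phi
        rw [show b l * -(a l * Real.log (a l)) = -((a l * b l) * Real.log (a l)) by ring, ← h]
        simp
      rw [h1, ← h]
      simp
    · have ha' : 0 < a l := lt_of_le_of_ne (ha l) (fun h0 => by rw [← h0] at h; simp at h)
      have hb' : 0 < b l := lt_of_le_of_ne (hb l) (fun h0 => by rw [← h0] at h; simp at h)
      have h1 : Real.log (a l * b l) ≤ Real.log (a l) :=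
        Real.log_le_log h (mul_le_of_le_one_right ha'.le (hb1 l))
      have h2 := Real.log_le_sub_one_of_pos (x := (1 / Fintype.card L) / (a l * b l))
        (by positivity)
      rw [Real.log_div (by positivity) h.ne', one_div, Real.log_inv] at h2
      have h3 := mul_le_mul_of_nonneg_left h2 h.le
      have h4 : a l * b l * ((Fintype.card L : ℝ)⁻¹ / (a l * b l) - 1) =
          (Fintype.card L : ℝ)⁻¹ - a l * b l := by
        field_simp
      rw [h4] at h3
      have h5 := mul_le_mul_of_nonneg_left h1 h.le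
      rw [one_div]
      unfold phi
      nlinarith
  have h1 := sum_le_sum (fun l (_ : l ∈ univ) => key l)
  rw [sum_add_distrib, ← sum_mul, sum_sub_distrib, hab] at h1
  simp only [sum_const, card_univ, nsmul_eq_mul] at h1
  have h2 : (Fintype.card L : ℝ) * (1 / Fintype.card L) = 1 := by field_simp
  rw [h2] at h1
  linarith

/-- the hidden special coordinates carry little information -/
lemma hide (hpart : ∀ x y, ∑ l, (if A l x then (1 : ℝ) else 0) * (if B l y then 1 else 0) = 1)
    {r : Ix E h → ℕ} (hr : Function.Injective r) :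
    mn (fun σ : Sg E h => ∑ k, ∑ l, gB0 B σ l k * D (pre r univ (qs σ k)) (qs σ k) (fA A σ l)) ≤
      8 / (h + 1) * Real.log (Fintype.card L) := by
  set F : Fin E → Sg E h → ℝ := fun k σ =>
    ∑ l, gB0 B σ l k * D (pre r univ (qs σ k)) (qs σ k) (fA A σ l) with hF
  -- one block
  have h1 : ∀ k, ((h : ℝ) + 1) * mn (F k) ≤ mn (fun σ => ∑ l, gB0 B σ l k *
      ∑ i, D (pre r univ (k, i)) (k, i) (fA A σ l)) := by
    intro k
    have h2 : ((h : ℝ) + 1) * mn (F k) =
        ∑ i ∈ Finset.Iic (mid h), mn (fun σ => F k (mv' σ k i)) := by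
      rw [sum_congr rfl (fun i _ => mn_mv' (F k) k i), sum_const, Fin.card_Iic, nsmul_eq_mul]
      simp [mid]
    rw [h2, ← GKS.mn_finset_sum]
    refine mn_mono fun σ => ?_
    have h3 : ∀ i ∈ Finset.Iic (mid h), F k (mv' σ k i) =
        ∑ l, gB0 B σ l k * D (pre r univ (k, σ k i)) (k, σ k i) (fA A σ l) := by
      intro i hi
      rw [mem_Iic] at hi
      simp only [hF]
      refine sum_congr rfl fun l _ => ?_
      rw [gB0_mv' B σ k hi, fA_mv' A σ k hi, qs_mv']
    rw [sum_congr rfl h3, sum_comm]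
    refine sum_le_sum fun l _ => ?_
    rw [← mul_sum]
    refine mul_le_mul_of_nonneg_left ?_ (gB0_nonneg B σ l k)
    have h4 : ∑ i ∈ Finset.Iic (mid h), D (pre r univ (k, σ k i)) (k, σ k i) (fA A σ l) ≤
        ∑ i, D (pre r univ (k, σ k i)) (k, σ k i) (fA A σ l) :=
      sum_le_sum_of_subset_of_nonneg (subset_univ _)
        (fun i _ _ => D_nonneg (fA_nonneg A σ l) _ _)
    refine h4.trans (le_of_eq ?_)
    exact Equiv.sum_comp (σ k) (fun i => D (pre r univ (k, i)) (k, i) (fA A σ l))
  -- all blocks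
  have h2 : ((h : ℝ) + 1) * mn (fun σ => ∑ k, F k σ) ≤
      mn (fun σ : Sg E h => 2 * (4 * ∑ l, mn (fB B σ l) * (- phi (mn (fA A σ l))))) := by
    have e1 : mn (fun σ => ∑ k, F k σ) = ∑ k, mn (F k) := GKS.mn_finset_sum univ F
    rw [e1, mul_sum]
    refine (sum_le_sum fun k _ => h1 k).trans ?_
    rw [← GKS.mn_finset_sum]
    refine mn_mono fun σ => ?_
    have e2 : ∀ k, ∑ l, gB0 B σ l k * ∑ i, D (pre r univ (k, i)) (k, i) (fA A σ l) ≤
        ∑ l, 2 * mn (fB B σ l) * ∑ i, D (pre r univ (k, i)) (k, i) (fA A σ l) := by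
      intro k
      refine sum_le_sum fun l _ => ?_
      exact mul_le_mul_of_nonneg_right (gB0_le B σ l k)
        (sum_nonneg fun i _ => D_nonneg (fA_nonneg A σ l) _ _)
    refine (sum_le_sum fun k _ => e2 k).trans ?_
    rw [sum_comm, mul_sum, mul_sum]
    refine sum_le_sum fun l _ => ?_
    rw [← mul_sum]
    have e3 : ∑ k, ∑ i, D (pre r univ (k, i)) (k, i) (fA A σ l) =
        ∑ i : Ix E h, D (pre r univ i) i (fA A σ l) := by
      rw [Fintype.sum_prod_type]
    rw [e3]
    have e4 := chain_lower hr univ (fA_nonneg A σ l)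
    have e5 : mn (fun x => phi (cav univ (fA A σ l) x)) = 0 := by
      have : ∀ x, phi (cav univ (fA A σ l) x) = 0 := by
        intro x
        rw [cav_univ]
        unfold fA phi
        split_ifs <;> simp
      rw [mn_congr this]
      simp [mn]
    rw [e5] at e4
    have e6 := mn_nonneg (fB_nonneg B σ l)
    nlinarith [mul_le_mul_of_nonneg_left e4 e6]
  have h3 : ∀ σ : Sg E h, 2 * (4 * ∑ l, mn (fB B σ l) * (- phi (mn (fA A σ l)))) ≤
      8 * Real.log (Fintype.card L) := by
    intro σ
    have b1 : ∀ l, mn (fA A σ l) ≤ 1 := by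
      intro l
      have : mn (fA A σ l) ≤ mn (fun _ : Ix E h → Bool => (1 : ℝ)) := mn_mono fun x => by
        unfold fA; split_ifs <;> norm_num
      rwa [mn_const] at this
    have b2 : ∀ l, mn (fB B σ l) ≤ 1 := by
      intro l
      have : mn (fB B σ l) ≤ mn (fun _ : Ix E h → Bool => (1 : ℝ)) := mn_mono fun x => by
        unfold fB; split_ifs <;> norm_num
      rwa [mn_const] at this
    have := entropy_leaf (fun l => mn (fA A σ l)) (fun l => mn (fB B σ l))
      (fun l => mn_nonneg (fA_nonneg A σ l)) (fun l => mn_nonneg (fB_nonneg B σ l)) b1 b2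
      (part_weights A B hpart σ)
    linarith
  have h4 := h2.trans (mn_mono h3)
  rw [mn_const] at h4
  rw [div_mul_eq_mul_div, le_div_iff₀ (by positivity)]
  linarith

end hide

end H644R2.SIJ
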