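import Pool.Agent.H644R2.SIJ.Cav

/-!
Martingale decomposition of the signs of a family of coordinates.
-/

open Finset

set_option linter.unusedSectionVars false
set_option linter.unusedVariables false
set_option linter.unusedSimpArgs false

namespace H644R2.SIJ

variable {I : Type} [Fintype I] [DecidableEq I]

/-- sign of a bit -/
def sg (b : Bool) : ℝ := if b then 1 else -1

@[simp] lemma sg_true : sg true = 1 := rfl
@[simp] lemma sg_false : sg false = -1 := rfl

lemma sg_sq (b : Bool) : sg b ^ 2 = 1 := by cases b <;> simp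

/-- conditional bias of the coordinate `i` given the coordinates in `J` -/
noncomputable def bias (J : Finset I) (i : I) (f : (I → Bool) → ℝ) (x : I → Bool) : ℝ :=
  (cb J i true f x - cb J i false f x) / (2 * cav J f x)

lemma dep_bias (J : Finset I) (i : I) (f : (I → Bool) → ℝ) : Dep J (bias J i f) := by
  intro x x'
  unfold bias
  rw [dep_cb, dep_cb, dep_cav]

lemma bias_mul {J : Finset I} {i : I} (hi : i ∉ J) {f : (I → Bool) → ℝ} (hf : ∀ x, 0 ≤ f x)
    (x : I → Bool) :
    cav J f x * bias J i f x = (cb J i true f x - cb J i false f x) / 2 := by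
  unfold bias
  by_cases h : cav J f x = 0
  · have h2 := cav_eq_zero hf hi h
    rw [h, h2.1, h2.2]; simp
  · field_simp

lemma mn_sign_mul {J : Finset I} {i : I} (hi : i ∉ J) (f g : (I → Bool) → ℝ) (hg : Dep J g) :
    mn (fun x => f x * (sg (x i) * g x)) =
      mn (fun x => (cb J i true f x - cb J i false f x) / 2 * g x) := by
  have hd : Dep (insert i J) (fun x => sg (x i) * g x) := by
    apply dep_of_update
    intro x x' h
    have h1 : x i = x' i := h i (mem_insert_self _ _)
    have h2 : g x = g x' := hg.eq fun j hj => h j (mem_insert_of_mem hj)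
    simp only [h1, h2]
  rw [← mn_cav_mul (insert i J) f _ hd, ← mn_update i]
  refine mn_congr fun x => ?_
  rw [mn_bool]
  simp only [Function.update_self, hg.update hi, sg_true, sg_false]
  unfold cb
  ring

lemma mn_bias_mul {J : Finset I} {i : I} (hi : i ∉ J) (f g : (I → Bool) → ℝ)
    (hf : ∀ x, 0 ≤ f x) (hg : Dep J g) :
    mn (fun x => f x * (bias J i f x * g x)) =
      mn (fun x => (cb J i true f x - cb J i false f x) / 2 * g x) := by
  have hd : Dep J (fun x => bias J i f x * g x) := by
    intro x x'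
    simp only [dep_bias J i f x x', hg x x']
  rw [← mn_cav_mul J f _ hd]
  refine mn_congr fun x => ?_
  rw [← bias_mul hi hf]
  ring

/-- martingale difference -/
noncomputable def md (J : Finset I) (i : I) (f : (I → Bool) → ℝ) (x : I → Bool) : ℝ :=
  sg (x i) - bias J i f x

lemma mn_md {J : Finset I} {i : I} (hi : i ∉ J) (f g : (I → Bool) → ℝ)
    (hf : ∀ x, 0 ≤ f x) (hg : Dep J g) :
    mn (fun x => f x * (md J i f x * g x)) = 0 := by
  have h : ∀ x, f x * (md J i f x * g x) =
      f x * (sg (x i) * g x) - f x * (bias J i f x * g x) := by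
    intro x; unfold md; ring
  rw [mn_congr h, mn_sub, mn_sign_mul hi f g hg, mn_bias_mul hi f g hf hg, sub_self]

lemma mn_bias_sq {J : Finset I} {i : I} (hi : i ∉ J) (f : (I → Bool) → ℝ)
    (hf : ∀ x, 0 ≤ f x) :
    mn (fun x => f x * bias J i f x ^ 2) = D J i f := by
  have h : ∀ x, f x * bias J i f x ^ 2 = f x * (bias J i f x * bias J i f x) := by
    intro x; ring
  rw [mn_congr h, mn_bias_mul hi f _ hf (dep_bias J i f)]
  unfold D
  refine mn_congr fun x => ?_
  unfold bias
  by_cases h : cav J f x = 0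
  · rw [h]; simp
  · field_simp
    ring

lemma mn_md_sq {J : Finset I} {i : I} (hi : i ∉ J) (f : (I → Bool) → ℝ)
    (hf : ∀ x, 0 ≤ f x) :
    mn (fun x => f x * md J i f x ^ 2) = mn f - D J i f := by
  have h : ∀ x, f x * md J i f x ^ 2 =
      f x - (f x * (sg (x i) * bias J i f x) - f x * (bias J i f x * bias J i f x))
        - f x * (sg (x i) * bias J i f x) := by
    intro x
    unfold md
    have := sg_sq (x i)
    have h2 : (sg (x i) - bias J i f x) ^ 2 = sg (x i) ^ 2 - 2 * (sg (x i) * bias J i f x) +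
      bias J i f x * bias J i f x := by ring
    rw [h2, this]
    ring
  rw [mn_congr h, mn_sub, mn_sub, mn_sub, mn_sign_mul hi f _ (dep_bias J i f),
    mn_bias_mul hi f _ hf (dep_bias J i f), sub_self, sub_zero]
  congr 1
  rw [← mn_bias_mul hi f _ hf (dep_bias J i f), ← mn_bias_sq hi f hf]
  refine mn_congr fun x => ?_
  ring

/-- A family of coordinates with an increasing family of conditioning sets. -/
structure Filt {κ : Type} (q : κ → I) (J : κ → Finset I) : Prop where
  notMem : ∀ k, q k ∉ J k
  cmp : ∀ j k, j ≠ k → (J j ⊆ J k ∧ q j ∈ J k) ∨ (J k ⊆ J j ∧ q k ∈ J j)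

lemma filt_pre {κ : Type} {q : κ → I} (hq : Function.Injective q) {r : I → ℕ}
    (hr : Function.Injective r) {s : Finset I} (hs : ∀ k, q k ∈ s) :
    Filt q (fun k => pre r s (q k)) where
  notMem k := not_mem_pre r s (q k)
  cmp j k hjk := by
    have h : r (q j) ≠ r (q k) := fun h => hjk (hq (hr h))
    rcases lt_or_gt_of_ne h with h | h
    · left
      refine ⟨fun i hi => ?_, ?_⟩
      · simp only [pre, mem_filter] at hi ⊢
        exact ⟨hi.1, hi.2.trans h⟩
      · simp only [pre, mem_filter]
        exact ⟨hs j, h⟩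
    · right
      refine ⟨fun i hi => ?_, ?_⟩
      · simp only [pre, mem_filter] at hi ⊢
        exact ⟨hi.1, hi.2.trans h⟩
      · simp only [pre, mem_filter]
        exact ⟨hs k, h⟩

section fam

variable {κ : Type} [Fintype κ] [DecidableEq κ] {q : κ → I} {J : κ → Finset I}

lemma dep_md {J J' : Finset I} (h : J ⊆ J') {i : I} (hi : i ∈ J') (f : (I → Bool) → ℝ) :
    Dep J' (md J i f) := by
  apply dep_of_update
  intro x x' hx
  unfold md
  rw [hx i hi, (dep_bias J i f).eq fun j hj => hx j (h hj)]

lemma mn_md_md (hF : Filt q J) (f : (I → Bool) → ℝ) (hf : ∀ x, 0 ≤ f x) {j k : κ} (hjk : j ≠ k) :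
    mn (fun x => f x * (md (J j) (q j) f x * md (J k) (q k) f x)) = 0 := by
  rcases hF.cmp j k hjk with h | h
  · have h1 : ∀ x, f x * (md (J j) (q j) f x * md (J k) (q k) f x) =
        f x * (md (J k) (q k) f x * md (J j) (q j) f x) := fun x => by ring
    rw [mn_congr h1]
    exact mn_md (hF.notMem k) f _ hf (dep_md h.1 h.2 f)
  · exact mn_md (hF.notMem j) f _ hf (dep_md h.1 h.2 f)

/-- second moment of a linear form of the martingale differences -/
lemma mn_lin_sq (hF : Filt q J) (f : (I → Bool) → ℝ) (hf : ∀ x, 0 ≤ f x) (c : κ → ℝ) :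
    mn (fun x => f x * (∑ k, c k * md (J k) (q k) f x) ^ 2) =
      ∑ k, c k ^ 2 * (mn f - D (J k) (q k) f) := by
  have h : ∀ x, f x * (∑ k, c k * md (J k) (q k) f x) ^ 2 =
      ∑ k, ∑ j, (c k * c j) * (f x * (md (J k) (q k) f x * md (J j) (q j) f x)) := by
    intro x
    rw [pow_two, sum_mul_sum, mul_sum]
    refine sum_congr rfl fun k _ => ?_
    rw [mul_sum]
    refine sum_congr rfl fun j _ => ?_
    ring
  rw [mn_congr h]
  refine (GKS.mn_finset_sum univ _).trans ?_
  refine sum_congr rfl fun k _ => ?_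
  refine (GKS.mn_finset_sum univ _).trans ?_
  rw [sum_eq_single k]
  · rw [mn_mul_left]
    have h2 : ∀ x, f x * (md (J k) (q k) f x * md (J k) (q k) f x) =
        f x * md (J k) (q k) f x ^ 2 := fun x => by ring
    rw [mn_congr h2, mn_md_sq (hF.notMem k) f hf]
    ring
  · intro j _ hj
    rw [mn_mul_left, mn_md_md hF f hf hj.symm, mul_zero]
  · intro h; exact absurd (mem_univ k) h

/-- first moment of a linear form of the martingale differences -/
lemma mn_lin (hF : Filt q J) (f : (I → Bool) → ℝ) (hf : ∀ x, 0 ≤ f x) (c : κ → ℝ) :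
    mn (fun x => f x * ∑ k, c k * md (J k) (q k) f x) = 0 := by
  have h : ∀ x, f x * ∑ k, c k * md (J k) (q k) f x =
      ∑ k, c k * (f x * (md (J k) (q k) f x * (fun _ => (1 : ℝ)) x)) := by
    intro x
    rw [mul_sum]
    refine sum_congr rfl fun k _ => ?_
    ring
  rw [mn_congr h]
  refine (GKS.mn_finset_sum univ _).trans ?_
  refine sum_eq_zero fun k _ => ?_
  rw [mn_mul_left, mn_md (hF.notMem k) f _ hf (fun _ _ => rfl), mul_zero]

end fam

end H644R2.SIJ
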