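import Pool.Agent.H644R2.SIJ.Mart

/-!
Projections of the sign vector of a family of nearly unbiased coordinates.
-/

open Finset
open scoped RealInnerProductSpace

set_option linter.unusedSectionVars false
set_option linter.unusedVariables false
set_option linter.unusedSimpArgs false

namespace H644R2.SIJ

section lin

variable {κ : Type} [Fintype κ] [DecidableEq κ]

lemma inner_eq (x y : EuclideanSpace ℝ κ) : ⟪x, y⟫ = ∑ k, x k * y k := by
  rw [PiLp.inner_apply]
  refine sum_congr rfl fun k _ => ?_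
  simp [mul_comm]

lemma norm_sq_eq (x : EuclideanSpace ℝ κ) : ‖x‖ ^ 2 = ∑ k, x k ^ 2 := by
  rw [← real_inner_self_eq_norm_sq, inner_eq]
  exact sum_congr rfl fun k _ => by ring

/-- the squared norm of a projection in terms of an orthonormal basis -/
lemma proj_norm_sq (V : Submodule ℝ (EuclideanSpace ℝ κ)) (z : EuclideanSpace ℝ κ) :
    ‖V.starProjection z‖ ^ 2 =
      ∑ i, ⟪((stdOrthonormalBasis ℝ V) i : EuclideanSpace ℝ κ), z⟫ ^ 2 := by
  have h1 := (stdOrthonormalBasis ℝ V).sum_sq_norm_inner_right (V.orthogonalProjectionOnto z)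
  rw [Submodule.starProjection_apply, Submodule.norm_coe, ← h1]
  refine sum_congr rfl fun i _ => ?_
  rw [Real.norm_eq_abs, sq_abs, Submodule.inner_orthogonalProjectionOnto_eq_of_mem_left]

/-- Bessel -/
lemma bessel (V : Submodule ℝ (EuclideanSpace ℝ κ)) (k : κ) :
    ∑ i, ((stdOrthonormalBasis ℝ V) i : EuclideanSpace ℝ κ) k ^ 2 ≤ 1 := by
  have h1 := proj_norm_sq V (EuclideanSpace.single k (1 : ℝ))
  have h2 : ∀ i, ⟪((stdOrthonormalBasis ℝ V) i : EuclideanSpace ℝ κ),
      EuclideanSpace.single k (1 : ℝ)⟫ = ((stdOrthonormalBasis ℝ V) i : EuclideanSpace ℝ κ) k := by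
    intro i
    simp [EuclideanSpace.inner_single_right]
  simp only [h2] at h1
  rw [← h1]
  have h3 := Submodule.norm_starProjection_apply_le V (EuclideanSpace.single k (1 : ℝ))
  have h4 : ‖EuclideanSpace.single k (1 : ℝ)‖ = 1 := by simp
  rw [h4] at h3
  exact pow_le_one₀ (norm_nonneg _) h3

lemma sum_basis_sq (V : Submodule ℝ (EuclideanSpace ℝ κ)) (i) :
    ∑ k, ((stdOrthonormalBasis ℝ V) i : EuclideanSpace ℝ κ) k ^ 2 = 1 := by
  rw [← norm_sq_eq, Submodule.norm_coe, (stdOrthonormalBasis ℝ V).orthonormal.1 i, one_pow]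

end lin

variable {I : Type} [Fintype I] [DecidableEq I]
variable {κ : Type} [Fintype κ] [DecidableEq κ] {q : κ → I} {J : κ → Finset I}

/-- the vector of signs -/
noncomputable def av (q : κ → I) (x : I → Bool) : EuclideanSpace ℝ κ :=
  WithLp.toLp 2 (fun k => sg (x (q k)))

/-- the vector of biases -/
noncomputable def bv (q : κ → I) (J : κ → Finset I) (f : (I → Bool) → ℝ) (x : I → Bool) :
    EuclideanSpace ℝ κ := WithLp.toLp 2 (fun k => bias (J k) (q k) f x)

/-- the vector of martingale differences -/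
noncomputable def mv (q : κ → I) (J : κ → Finset I) (f : (I → Bool) → ℝ) (x : I → Bool) :
    EuclideanSpace ℝ κ := WithLp.toLp 2 (fun k => md (J k) (q k) f x)

lemma av_eq (f : (I → Bool) → ℝ) (x : I → Bool) : av q x = mv q J f x + bv q J f x := by
  ext k
  simp [av, mv, bv, md]

lemma mn_bv_sq (hF : Filt q J) (f : (I → Bool) → ℝ) (hf : ∀ x, 0 ≤ f x) :
    mn (fun x => f x * ‖bv q J f x‖ ^ 2) = ∑ k, D (J k) (q k) f := by
  have h : ∀ x, f x * ‖bv q J f x‖ ^ 2 = ∑ k, f x * bias (J k) (q k) f x ^ 2 := by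
    intro x
    rw [norm_sq_eq, mul_sum]
    rfl
  rw [mn_congr h]
  refine (GKS.mn_finset_sum univ _).trans ?_
  exact sum_congr rfl fun k _ => mn_bias_sq (hF.notMem k) f hf

lemma mn_inner_mv_sq (hF : Filt q J) (f : (I → Bool) → ℝ) (hf : ∀ x, 0 ≤ f x)
    (c : EuclideanSpace ℝ κ) :
    mn (fun x => f x * ⟪c, mv q J f x⟫ ^ 2) = ∑ k, c k ^ 2 * (mn f - D (J k) (q k) f) := by
  rw [← mn_lin_sq hF f hf (fun k => c k)]
  refine mn_congr fun x => ?_
  rw [inner_eq]
  rfl

lemma mn_inner_mv (hF : Filt q J) (f : (I → Bool) → ℝ) (hf : ∀ x, 0 ≤ f x)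
    (c : EuclideanSpace ℝ κ) :
    mn (fun x => f x * ⟪c, mv q J f x⟫) = 0 := by
  rw [← mn_lin hF f hf (fun k => c k)]
  refine mn_congr fun x => ?_
  rw [inner_eq]
  rfl

lemma mn_inner_mv_sq_le (hF : Filt q J) (f : (I → Bool) → ℝ) (hf : ∀ x, 0 ≤ f x)
    (c : EuclideanSpace ℝ κ) :
    mn (fun x => f x * ⟪c, mv q J f x⟫ ^ 2) ≤ ‖c‖ ^ 2 * mn f := by
  rw [mn_inner_mv_sq hF f hf, norm_sq_eq, sum_mul]
  refine sum_le_sum fun k _ => mul_le_mul_of_nonneg_left ?_ (sq_nonneg _)
  have := D_nonneg hf (J k) (q k)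
  linarith

lemma mn_proj_mv (hF : Filt q J) (f : (I → Bool) → ℝ) (hf : ∀ x, 0 ≤ f x)
    (V : Submodule ℝ (EuclideanSpace ℝ κ)) :
    mn (fun x => f x * ‖V.starProjection (mv q J f x)‖ ^ 2) =
      Module.finrank ℝ V * mn f - ∑ k, (∑ i, ((stdOrthonormalBasis ℝ V) i :
        EuclideanSpace ℝ κ) k ^ 2) * D (J k) (q k) f := by
  have h : ∀ x, f x * ‖V.starProjection (mv q J f x)‖ ^ 2 =
      ∑ i, f x * ⟪((stdOrthonormalBasis ℝ V) i : EuclideanSpace ℝ κ), mv q J f x⟫ ^ 2 := by
    intro x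
    rw [proj_norm_sq, mul_sum]
  rw [mn_congr h]
  refine (GKS.mn_finset_sum univ _).trans ?_
  have h2 : ∀ i, mn (fun x => f x * ⟪((stdOrthonormalBasis ℝ V) i : EuclideanSpace ℝ κ),
      mv q J f x⟫ ^ 2) = mn f - ∑ k, ((stdOrthonormalBasis ℝ V) i :
        EuclideanSpace ℝ κ) k ^ 2 * D (J k) (q k) f := by
    intro i
    rw [mn_inner_mv_sq hF f hf]
    simp only [mul_sub, sum_sub_distrib]
    rw [← sum_mul, sum_basis_sq, one_mul]
  rw [sum_congr rfl (fun i _ => h2 i), sum_sub_distrib, sum_comm]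
  simp only [sum_const, card_univ, Fintype.card_fin, nsmul_eq_mul, sum_mul]

/-- (a) the projection of the sign vector onto a subspace of small dimension is small -/
lemma mn_proj_av (hF : Filt q J) (f : (I → Bool) → ℝ) (hf : ∀ x, 0 ≤ f x)
    (V : Submodule ℝ (EuclideanSpace ℝ κ)) :
    mn (fun x => f x * ‖V.starProjection (av q x)‖ ^ 2) ≤
      2 * (Module.finrank ℝ V * mn f) + 2 * ∑ k, D (J k) (q k) f := by
  have h1 : ∀ x, f x * ‖V.starProjection (av q x)‖ ^ 2 ≤
      2 * (f x * ‖V.starProjection (mv q J f x)‖ ^ 2) + 2 * (f x * ‖bv q J f x‖ ^ 2) := by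
    intro x
    rw [av_eq (J := J) f x, map_add]
    have h2 : ‖V.starProjection (mv q J f x) + V.starProjection (bv q J f x)‖ ^ 2 ≤
        2 * ‖V.starProjection (mv q J f x)‖ ^ 2 + 2 * ‖bv q J f x‖ ^ 2 := by
      have h3 := norm_add_le (V.starProjection (mv q J f x)) (V.starProjection (bv q J f x))
      have h4 := Submodule.norm_starProjection_apply_le V (bv q J f x)
      have h5 := norm_nonneg (V.starProjection (mv q J f x) + V.starProjection (bv q J f x))
      have h6 := norm_nonneg (V.starProjection (bv q J f x))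
      nlinarith [sq_nonneg (‖V.starProjection (mv q J f x)‖ - ‖bv q J f x‖),
        norm_nonneg (V.starProjection (mv q J f x))]
    nlinarith [hf x, mul_le_mul_of_nonneg_left h2 (hf x)]
  have h2 := mn_mono h1
  rw [mn_add, mn_mul_left, mn_mul_left, mn_bv_sq hF f hf, mn_proj_mv hF f hf] at h2
  have h3 : 0 ≤ ∑ k, (∑ i, ((stdOrthonormalBasis ℝ V) i :
        EuclideanSpace ℝ κ) k ^ 2) * D (J k) (q k) f :=
    sum_nonneg fun k _ => mul_nonneg (sum_nonneg fun i _ => sq_nonneg _) (D_nonneg hf _ _)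
  linarith

/-- (b) if many well-conditioned linear forms of the sign vector are confined to short windows,
then the coordinates have large squared biases. -/
theorem core (hF : Filt q J) (f : (I → Bool) → ℝ) (hf : ∀ x, 0 ≤ f x)
    {ι : Type} [Fintype ι] [DecidableEq ι] (u n : ι → EuclideanSpace ℝ κ) (t : ι → ℝ)
    {E w : ℝ} (hE : 0 < E) (hw : w ^ 2 ≤ E / 256)
    (hn0 : ∀ i j, j ≠ i → ⟪n i, u j⟫ = 0) (hn1 : ∀ i, ⟪n i, u i⟫ = ‖n i‖ ^ 2)
    (hn2 : ∀ i, E / 8 ≤ ‖n i‖ ^ 2)
    (hs : ∀ x, f x ≠ 0 → ∀ i, |⟪u i, av q x⟫ - t i| ≤ 2 * w) :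
    (Fintype.card ι : ℝ) * mn f ≤ 5 * ∑ k, D (J k) (q k) f := by
  classical
  set V : Submodule ℝ (EuclideanSpace ℝ κ) := Submodule.span ℝ (Set.range u) with hV
  have huV : ∀ i, u i ∈ V := fun i => Submodule.subset_span ⟨i, rfl⟩
  have hpos : ∀ i, 0 < ‖n i‖ ^ 2 := fun i => lt_of_lt_of_le (by positivity) (hn2 i)
  set g : ι → EuclideanSpace ℝ κ := fun i => (‖n i‖ ^ 2)⁻¹ • V.starProjection (n i) with hg
  have hgV : ∀ i, g i ∈ V := fun i => V.smul_mem _ (Submodule.starProjection_apply_mem _ _)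
  have hgn : ∀ i, ‖g i‖ ^ 2 ≤ 8 / E := by
    intro i
    rw [hg]
    simp only [norm_smul, mul_pow, norm_inv, norm_pow, norm_norm]
    have h1 := Submodule.norm_starProjection_apply_le V (n i)
    have h2 : ‖V.starProjection (n i)‖ ^ 2 ≤ ‖n i‖ ^ 2 := pow_le_pow_left₀ (norm_nonneg _) h1 2
    calc ((‖n i‖ ^ 2)⁻¹) ^ 2 * ‖V.starProjection (n i)‖ ^ 2
        ≤ ((‖n i‖ ^ 2)⁻¹) ^ 2 * ‖n i‖ ^ 2 := mul_le_mul_of_nonneg_left h2 (by positivity)
      _ = (‖n i‖ ^ 2)⁻¹ := by
        have := (hpos i).ne'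
        field_simp
      _ ≤ (E / 8)⁻¹ := inv_anti₀ (by positivity) (hn2 i)
      _ = 8 / E := by rw [inv_div]
  have hgu : ∀ i j, ⟪g i, u j⟫ = if i = j then 1 else 0 := by
    intro i j
    have h1 : ⟪g i, u j⟫ = (‖n i‖ ^ 2)⁻¹ * ⟪n i, u j⟫ := by
      rw [hg]
      simp only [inner_smul_left]
      rw [Submodule.inner_starProjection_left_eq_right,
        Submodule.starProjection_eq_self_iff.2 (huV j)]
      simp
    rw [h1]
    split_ifs with hij
    · subst hij
      rw [hn1, inv_mul_cancel₀ (hpos i).ne']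
    · rw [hn0 i j (fun h => hij h.symm), mul_zero]
  -- the projection
  have hP : ∀ z, V.starProjection z = ∑ i, ⟪u i, z⟫ • g i := by
    intro z
    have h1 : V.starProjection z - ∑ i, ⟪u i, z⟫ • g i ∈ V :=
      V.sub_mem (Submodule.starProjection_apply_mem _ _)
        (V.sum_mem fun i _ => V.smul_mem _ (hgV i))
    have h2 : ∀ v ∈ V, ⟪V.starProjection z - ∑ i, ⟪u i, z⟫ • g i, v⟫ = 0 := by
      intro v hv
      refine Submodule.span_induction (p := fun v _ =>
        ⟪V.starProjection z - ∑ i, ⟪u i, z⟫ • g i, v⟫ = 0) ?_ ?_ ?_ ?_ hv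
      · rintro _ ⟨j, rfl⟩
        rw [inner_sub_left, Submodule.inner_starProjection_left_eq_right,
          Submodule.starProjection_eq_self_iff.2 (huV j), sum_inner]
        simp only [inner_smul_left, hgu]
        simp [real_inner_comm]
      · simp
      · intro a b _ _ ha hb
        rw [inner_add_right, ha, hb, add_zero]
      · intro c a _ ha
        rw [inner_smul_right, ha, mul_zero]
    have h3 := h2 _ h1
    rw [inner_self_eq_zero] at h3
    exact sub_eq_zero.1 h3
  -- the dimension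
  have hli : LinearIndependent ℝ u := by
    rw [Fintype.linearIndependent_iff]
    intro c hc i
    have h1 : ⟪g i, ∑ j, c j • u j⟫ = 0 := by rw [hc, inner_zero_right]
    rw [inner_sum] at h1
    simp only [inner_smul_right, hgu] at h1
    simpa using h1
  have hdim : Module.finrank ℝ V = Fintype.card ι := by
    rw [hV, finrank_span_eq_card hli]
  set S := ∑ k, D (J k) (q k) f with hS
  set M := mn (fun x => f x * ‖V.starProjection (mv q J f x)‖ ^ 2) with hM
  have hM1 : (Fintype.card ι : ℝ) * mn f - S ≤ M := by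
    have hdim' : (Module.finrank ℝ V : ℝ) = Fintype.card ι := by exact_mod_cast hdim
    rw [hM, mn_proj_mv hF f hf, ← hdim']
    have : ∑ k, (∑ i, ((stdOrthonormalBasis ℝ V) i :
        EuclideanSpace ℝ κ) k ^ 2) * D (J k) (q k) f ≤ S := by
      refine sum_le_sum fun k _ => ?_
      exact mul_le_of_le_one_left (D_nonneg hf _ _) (bessel V k)
    linarith
  have hM2 : M ≤ 1 / 4 * M + S + (Fintype.card ι : ℝ) * (32 * w ^ 2 / E + 1 / 4) * mn f := by
    have h1 : ∀ x, f x * ‖V.starProjection (mv q J f x)‖ ^ 2 ≤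
        1 / 4 * (f x * ‖V.starProjection (mv q J f x)‖ ^ 2) + f x * ‖bv q J f x‖ ^ 2 +
        ∑ i, (f x * (32 * w ^ 2 / E) + E / 32 * (f x * ⟪g i, mv q J f x⟫ ^ 2)) +
        ∑ i, t i * (f x * ⟪g i, mv q J f x⟫) := by
      intro x
      by_cases hx : f x = 0
      · simp [hx]
      have hfx : 0 < f x := lt_of_le_of_ne (hf x) (Ne.symm hx)
      set m := mv q J f x with hm
      set b := bv q J f x with hb
      have e1 : ‖V.starProjection m‖ ^ 2 = ⟪m, V.starProjection (av q x)⟫ -
          ⟪V.starProjection m, b⟫ := by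
        have h3 : V.starProjection (av q x) = V.starProjection m + V.starProjection b := by
          rw [av_eq (J := J) f x, map_add]
        rw [h3, inner_add_right, ← Submodule.inner_starProjection_left_eq_right V m b]
        have h4 : ⟪m, V.starProjection m⟫ = ‖V.starProjection m‖ ^ 2 := by
          have h5 : V.starProjection (V.starProjection m) = V.starProjection m :=
            Submodule.starProjection_eq_self_iff.2 (Submodule.starProjection_apply_mem _ _)
          rw [← real_inner_self_eq_norm_sq, Submodule.inner_starProjection_left_eq_right, h5]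
        rw [h4]; ring
      have e2 : ⟪m, V.starProjection (av q x)⟫ = ∑ i, ⟪u i, av q x⟫ * ⟪g i, m⟫ := by
        rw [hP, inner_sum]
        refine sum_congr rfl fun i _ => ?_
        rw [inner_smul_right, real_inner_comm (g i) m]
      have e3 : -⟪V.starProjection m, b⟫ ≤ 1 / 4 * ‖V.starProjection m‖ ^ 2 + ‖b‖ ^ 2 := by
        have h6 := abs_real_inner_le_norm (V.starProjection m) b
        have h7 := (abs_le.1 h6).1
        nlinarith [sq_nonneg (‖V.starProjection m‖ / 2 - ‖b‖)]
      have e4 : ∑ i, ⟪u i, av q x⟫ * ⟪g i, m⟫ ≤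
          ∑ i, (32 * w ^ 2 / E + E / 32 * ⟪g i, m⟫ ^ 2) + ∑ i, t i * ⟪g i, m⟫ := by
        rw [← sum_add_distrib]
        refine sum_le_sum fun i _ => ?_
        have h8 := hs x hx i
        set e := ⟪u i, av q x⟫ - t i with he
        have h9 : ⟪u i, av q x⟫ = e + t i := by rw [he]; ring
        rw [h9]
        have h10 : e ^ 2 ≤ 4 * w ^ 2 := by
          have h11 : e ^ 2 = |e| ^ 2 := (sq_abs e).symm
          rw [h11]
          have h12 := abs_nonneg e
          nlinarith
        have h13 : e * ⟪g i, m⟫ ≤ 8 / E * e ^ 2 + E / 32 * ⟪g i, m⟫ ^ 2 := by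
          have h14 : 0 ≤ (8 / E) * (e - E / 16 * ⟪g i, m⟫) ^ 2 := by positivity
          have h15 : (8 / E) * (e - E / 16 * ⟪g i, m⟫) ^ 2 =
              8 / E * e ^ 2 - e * ⟪g i, m⟫ + E / 32 * ⟪g i, m⟫ ^ 2 := by
            field_simp
            ring
          linarith
        have h16 : 8 / E * e ^ 2 ≤ 32 * w ^ 2 / E := by
          rw [div_mul_eq_mul_div]
          apply div_le_div_of_nonneg_right _ hE.le
          linarith
        nlinarith
      have e5 : ‖V.starProjection m‖ ^ 2 ≤ 1 / 4 * ‖V.starProjection m‖ ^ 2 + ‖b‖ ^ 2 +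
          ∑ i, (32 * w ^ 2 / E + E / 32 * ⟪g i, m⟫ ^ 2) + ∑ i, t i * ⟪g i, m⟫ := by
        linarith
      have e6 := mul_le_mul_of_nonneg_left e5 hfx.le
      refine e6.trans (le_of_eq ?_)
      rw [mul_add, mul_add, mul_add, mul_sum, mul_sum]
      congr 1
      · congr 1
        · ring
        · refine sum_congr rfl fun i _ => ?_
          ring
      · refine sum_congr rfl fun i _ => ?_
        ring
    have h2 := mn_mono h1
    rw [mn_add, mn_add, mn_add, mn_mul_left, mn_bv_sq hF f hf] at h2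
    have h3 : mn (fun x => ∑ i, t i * (f x * ⟪g i, mv q J f x⟫)) = 0 := by
      refine (GKS.mn_finset_sum univ _).trans ?_
      refine sum_eq_zero fun i _ => ?_
      rw [mn_mul_left, mn_inner_mv hF f hf, mul_zero]
    have h4 : mn (fun x => ∑ i, (f x * (32 * w ^ 2 / E) +
        E / 32 * (f x * ⟪g i, mv q J f x⟫ ^ 2))) ≤
        (Fintype.card ι : ℝ) * (32 * w ^ 2 / E + 1 / 4) * mn f := by
      refine ((GKS.mn_finset_sum univ _).trans_le (sum_le_card_nsmul univ _
        ((32 * w ^ 2 / E + 1 / 4) * mn f) ?_)).trans (le_of_eq ?_)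
      · intro i _
        rw [mn_add, mn_mul_right, mn_mul_left]
        have h5 := mn_inner_mv_sq_le hF f hf (g i)
        have h6 : E / 32 * mn (fun x => f x * ⟪g i, mv q J f x⟫ ^ 2) ≤
            E / 32 * (8 / E * mn f) := by
          refine mul_le_mul_of_nonneg_left (h5.trans ?_) (by positivity)
          exact mul_le_mul_of_nonneg_right (hgn i) (mn_nonneg hf)
        have h7 : E / 32 * (8 / E * mn f) = 1 / 4 * mn f := by
          field_simp
          ring
        linarith
      · rw [card_univ, nsmul_eq_mul]; ring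
    rw [h3] at h2
    linarith
  have h3 : 32 * w ^ 2 / E ≤ 1 / 8 := by
    rw [div_le_iff₀ hE]; linarith
  have h4 : (Fintype.card ι : ℝ) * (32 * w ^ 2 / E + 1 / 4) * mn f ≤
      (Fintype.card ι : ℝ) * (3 / 8) * mn f := by
    refine mul_le_mul_of_nonneg_right (mul_le_mul_of_nonneg_left (by linarith) (by positivity))
      (mn_nonneg hf)
  have h5 : 0 ≤ S := sum_nonneg fun k _ => D_nonneg hf _ _
  nlinarith

end H644R2.SIJ
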