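import Pool.Agent.H644R2.SIJ.Sel
import Pool.Agent.H644R2.SIJ.Amp

/-!
The reduction along a Ruzsa-Szemeredi graph.
-/

open Finset

set_option linter.unusedSectionVars false
set_option linter.unusedVariables false
set_option linter.unusedSimpArgs false

namespace H644R2.SIJ

lemma supp_eq {n : ℕ} (A B : BMat n) :
    supp A B = #{p : Fin n × Fin n | ∃ c, A p.1 c = true ∧ B c p.2 = true} := by
  unfold supp
  congr 1
  apply filter_congr
  intro p _
  rw [Matrix.mul_apply]
  have h0 : ∀ c ∈ (univ : Finset (Fin n)), 0 ≤ toInt A p.1 c * toInt B c p.2 := by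
    intro c _
    unfold toInt
    simp only [Matrix.map_apply]
    split_ifs <;> simp
  rw [ne_eq, sum_eq_zero_iff_of_nonneg h0]
  push Not
  constructor
  · rintro ⟨c, _, hc⟩
    refine ⟨c, ?_⟩
    unfold toInt at hc
    simp only [Matrix.map_apply] at hc
    split_ifs at hc with h1 h2
    · exact ⟨h1, h2⟩
    all_goals simp at hc
  · rintro ⟨c, h1, h2⟩
    refine ⟨c, mem_univ _, ?_⟩
    unfold toInt
    simp [h1, h2]

section red

variable {n Q s h b : ℕ} (S : Fin s → ℕ)
  (ι : Fin Q × (Fin (2 * h + 1) ⊕ (Fin b × Bool)) ↪ Fin n) (code : Fin s ↪ (Fin b → Bool))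

open Classical in
/-- Alice's matrix -/
noncomputable def mkA (x : Ix (Q * s) h → Bool) : BMat n := fun i c =>
  decide (∃ e : Fin Q, ∃ a : Fin s, (i : ℕ) = e + S a ∧
    ((∃ l, c = ι (e, Sum.inl l) ∧ x (finProdFinEquiv (e, a), l) = true) ∨
      ∃ p, c = ι (e, Sum.inr (p, code a p))))

open Classical in
/-- Bob's matrix -/
noncomputable def mkB (y : Ix (Q * s) h → Bool) : BMat n := fun c j =>
  decide (∃ e : Fin Q, ∃ a : Fin s, (j : ℕ) = e + 2 * S a ∧
    ((∃ l, c = ι (e, Sum.inl l) ∧ y (finProdFinEquiv (e, a), l) = true) ∨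
      ∃ p, c = ι (e, Sum.inr (p, !code a p))))

lemma common_iff (x y : Ix (Q * s) h → Bool) (i j : Fin n) :
    (∃ c, mkA S ι code x i c = true ∧ mkB S ι code y c j = true) ↔
      ∃ (e : Fin Q) (a a' : Fin s), (i : ℕ) = e + S a ∧ (j : ℕ) = e + 2 * S a' ∧
        (a ≠ a' ∨ ∃ l, x (finProdFinEquiv (e, a), l) = true ∧
          y (finProdFinEquiv (e, a), l) = true) := by
  classical
  constructor
  · rintro ⟨c, hA, hB⟩
    simp only [mkA, mkB, decide_eq_true_eq] at hA hB
    obtain ⟨e, a, hi, hA⟩ := hA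
    obtain ⟨e', a', hj, hB⟩ := hB
    rcases hA with ⟨l, hc, hx⟩ | ⟨p, hc⟩ <;> rcases hB with ⟨l', hc', hy⟩ | ⟨p', hc'⟩
    · have h1 := ι.injective (hc.symm.trans hc')
      simp only [Prod.mk.injEq, Sum.inl.injEq] at h1
      obtain ⟨rfl, rfl⟩ := h1
      refine ⟨e, a, a', hi, hj, ?_⟩
      by_cases haa : a = a'
      · subst haa; exact Or.inr ⟨l, hx, hy⟩
      · exact Or.inl haa
    · have h1 := ι.injective (hc.symm.trans hc')
      simp at h1
    · have h1 := ι.injective (hc.symm.trans hc')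
      simp at h1
    · have h1 := ι.injective (hc.symm.trans hc')
      simp only [Prod.mk.injEq, Sum.inr.injEq] at h1
      obtain ⟨rfl, rfl, h2⟩ := h1
      refine ⟨e, a, a', hi, hj, Or.inl ?_⟩
      rintro rfl
      simp at h2
  · rintro ⟨e, a, a', hi, hj, h⟩
    by_cases haa : a = a'
    · subst haa
      obtain ⟨l, hx, hy⟩ : ∃ l, x (finProdFinEquiv (e, a), l) = true ∧
          y (finProdFinEquiv (e, a), l) = true := by
        rcases h with h | h
        · exact absurd rfl h
        · exact h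
      refine ⟨ι (e, Sum.inl l), ?_, ?_⟩
      · simp only [mkA, decide_eq_true_eq]
        exact ⟨e, a, hi, Or.inl ⟨l, rfl, hx⟩⟩
      · simp only [mkB, decide_eq_true_eq]
        exact ⟨e, a, hj, Or.inl ⟨l, rfl, hy⟩⟩
    · obtain ⟨p, hp⟩ : ∃ p, code a p ≠ code a' p := by
        by_contra hcon
        push Not at hcon
        exact haa (code.injective (funext hcon))
      refine ⟨ι (e, Sum.inr (p, code a p)), ?_, ?_⟩
      · simp only [mkA, decide_eq_true_eq]
        exact ⟨e, a, hi, Or.inr ⟨p, rfl⟩⟩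
      · simp only [mkB, decide_eq_true_eq]
        refine ⟨e, a', hj, Or.inr ⟨p, ?_⟩⟩
        congr 3
        cases h1 : code a p <;> cases h2 : code a' p <;> simp_all

open Classical in
/-- the forced entries -/
noncomputable def T0 (n Q : ℕ) (S : Fin s → ℕ) : Finset (Fin n × Fin n) :=
  {p | ∃ (e : Fin Q) (a a' : Fin s), a ≠ a' ∧ (p.1 : ℕ) = e + S a ∧ (p.2 : ℕ) = e + 2 * S a'}

lemma edge_lt (hS : ∀ a, S a < Q) (h3 : 3 * Q ≤ n + 2) (k : Fin Q × Fin s) :
    (k.1 : ℕ) + S k.2 < n ∧ (k.1 : ℕ) + 2 * S k.2 < n := by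
  have h1 := k.1.2
  have h2 := hS k.2
  constructor <;> omega

/-- the edges of the Ruzsa-Szemeredi graph -/
def edge (hS : ∀ a, S a < Q) (h3 : 3 * Q ≤ n + 2) (k : Fin (Q * s)) : Fin n × Fin n :=
  (⟨(finProdFinEquiv.symm k).1 + S (finProdFinEquiv.symm k).2,
      (edge_lt S hS h3 (finProdFinEquiv.symm k)).1⟩,
    ⟨(finProdFinEquiv.symm k).1 + 2 * S (finProdFinEquiv.symm k).2,
      (edge_lt S hS h3 (finProdFinEquiv.symm k)).2⟩)

lemma edge_inj (hS : ∀ a, S a < Q) (h3 : 3 * Q ≤ n + 2) (hinj : Function.Injective S) :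
    Function.Injective (edge (n := n) S hS h3) := by
  intro k k' hkk
  unfold edge at hkk
  simp only [Prod.mk.injEq, Fin.mk.injEq] at hkk
  obtain ⟨h1, h2⟩ := hkk
  have h4 : S (finProdFinEquiv.symm k).2 = S (finProdFinEquiv.symm k').2 := by omega
  have h5 := hinj h4
  have h6 : (finProdFinEquiv.symm k).1 = (finProdFinEquiv.symm k').1 := by
    apply Fin.ext; omega
  exact finProdFinEquiv.symm.injective (Prod.ext h6 h5)

open Classical in
lemma supp_mk (hS : ∀ a, S a < Q) (h3 : 3 * Q ≤ n + 2) (hinj : Function.Injective S)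
    (hap : ∀ a b c, S a + S c = 2 * S b → a = b) (x y : Ix (Q * s) h → Bool) :
    supp (mkA S ι code x) (mkB S ι code y) =
      #(T0 n Q S) + #{k : Fin (Q * s) | ∃ l, x (k, l) = true ∧ y (k, l) = true} := by
  rw [supp_eq]
  have h1 : #{k : Fin (Q * s) | ∃ l, x (k, l) = true ∧ y (k, l) = true} =
      #(({k : Fin (Q * s) | ∃ l, x (k, l) = true ∧ y (k, l) = true} : Finset _).image
        (edge (n := n) S hS h3)) := (card_image_of_injective _ (edge_inj S hS h3 hinj)).symm
  rw [h1, ← card_union_of_disjoint]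
  · congr 1
    ext p
    simp only [mem_filter, mem_univ, true_and, mem_union, mem_image, T0]
    rw [common_iff]
    constructor
    · rintro ⟨e, a, a', hi, hj, h⟩
      by_cases haa : a = a'
      · subst haa
        right
        obtain ⟨l, hx, hy⟩ : ∃ l, x (finProdFinEquiv (e, a), l) = true ∧
          y (finProdFinEquiv (e, a), l) = true := by
          rcases h with h | h
          · exact absurd rfl h
          · exact h
        refine ⟨finProdFinEquiv (e, a), ⟨l, hx, hy⟩, ?_⟩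
        apply Prod.ext <;> apply Fin.ext
        · simp [edge, hi]
        · simp [edge, hj]
      · left
        exact ⟨e, a, a', haa, hi, hj⟩
    · rintro (⟨e, a, a', haa, hi, hj⟩ | ⟨k, ⟨l, hx, hy⟩, hk⟩)
      · exact ⟨e, a, a', hi, hj, Or.inl haa⟩
      · refine ⟨(finProdFinEquiv.symm k).1, (finProdFinEquiv.symm k).2,
          (finProdFinEquiv.symm k).2, ?_, ?_, Or.inr ⟨l, ?_, ?_⟩⟩
        · rw [← hk]; rfl
        · rw [← hk]; rfl
        · rw [Prod.mk.eta, Equiv.apply_symm_apply]; exact hx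
        · rw [Prod.mk.eta, Equiv.apply_symm_apply]; exact hy
  · rw [disjoint_left]
    intro p hp hp'
    simp only [T0, mem_filter, mem_univ, true_and] at hp
    obtain ⟨e, a, a', haa, hi, hj⟩ := hp
    obtain ⟨k, _, hk⟩ := mem_image.1 hp'
    have e1 : (p.1 : ℕ) = (finProdFinEquiv.symm k).1 + S (finProdFinEquiv.symm k).2 := by
      rw [← hk]; rfl
    have e2 : (p.2 : ℕ) = (finProdFinEquiv.symm k).1 + 2 * S (finProdFinEquiv.symm k).2 := by
      rw [← hk]; rfl
    have e3 : S a + S (finProdFinEquiv.symm k).2 = 2 * S a' := by omega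
    exact haa (hap a a' _ e3)

lemma supp_le (hS : ∀ a, S a < Q) (x y : Ix (Q * s) h → Bool) :
    supp (mkA S ι code x) (mkB S ι code y) ≤ 6 * Q ^ 2 := by
  classical
  rw [supp_eq]
  have h1 : #{p : Fin n × Fin n | ∃ c, mkA S ι code x p.1 c = true ∧
      mkB S ι code y c p.2 = true} ≤ #(range (2 * Q) ×ˢ range (3 * Q)) := by
    refine card_le_card_of_injOn (fun p => ((p.1 : ℕ), (p.2 : ℕ))) ?_ ?_
    · intro p hp
      simp only [coe_filter, mem_univ, true_and, Set.mem_ofPred_eq] at hp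
      rw [common_iff] at hp
      obtain ⟨e, a, a', hi, hj, _⟩ := hp
      have := e.2
      have := hS a
      have := hS a'
      simp only [coe_product, Set.mem_prod, mem_coe, mem_range]
      constructor <;> omega
    · intro p _ p' _ hpp
      simp only [Prod.mk.injEq] at hpp
      exact Prod.ext (Fin.ext hpp.1) (Fin.ext hpp.2)
  refine h1.trans (le_of_eq ?_)
  rw [card_product, card_range, card_range]
  ring

end red

lemma com_mask {E h : ℕ} (σ : Sg E h) (x y : Ix E h → Bool) :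
    #{k : Fin E | ∃ l, maskA σ x (k, l) = true ∧ maskB σ y (k, l) = true} =
      com (qs σ) x y := by
  unfold com
  congr 1
  apply filter_congr
  intro k _
  unfold maskA maskB qs
  simp only [Bool.and_eq_true, decide_eq_true_eq]
  constructor
  · rintro ⟨l, ⟨h1, h2⟩, h3, h4⟩
    have h5 : (σ k).symm l = mid h := le_antisymm h1 h3
    have h6 : l = σ k (mid h) := by rw [← h5]; simp
    subst h6
    exact ⟨h2, h4⟩
  · rintro ⟨h1, h2⟩
    exact ⟨σ k (mid h), ⟨by simp, h1⟩, by simp, h2⟩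

/-- the constant lower bound for the number of bits, many blocks -/
theorem lb_core {δ : ℝ} (hδ0 : 0 < δ) (hδ : δ < 1 / 2) : ∃ c : ℝ, 0 < c ∧
    ∀ (n Q s h b : ℕ) (S : Fin s → ℕ), (∀ a, S a < Q) → Function.Injective S →
      (∀ a b c, S a + S c = 2 * S b → a = b) → s ≤ 2 ^ b → Q * (2 * h + 1 + 2 * b) ≤ n →
      3 * Q ≤ n + 2 → 200 ≤ Q * s → ∀ ε : ℝ, 0 < ε → 9216 * ε ^ 2 * Q ^ 3 ≤ s →
      ∀ C : ℕ, PublicCost (BMat n) (BMat n) (Approx n ε) δ C → c * (Q * s * (h + 1)) ≤ C := by
  classical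
  obtain ⟨m, hm⟩ : ∃ m : ℕ, (4 * δ * (1 - δ)) ^ m < 1 / 20000 :=
    exists_pow_lt_of_lt_one (by norm_num) (by nlinarith [sq_nonneg (1 - 2 * δ)])
  refine ⟨1 / (19200000 * (2 * (m + 1))), by positivity, ?_⟩
  intro n Q s h b S hS hinj hap hsb hU h3 hE ε hε hεQ C hC
  obtain ⟨ι⟩ : Nonempty (Fin Q × (Fin (2 * h + 1) ⊕ (Fin b × Bool)) ↪ Fin n) := by
    apply Function.Embedding.nonempty_of_card_le
    simp only [Fintype.card_prod, Fintype.card_sum, Fintype.card_fin, Fintype.card_bool]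
    rw [mul_comm b 2]
    exact hU
  obtain ⟨code⟩ : Nonempty (Fin s ↪ (Fin b → Bool)) := by
    apply Function.Embedding.nonempty_of_card_le
    simpa using hsb
  set u : Sg (Q * s) h × ((Ix (Q * s) h → Bool) × (Ix (Q * s) h → Bool)) → BMat n :=
    fun z => mkA S ι code (maskA z.1 z.2.1) with hu
  set v : Sg (Q * s) h × ((Ix (Q * s) h → Bool) × (Ix (Q * s) h → Bool)) → BMat n :=
    fun z => mkB S ι code (maskB z.1 z.2.2) with hv
  obtain ⟨L, iL, A, B, out, hcard, hpart, herr⟩ := dist_of_public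
    (lo := fun A B : BMat n => (supp A B : ℝ) / (1 + ε))
    (hi := fun A B : BMat n => (1 + ε) * (supp A B : ℝ)) hδ0 hδ hC (m + 1) u v
  have hpm : (4 * δ * (1 - δ)) ^ (m + 1) ≤ 1 / 20000 := by
    refine le_trans ?_ hm.le
    refine pow_le_pow_of_le_one (mul_nonneg (by linarith) (by linarith)) ?_ (Nat.le_succ m)
    nlinarith [sq_nonneg (1 - 2 * δ)]
  set w : ℝ := 6 * ε * Q ^ 2 with hw
  have hw2 : w ^ 2 ≤ ((Q * s : ℕ) : ℝ) / 256 := by
    rw [hw]
    push_cast
    have h1 : (9216 * ε ^ 2 * Q ^ 3) * Q ≤ s * Q := mul_le_mul_of_nonneg_right hεQ (by positivity)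
    nlinarith
  by_contra hcon
  push Not at hcon
  have hlog : Real.log (Fintype.card L) ≤ ((Q * s : ℕ) : ℝ) * (h + 1) / 19200000 := by
    have hLpos : (0 : ℝ) < Fintype.card L := by
      have : Nonempty L := by
        by_contra hne
        rw [not_nonempty_iff] at hne
        have := hpart (fun _ _ => false) (fun _ _ => false)
        simp at this
      exact_mod_cast Fintype.card_pos
    have h1 : (Fintype.card L : ℝ) ≤ 2 ^ (2 * (m + 1) * C) := by exact_mod_cast hcard
    have h2 := Real.log_le_log hLpos h1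
    rw [Real.log_pow] at h2
    have h4 : Real.log 2 ≤ 1 := by
      have := Real.log_two_lt_d9; linarith
    have h5 : ((2 * (m + 1) * C : ℕ) : ℝ) * Real.log 2 ≤ ((2 * (m + 1) * C : ℕ) : ℝ) :=
      mul_le_of_le_one_right (by positivity) h4
    refine h2.trans (h5.trans ?_)
    push_cast
    have h6 := mul_le_mul_of_nonneg_left hcon.le (show (0 : ℝ) ≤ 2 * (m + 1) by positivity)
    refine h6.trans (le_of_eq ?_)
    field_simp
  have key := sum_disj (fun l x => A l (mkA S ι code x)) (fun l y => B l (mkB S ι code y)) hE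
    (fun x y => hpart _ _) (fun l x => out l (mkA S ι code x) - #(T0 n Q S)) hw2 hlog
  refine absurd key (not_lt.2 ?_)
  refine le_trans ?_ (herr.trans hpm)
  rw [mn_prod]
  refine mn_mono fun σ => ?_
  rw [mn_prod]
  refine mn_mono fun x => mn_mono fun y => ?_
  refine sum_le_sum fun l _ => ?_
  unfold fA fB
  refine mul_le_mul_of_nonneg_left ?_ (mul_nonneg (by split_ifs <;> norm_num)
    (by split_ifs <;> norm_num))
  simp only [hu, hv]
  set z := out l (mkA S ι code (maskA σ x)) with hz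
  have hN := supp_mk S ι code hS h3 hinj hap (maskA σ x) (maskB σ y)
  rw [com_mask] at hN
  have hN2 := supp_le S ι code hS (maskA σ x) (maskB σ y)
  set N := supp (mkA S ι code (maskA σ x)) (mkB S ι code (maskB σ y)) with hNdef
  by_cases hg : (N : ℝ) / (1 + ε) ≤ z ∧ z ≤ (1 + ε) * N
  · rw [if_pos hg, if_neg]
    unfold Bd
    rw [not_not]
    have hNr : (N : ℝ) = #(T0 n Q S) + com (qs σ) x y := by exact_mod_cast hN
    have hNr2 : (N : ℝ) ≤ 6 * Q ^ 2 := by exact_mod_cast hN2
    have h1 : (com (qs σ) x y : ℝ) - (z - #(T0 n Q S)) = N - z := by rw [hNr]; ring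
    rw [h1, abs_le]
    have h5 : ε * N ≤ w := by
      rw [hw]
      calc ε * N ≤ ε * (6 * Q ^ 2) := mul_le_mul_of_nonneg_left hNr2 hε.le
        _ = 6 * ε * Q ^ 2 := by ring
    have hN0 : (0 : ℝ) ≤ N := Nat.cast_nonneg _
    constructor
    · nlinarith [hg.2]
    · have h6 := hg.1
      rw [div_le_iff₀ (by linarith)] at h6
      by_cases hz0 : z ≤ N
      · nlinarith
      · nlinarith
  · rw [if_neg hg]
    split_ifs <;> norm_num

end H644R2.SIJ
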