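import Pool.Agent.H644R2.SIJ.Hide
import Pool.Agent.H644R2.SIJ.AC2

/-!
Selection of a good leaf and the lower bound for sums of disjointness instances.
-/

open Finset

set_option linter.unusedSectionVars false
set_option linter.unusedVariables false
set_option linter.unusedSimpArgs false

namespace H644R2.SIJ

variable {E h : ℕ}

/-- reversal of all blocks -/
def rv (σ : Sg E h) : Sg E h := fun k => σ k * Fin.revPerm

lemma rv_symm (σ : Sg E h) (k : Fin E) (l : Fin (2 * h + 1)) :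
    (rv σ k).symm l = Fin.rev ((σ k).symm l) := rfl

lemma rev_le_mid (a : Fin (2 * h + 1)) : Fin.rev a ≤ mid h ↔ mid h ≤ a := by
  rw [Fin.le_def, Fin.le_def, Fin.val_rev]
  simp only [mid]
  omega

lemma mid_le_rev (a : Fin (2 * h + 1)) : mid h ≤ Fin.rev a ↔ a ≤ mid h := by
  rw [Fin.le_def, Fin.le_def, Fin.val_rev]
  simp only [mid]
  omega

lemma rev_mid : Fin.rev (mid h) = mid h := by
  apply Fin.ext
  rw [Fin.val_rev]
  simp only [mid]
  omega

lemma maskA_rv (σ : Sg E h) (x : Ix E h → Bool) : maskA (rv σ) x = maskB σ x := by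
  funext i
  unfold maskA maskB
  simp only [rv_symm, rev_le_mid]

lemma maskB_rv (σ : Sg E h) (x : Ix E h → Bool) : maskB (rv σ) x = maskA σ x := by
  funext i
  unfold maskA maskB
  simp only [rv_symm, mid_le_rev]

lemma qs_rv (σ : Sg E h) (k : Fin E) : qs (rv σ) k = qs σ k := by
  unfold qs rv
  simp [rev_mid]

lemma mn_rv (F : Sg E h → ℝ) : mn (fun σ => F (rv σ)) = mn F := by
  have := mn_equiv (Equiv.mulRight (fun _ : Fin E => (Fin.revPerm : Equiv.Perm (Fin (2 * h + 1)))))
    (fun σ : Sg E h => F σ)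
  rw [← this]
  rfl

section sel

variable {L : Type} [Fintype L] (A B : L → (Ix E h → Bool) → Bool)

lemma hide_bob (hpart : ∀ x y, ∑ l, (if A l x then (1 : ℝ) else 0) * (if B l y then 1 else 0) = 1)
    {r : Ix E h → ℕ} (hr : Function.Injective r) :
    mn (fun σ : Sg E h => ∑ k, ∑ l, mn (fun x => fA A σ l (Function.update x (qs σ k) false)) *
      D (pre r univ (qs σ k)) (qs σ k) (fB B σ l)) ≤
      8 / (h + 1) * Real.log (Fintype.card L) := by
  have h1 := hide B A (fun x y => (sum_congr rfl fun l _ => mul_comm _ _).trans (hpart y x)) hr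
  rw [← mn_rv] at h1
  refine le_trans (le_of_eq ?_) h1
  refine mn_congr fun σ => sum_congr rfl fun k _ => sum_congr rfl fun l _ => ?_
  have e1 : fA B (rv σ) l = fB B σ l := by
    funext x; unfold fA fB; rw [maskA_rv]
  have e2 : gB0 A (rv σ) l k = mn (fun x => fA A σ l (Function.update x (qs σ k) false)) := by
    unfold gB0 fB fA
    refine mn_congr fun x => ?_
    rw [maskB_rv, qs_rv]
  rw [e1, e2, qs_rv]

/-- the total squared bias of the special coordinates -/
lemma total_bias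
    (hpart : ∀ x y, ∑ l, (if A l x then (1 : ℝ) else 0) * (if B l y then 1 else 0) = 1)
    {r r' : Ix E h → ℕ} (hr : Function.Injective r) (hr' : Function.Injective r') :
    mn (fun σ : Sg E h => ∑ l, (mn (fB B σ l) * ∑ k, D (pre r univ (qs σ k)) (qs σ k) (fA A σ l) +
      mn (fA A σ l) * ∑ k, D (pre r' univ (qs σ k)) (qs σ k) (fB B σ l))) ≤
      320 / (h + 1) * Real.log (Fintype.card L) := by
  have h1 : ∀ σ : Sg E h, ∑ l, (mn (fB B σ l) *
      ∑ k, D (pre r univ (qs σ k)) (qs σ k) (fA A σ l) +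
      mn (fA A σ l) * ∑ k, D (pre r' univ (qs σ k)) (qs σ k) (fB B σ l)) ≤
      20 * (∑ k, ∑ l, gB0 B σ l k * D (pre r univ (qs σ k)) (qs σ k) (fA A σ l) +
        ∑ k, ∑ l, mn (fun x => fA A σ l (Function.update x (qs σ k) false)) *
      D (pre r' univ (qs σ k)) (qs σ k) (fB B σ l)) := by
    intro σ
    have e1 : ∀ k, ∑ l, mn (fB B σ l) * D (pre r univ (qs σ k)) (qs σ k) (fA A σ l) ≤
        10 * (∑ l, gB0 B σ l k * D (pre r univ (qs σ k)) (qs σ k) (fA A σ l) +
          ∑ l, mn (fun x => fA A σ l (Function.update x (qs σ k) false)) *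
          D (pre r' univ (qs σ k)) (qs σ k) (fB B σ l)) := fun k =>
      cut_D (fA A σ) (fB B σ) (fA_nonneg A σ) (fB_nonneg B σ) (part_mn A B hpart σ)
        (not_mem_pre _ _ _) (not_mem_pre _ _ _)
    have e2 : ∀ k, ∑ l, mn (fA A σ l) * D (pre r' univ (qs σ k)) (qs σ k) (fB B σ l) ≤
        10 * (∑ l, mn (fun x => fA A σ l (Function.update x (qs σ k) false)) *
          D (pre r' univ (qs σ k)) (qs σ k) (fB B σ l) +
          ∑ l, gB0 B σ l k * D (pre r univ (qs σ k)) (qs σ k) (fA A σ l)) := fun k =>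
      cut_D (fB B σ) (fA A σ) (fB_nonneg B σ) (fA_nonneg A σ)
        (fun x y => (sum_congr rfl fun l _ => mul_comm _ _).trans (part_mn A B hpart σ y x))
        (not_mem_pre _ _ _) (not_mem_pre _ _ _)
    have e3 : ∑ l, (mn (fB B σ l) *
      ∑ k, D (pre r univ (qs σ k)) (qs σ k) (fA A σ l) +
      mn (fA A σ l) * ∑ k, D (pre r' univ (qs σ k)) (qs σ k) (fB B σ l)) =
      ∑ k, ∑ l, mn (fB B σ l) * D (pre r univ (qs σ k)) (qs σ k) (fA A σ l) +
      ∑ k, ∑ l, mn (fA A σ l) * D (pre r' univ (qs σ k)) (qs σ k) (fB B σ l) := by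
      rw [sum_add_distrib]
      simp only [mul_sum]
      rw [sum_comm, sum_comm (f := fun l k => mn (fA A σ l) *
        D (pre r' univ (qs σ k)) (qs σ k) (fB B σ l))]
    rw [e3]
    have e4 := sum_le_sum (fun k (_ : k ∈ (univ : Finset (Fin E))) => e1 k)
    have e5 := sum_le_sum (fun k (_ : k ∈ (univ : Finset (Fin E))) => e2 k)
    rw [← mul_sum, sum_add_distrib] at e4 e5
    linarith
  refine (mn_mono h1).trans ?_
  rw [mn_mul_left, mn_add]
  have h2 := hide A B hpart hr
  have h3 := hide_bob A B hpart hr'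
  have h4 : 320 / ((h : ℝ) + 1) * Real.log (Fintype.card L) =
      20 * (8 / (h + 1) * Real.log (Fintype.card L) + 8 / (h + 1) * Real.log (Fintype.card L)) := by
    ring
  rw [h4]
  linarith

open Classical in
/-- a good leaf -/
lemma select (hE : 0 < E)
    (hpart : ∀ x y, ∑ l, (if A l x then (1 : ℝ) else 0) * (if B l y then 1 else 0) = 1)
    (out : L → (Ix E h → Bool) → ℝ) (w : ℝ)
    {r r' : Ix E h → ℕ} (hr : Function.Injective r) (hr' : Function.Injective r')
    (hL : Real.log (Fintype.card L) ≤ E * (h + 1) / 19200000)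
    (herr : mn (fun σ : Sg E h => mn (fun x => mn (fun y =>
      ∑ l, fA A σ l x * fB B σ l y *
        (if Bd (qs σ) (fun x => out l (maskA σ x)) w x y then (1 : ℝ) else 0)))) ≤ 1 / 20000) :
    ∃ (σ : Sg E h) (l : L), 0 < mn (fA A σ l) ∧ 0 < mn (fB B σ l) ∧
      ∑ k, D (pre r univ (qs σ k)) (qs σ k) (fA A σ l) ≤ 1 / 30000 * E * mn (fA A σ l) ∧
      ∑ k, D (pre r' univ (qs σ k)) (qs σ k) (fB B σ l) ≤ 1 / 30000 * E * mn (fB B σ l) ∧
      mn (fun x => fA A σ l x * mn (fun y => fB B σ l y *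
        (if Bd (qs σ) (fun x => out l (maskA σ x)) w x y then (1 : ℝ) else 0))) ≤
        1 / 10000 * (mn (fA A σ l) * mn (fB B σ l)) := by
  have hE' : (0 : ℝ) < E := by exact_mod_cast hE
  set Er : Sg E h → L → ℝ := fun σ l => mn (fun x => fA A σ l x * mn (fun y => fB B σ l y *
        (if Bd (qs σ) (fun x => out l (maskA σ x)) w x y then (1 : ℝ) else 0))) with hEr
  set TA : Sg E h → L → ℝ := fun σ l => ∑ k, D (pre r univ (qs σ k)) (qs σ k) (fA A σ l) with hTA
  set TB : Sg E h → L → ℝ := fun σ l => ∑ k, D (pre r' univ (qs σ k)) (qs σ k) (fB B σ l) with hTB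
  have hEr0 : ∀ σ l, 0 ≤ Er σ l := fun σ l => mn_nonneg fun x =>
    mul_nonneg (fA_nonneg A σ l x) (mn_nonneg fun y =>
      mul_nonneg (fB_nonneg B σ l y) (by split_ifs <;> norm_num))
  have hTA0 : ∀ σ l, 0 ≤ TA σ l := fun σ l => sum_nonneg fun k _ => D_nonneg (fA_nonneg A σ l) _ _
  have hTB0 : ∀ σ l, 0 ≤ TB σ l := fun σ l => sum_nonneg fun k _ => D_nonneg (fB_nonneg B σ l) _ _
  set a : Sg E h → L → ℝ := fun σ l => mn (fA A σ l) with ha
  set b : Sg E h → L → ℝ := fun σ l => mn (fB B σ l) with hb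
  have ha0 : ∀ σ l, 0 ≤ a σ l := fun σ l => mn_nonneg (fA_nonneg A σ l)
  have hb0 : ∀ σ l, 0 ≤ b σ l := fun σ l => mn_nonneg (fB_nonneg B σ l)
  set T : Sg E h → L → ℝ := fun σ l => 10000 * Er σ l +
    30000 / E * (b σ l * TA σ l + a σ l * TB σ l) with hT
  have hT0 : ∀ σ l, 0 ≤ T σ l := fun σ l => by
    have := hEr0 σ l; have := hTA0 σ l; have := hTB0 σ l
    have := ha0 σ l; have := hb0 σ l
    simp only [hT]; positivity
  -- the mean of `T`
  have hmean : mn (fun σ => ∑ l, T σ l) ≤ 1 := by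
    have e1 : ∀ σ, ∑ l, T σ l = 10000 * ∑ l, Er σ l +
        30000 / E * ∑ l, (b σ l * TA σ l + a σ l * TB σ l) := by
      intro σ
      simp only [hT]
      rw [sum_add_distrib, ← mul_sum, ← mul_sum]
    rw [mn_congr e1, mn_add, mn_mul_left, mn_mul_left]
    have e2 : mn (fun σ => ∑ l, Er σ l) ≤ 1 / 20000 := by
      refine le_trans (le_of_eq ?_) herr
      refine mn_congr fun σ => ?_
      rw [← GKS.mn_finset_sum]
      refine mn_congr fun x => ?_
      refine Eq.trans ?_ (GKS.mn_finset_sum univ _).symm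
      refine sum_congr rfl fun l _ => ?_
      rw [← mn_mul_left]
      refine mn_congr fun y => ?_
      ring
    have e3 := total_bias A B hpart hr hr'
    have e4 : 320 / ((h : ℝ) + 1) * Real.log (Fintype.card L) ≤ E / 60000 := by
      calc 320 / ((h : ℝ) + 1) * Real.log (Fintype.card L) ≤
          320 / ((h : ℝ) + 1) * (E * (h + 1) / 19200000) :=
            mul_le_mul_of_nonneg_left hL (by positivity)
        _ = E / 60000 := by field_simp; norm_num
    have e5 : 30000 / E * mn (fun σ => ∑ l, (b σ l * TA σ l + a σ l * TB σ l)) ≤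
        30000 / E * (E / 60000) := mul_le_mul_of_nonneg_left (e3.trans e4) (by positivity)
    have e6 : 30000 / (E : ℝ) * (E / 60000) = 1 / 2 := by field_simp; norm_num
    linarith
  obtain ⟨σ, hσ⟩ := GKS.exists_le_of_mn_le hmean
  have hw := part_weights A B hpart σ
  obtain ⟨l, hl1, hl2⟩ := exists_of_sum_weight (W := fun l => a σ l * b σ l) (T := T σ)
    (fun l => mul_nonneg (ha0 σ l) (hb0 σ l)) (fun l _ => hT0 σ l)
    (by simp only [ha, hb]; rw [hw]; exact one_pos)
    (by simp only [ha, hb]; rw [hw]; exact hσ)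
  have hl1 : 0 < a σ l * b σ l := hl1
  have hapos : 0 < a σ l := lt_of_le_of_ne (ha0 σ l) fun h0 => by
    rw [← h0] at hl1; simp at hl1
  have hbpos : 0 < b σ l := lt_of_le_of_ne (hb0 σ l) fun h0 => by
    rw [← h0] at hl1; simp at hl1
  have h1 := hEr0 σ l
  have h2 := hTA0 σ l
  have h3 := hTB0 σ l
  have h4 : 10000 * Er σ l + 30000 / E * (b σ l * TA σ l + a σ l * TB σ l) ≤ a σ l * b σ l := hl2
  refine ⟨σ, l, hapos, hbpos, ?_, ?_, ?_⟩
  · have h5 : 30000 / E * (b σ l * TA σ l) ≤ a σ l * b σ l := by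
      have : 0 ≤ 30000 / E * (a σ l * TB σ l) := by positivity
      nlinarith
    have h6 : b σ l * (30000 / E * TA σ l) ≤ b σ l * a σ l := by nlinarith
    have h7 := le_of_mul_le_mul_left h6 hbpos
    rw [div_mul_eq_mul_div, div_le_iff₀ hE'] at h7
    show TA σ l ≤ 1 / 30000 * E * a σ l
    linarith
  · have h5 : 30000 / E * (a σ l * TB σ l) ≤ a σ l * b σ l := by
      have : 0 ≤ 30000 / E * (b σ l * TA σ l) := by positivity
      nlinarith
    have h6 : a σ l * (30000 / E * TB σ l) ≤ a σ l * b σ l := by nlinarith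
    have h7 := le_of_mul_le_mul_left h6 hapos
    rw [div_mul_eq_mul_div, div_le_iff₀ hE'] at h7
    show TB σ l ≤ 1 / 30000 * E * b σ l
    linarith
  · have : 0 ≤ 30000 / E * (b σ l * TA σ l + a σ l * TB σ l) := by positivity
    show Er σ l ≤ 1 / 10000 * (a σ l * b σ l)
    linarith

end sel

/-- a rank function -/
def rk (i : Ix E h) : ℕ := i.1 * (2 * h + 1) + i.2

lemma rk_inj : Function.Injective (rk : Ix E h → ℕ) := by
  intro a b hab
  unfold rk at hab
  have h1 : (a.1 : ℕ) = b.1 := by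
    have : (a.1 * (2 * h + 1) + a.2 : ℕ) / (2 * h + 1) = (b.1 * (2 * h + 1) + b.2 : ℕ) / (2 * h + 1) := by
      rw [hab]
    rw [Nat.mul_comm, Nat.mul_comm (b.1 : ℕ), Nat.mul_add_div (by omega), Nat.mul_add_div (by omega),
      Nat.div_eq_of_lt a.2.2, Nat.div_eq_of_lt b.2.2] at this
    simpa using this
  have h2 : (a.2 : ℕ) = b.2 := by
    rw [h1] at hab; omega
  exact Prod.ext (Fin.ext h1) (Fin.ext h2)

open Classical in
/-- Many blocks: the sum of `E` disjointness instances with `2h+1` elements. -/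
theorem sum_disj {L : Type} [Fintype L] (A B : L → (Ix E h → Bool) → Bool) (hE : 200 ≤ E)
    (hpart : ∀ x y, ∑ l, (if A l x then (1 : ℝ) else 0) * (if B l y then 1 else 0) = 1)
    (out : L → (Ix E h → Bool) → ℝ) {w : ℝ} (hw : w ^ 2 ≤ E / 256)
    (hL : Real.log (Fintype.card L) ≤ E * (h + 1) / 19200000) :
    1 / 20000 < mn (fun σ : Sg E h => mn (fun x => mn (fun y =>
      ∑ l, fA A σ l x * fB B σ l y *
        (if Bd (qs σ) (fun x => out l (maskA σ x)) w x y then (1 : ℝ) else 0)))) := by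
  by_contra hcon
  push Not at hcon
  obtain ⟨σ, l, h1, h2, h3, h4, h5⟩ := select A B (by omega) hpart out w rk_inj rk_inj hL hcon
  exact anti (qs_inj σ) rk_inj rk_inj (fA A σ l) (fB B σ l) (fA_nonneg A σ l) (fB_nonneg B σ l)
    h1 h2 hE h3 h4 (fun x => out l (maskA σ x)) hw h5

end H644R2.SIJ
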