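import Pool.Agent.H644R2.SIJ.Defs

/-!
Sending a message from a finite set.
-/

open Finset

set_option linter.unusedSectionVars false
set_option linter.unusedVariables false
set_option linter.unusedSimpArgs false

namespace H644R2.SIJ

variable {X Y : Type}

/-- Alice sends `k` bits. -/
def sendA : (k : ℕ) → (X → Fin k → Bool) → ((Fin k → Bool) → Tree X Y) → Tree X Y
  | 0, _, cont => cont (fun i => i.elim0)
  | k + 1, f, cont => .alice (fun x => f x 0)
      (sendA k (fun x i => f x i.succ) (fun m => cont (Fin.cons true m)))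
      (sendA k (fun x i => f x i.succ) (fun m => cont (Fin.cons false m)))

lemma sendA_run : ∀ (k : ℕ) (f : X → Fin k → Bool) (cont : (Fin k → Bool) → Tree X Y) (x : X)
    (y : Y), (sendA k f cont).run x y = (cont (f x)).run x y
  | 0, f, cont, x, y => by
    have : f x = fun i => i.elim0 := funext fun i => i.elim0
    rw [sendA, this]
  | k + 1, f, cont, x, y => by
    rw [sendA, Tree.run, sendA_run k, sendA_run k]
    have h : ∀ b, f x 0 = b → Fin.cons (α := fun _ => Bool) b (fun i : Fin k => f x i.succ) = f x := by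
      intro b hb
      rw [← hb]
      exact Fin.cons_self_tail (f x)
    by_cases hb : f x 0 = true
    · rw [if_pos hb, h _ hb]
    · rw [if_neg hb, h false (by simpa using hb)]

lemma sendA_cost (c : ℕ) : ∀ (k : ℕ) (f : X → Fin k → Bool) (cont : (Fin k → Bool) → Tree X Y),
    (∀ m, (cont m).cost ≤ c) → (sendA k f cont).cost ≤ k + c
  | 0, f, cont, h => by rw [sendA]; simpa using h _
  | k + 1, f, cont, h => by
    rw [sendA, Tree.cost]
    have h1 := sendA_cost c k (fun x i => f x i.succ) (fun m => cont (Fin.cons true m)) (fun m => h _)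
    have h2 := sendA_cost c k (fun x i => f x i.succ) (fun m => cont (Fin.cons false m)) (fun m => h _)
    have := max_le h1 h2
    omega

lemma sendA_common : ∀ (k : ℕ) (f : X → Fin k → Bool) (cont : (Fin k → Bool) → Tree X Y),
    (∀ m, (cont m).Common) → (sendA k f cont).Common
  | 0, f, cont, h => by rw [sendA]; exact h _
  | k + 1, f, cont, h => by
    rw [sendA]
    exact ⟨sendA_common k _ _ (fun m => h _), sendA_common k _ _ (fun m => h _)⟩

/-- Bob sends `k` bits. -/
def sendB : (k : ℕ) → (Y → Fin k → Bool) → ((Fin k → Bool) → Tree X Y) → Tree X Y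
  | 0, _, cont => cont (fun i => i.elim0)
  | k + 1, f, cont => .bob (fun x => f x 0)
      (sendB k (fun x i => f x i.succ) (fun m => cont (Fin.cons true m)))
      (sendB k (fun x i => f x i.succ) (fun m => cont (Fin.cons false m)))

lemma sendB_run : ∀ (k : ℕ) (f : Y → Fin k → Bool) (cont : (Fin k → Bool) → Tree X Y) (x : X)
    (y : Y), (sendB k f cont).run x y = (cont (f y)).run x y
  | 0, f, cont, x, y => by
    have : f y = fun i => i.elim0 := funext fun i => i.elim0
    rw [sendB, this]
  | k + 1, f, cont, x, y => by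
    rw [sendB, Tree.run, sendB_run k, sendB_run k]
    have h : ∀ b, f y 0 = b → Fin.cons (α := fun _ => Bool) b (fun i : Fin k => f y i.succ) = f y := by
      intro b hb
      rw [← hb]
      exact Fin.cons_self_tail (f y)
    by_cases hb : f y 0 = true
    · rw [if_pos hb, h _ hb]
    · rw [if_neg hb, h false (by simpa using hb)]

lemma sendB_cost (c : ℕ) : ∀ (k : ℕ) (f : Y → Fin k → Bool) (cont : (Fin k → Bool) → Tree X Y),
    (∀ m, (cont m).cost ≤ c) → (sendB k f cont).cost ≤ k + c
  | 0, f, cont, h => by rw [sendB]; simpa using h _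
  | k + 1, f, cont, h => by
    rw [sendB, Tree.cost]
    have h1 := sendB_cost c k (fun x i => f x i.succ) (fun m => cont (Fin.cons true m)) (fun m => h _)
    have h2 := sendB_cost c k (fun x i => f x i.succ) (fun m => cont (Fin.cons false m)) (fun m => h _)
    have := max_le h1 h2
    omega

lemma sendB_common : ∀ (k : ℕ) (f : Y → Fin k → Bool) (cont : (Fin k → Bool) → Tree X Y),
    (∀ m, (cont m).Common) → (sendB k f cont).Common
  | 0, f, cont, h => by rw [sendB]; exact h _
  | k + 1, f, cont, h => by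
    rw [sendB]
    exact ⟨sendB_common k _ _ (fun m => h _), sendB_common k _ _ (fun m => h _)⟩

/-- Alice sends an element of a finite set with at most `2 ^ k` elements. -/
lemma exists_sendA {M : Type} [Fintype M] [Nonempty M] {k : ℕ} (hk : Fintype.card M ≤ 2 ^ k)
    (f : X → M) (cont : M → Tree X Y) : ∃ T : Tree X Y,
      (∀ x y, T.run x y = (cont (f x)).run x y) ∧
      (∀ c, (∀ m, (cont m).cost ≤ c) → T.cost ≤ k + c) ∧
      ((∀ m, (cont m).Common) → T.Common) := by
  classical
  obtain ⟨e⟩ : Nonempty (M ↪ (Fin k → Bool)) := by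
    apply Function.Embedding.nonempty_of_card_le
    simpa using hk
  refine ⟨sendA k (fun x => e (f x)) (fun m => cont (Function.invFun e m)), ?_, ?_, ?_⟩
  · intro x y
    rw [sendA_run, Function.leftInverse_invFun e.injective]
  · intro c h
    exact sendA_cost c k _ _ fun m => h _
  · intro h
    exact sendA_common k _ _ fun m => h _

/-- Bob sends an element of a finite set with at most `2 ^ k` elements. -/
lemma exists_sendB {M : Type} [Fintype M] [Nonempty M] {k : ℕ} (hk : Fintype.card M ≤ 2 ^ k)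
    (f : Y → M) (cont : M → Tree X Y) : ∃ T : Tree X Y,
      (∀ x y, T.run x y = (cont (f y)).run x y) ∧
      (∀ c, (∀ m, (cont m).cost ≤ c) → T.cost ≤ k + c) ∧
      ((∀ m, (cont m).Common) → T.Common) := by
  classical
  obtain ⟨e⟩ : Nonempty (M ↪ (Fin k → Bool)) := by
    apply Function.Embedding.nonempty_of_card_le
    simpa using hk
  refine ⟨sendB k (fun x => e (f x)) (fun m => cont (Function.invFun e m)), ?_, ?_, ?_⟩
  · intro x y
    rw [sendB_run, Function.leftInverse_invFun e.injective]
  · intro c h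
    exact sendB_cost c k _ _ fun m => h _
  · intro h
    exact sendB_common k _ _ fun m => h _

/-- Three messages: Alice, Bob, Alice; the last message determines the output. -/
lemma three_messages {M1 M2 M3 : Type} [Fintype M1] [Nonempty M1] [Fintype M2] [Nonempty M2]
    [Fintype M3] [Nonempty M3] {k1 k2 k3 : ℕ} (h1 : Fintype.card M1 ≤ 2 ^ k1)
    (h2 : Fintype.card M2 ≤ 2 ^ k2) (h3 : Fintype.card M3 ≤ 2 ^ k3)
    (f1 : X → M1) (f2 : M1 → Y → M2) (f3 : M1 → M2 → X → M3) (z : M3 → ℝ) :
    ∃ T : Tree X Y, T.cost ≤ k1 + k2 + k3 ∧ T.Common ∧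
      ∀ x y, T.run x y = z (f3 (f1 x) (f2 (f1 x) y) x) := by
  have t3 : ∀ m1 m2, ∃ T : Tree X Y, T.cost ≤ k3 ∧ T.Common ∧
      ∀ x y, T.run x y = z (f3 m1 m2 x) := by
    intro m1 m2
    obtain ⟨T, r, c, o⟩ := exists_sendA (Y := Y) h3 (f3 m1 m2) (fun m => .out (fun _ => z m))
    refine ⟨T, c 0 (fun m => le_rfl), o (fun m => fun _ _ => rfl), fun x y => ?_⟩
    rw [r]; rfl
  choose T3 c3 o3 r3 using t3
  have t2 : ∀ m1, ∃ T : Tree X Y, T.cost ≤ k2 + k3 ∧ T.Common ∧
      ∀ x y, T.run x y = z (f3 m1 (f2 m1 y) x) := by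
    intro m1
    obtain ⟨T, r, c, o⟩ := exists_sendB (X := X) h2 (f2 m1) (fun m => T3 m1 m)
    refine ⟨T, c k3 (fun m => c3 m1 m), o (fun m => o3 m1 m), fun x y => ?_⟩
    rw [r, r3]
  choose T2 c2 o2 r2 using t2
  obtain ⟨T, r, c, o⟩ := exists_sendA (Y := Y) h1 f1 T2
  refine ⟨T, ?_, o o2, fun x y => ?_⟩
  · have := c (k2 + k3) c2
    omega
  · rw [r, r2]

end H644R2.SIJ
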