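import Pool.Agent.H644R2.GKS.Prob

/-!
Concentration and the decoding of support sizes.
-/

open Finset

set_option linter.unusedSectionVars false
set_option linter.unusedVariables false
set_option linter.unusedSimpArgs false

namespace H644R2.SIJ

section conc

variable {Ω : Type} [Fintype Ω] [Nonempty Ω] [DecidableEq Ω]

lemma mgf_le (Y : Ω → ℝ) (h0 : mn Y = 0) (h1 : ∀ ω, |Y ω| ≤ 1) {t : ℝ} (ht0 : 0 ≤ t) (ht : t ≤ 1) :
    mn (fun ω => Real.exp (t * Y ω)) ≤ Real.exp (t ^ 2) := by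
  have h2 : ∀ ω, Real.exp (t * Y ω) ≤ 1 + t * Y ω + t ^ 2 := by
    intro ω
    have h3 : |t * Y ω| ≤ 1 := by
      rw [abs_mul, abs_of_nonneg ht0]
      exact mul_le_one₀ ht (abs_nonneg _) (h1 ω)
    have h4 := Real.abs_exp_sub_one_sub_id_le h3
    have h5 := (abs_le.1 h4).2
    have h6 : (t * Y ω) ^ 2 ≤ t ^ 2 := by
      rw [mul_pow]
      have : (Y ω) ^ 2 ≤ 1 := by
        rw [← sq_abs]; exact pow_le_one₀ (abs_nonneg _) (h1 ω)
      nlinarith [sq_nonneg t]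
    linarith
  have h3 := mn_mono h2
  rw [mn_add, mn_add, mn_mul_left, h0, mn_const, mn_const] at h3
  have := Real.add_one_le_exp (t ^ 2)
  linarith

lemma conc_upper (Y : Ω → ℝ) (h0 : mn Y = 0) (h1 : ∀ ω, |Y ω| ≤ 1) {θ : ℝ} (hθ0 : 0 ≤ θ)
    (hθ : θ ≤ 1) (K : ℕ) :
    mn (fun W : Fin K → Ω => if θ * K < ∑ r, Y (W r) then (1 : ℝ) else 0) ≤
      Real.exp (-(K * θ ^ 2 / 4)) := by
  have h2 : ∀ W : Fin K → Ω, (if θ * K < ∑ r, Y (W r) then (1 : ℝ) else 0) ≤
      Real.exp (-(θ / 2 * (θ * K))) * ∏ r, (fun _ ω => Real.exp (θ / 2 * Y ω)) r (W r) := by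
    intro W
    simp only
    rw [← Real.exp_sum, ← Real.exp_add, ← mul_sum]
    split_ifs with h
    · apply Real.one_le_exp
      nlinarith
    · positivity
  have h3 := mn_mono h2
  rw [mn_mul_left, mn_pi_prod (fun (_ : Fin K) ω => Real.exp (θ / 2 * Y ω)), prod_const, card_univ,
    Fintype.card_fin] at h3
  refine h3.trans ?_
  have h4 := mgf_le Y h0 h1 (t := θ / 2) (by linarith) (by linarith)
  have h5 : (mn fun ω => Real.exp (θ / 2 * Y ω)) ^ K ≤ Real.exp ((θ / 2) ^ 2) ^ K :=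
    pow_le_pow_left₀ (mn_nonneg fun ω => (Real.exp_pos _).le) h4 K
  refine (mul_le_mul_of_nonneg_left h5 (Real.exp_pos _).le).trans (le_of_eq ?_)
  rw [← Real.exp_nat_mul, ← Real.exp_add]
  congr 1
  ring

/-- concentration of the average of `K` independent copies -/
lemma conc (X : Ω → ℝ) (h1 : ∀ ω, |X ω - mn X| ≤ 1) {θ : ℝ} (hθ0 : 0 ≤ θ) (hθ : θ ≤ 1)
    {K : ℕ} (hK : 0 < K) :
    mn (fun W : Fin K → Ω => if |(∑ r, X (W r)) / K - mn X| ≤ θ then (0 : ℝ) else 1) ≤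
      2 * Real.exp (-(K * θ ^ 2 / 4)) := by
  have hK' : (0 : ℝ) < K := by exact_mod_cast hK
  have e0 : mn (fun ω => X ω - mn X) = 0 := by
    rw [mn_sub, mn_const, sub_self]
  have e1 : mn (fun ω => -(X ω - mn X)) = 0 := by
    rw [mn_neg, e0, neg_zero]
  have u1 := conc_upper (fun ω => X ω - mn X) e0 h1 hθ0 hθ K
  have u2 := conc_upper (fun ω => -(X ω - mn X)) e1 (fun ω => by rw [abs_neg]; exact h1 ω) hθ0 hθ K
  have h2 : ∀ W : Fin K → Ω, (if |(∑ r, X (W r)) / K - mn X| ≤ θ then (0 : ℝ) else 1) ≤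
      (if θ * K < ∑ r, (X (W r) - mn X) then (1 : ℝ) else 0) +
      (if θ * K < ∑ r, -(X (W r) - mn X) then (1 : ℝ) else 0) := by
    intro W
    have e2 : ∑ r, (X (W r) - mn X) = ((∑ r, X (W r)) / K - mn X) * K := by
      rw [sum_sub_distrib, sum_const, card_univ, Fintype.card_fin, nsmul_eq_mul]
      field_simp
    rw [sum_neg_distrib, e2]
    by_cases h3 : |(∑ r, X (W r)) / K - mn X| ≤ θ
    · rw [if_pos h3]
      exact add_nonneg (by split_ifs <;> norm_num) (by split_ifs <;> norm_num)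
    · rw [if_neg h3]
      by_cases h4 : θ * K < ((∑ r, X (W r)) / K - mn X) * K
      · rw [if_pos h4]
        split_ifs <;> norm_num
      · by_cases h5 : θ * K < -(((∑ r, X (W r)) / K - mn X) * K)
        · rw [if_pos h5]
          split_ifs <;> norm_num
        · exfalso
          apply h3
          rw [abs_le]
          rw [not_lt] at h4 h5
          have h6 := le_of_mul_le_mul_right h4 hK'
          have h7 : -((∑ r, X (W r)) / K - mn X) * K ≤ θ * K := by linarith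
          have h8 := le_of_mul_le_mul_right h7 hK'
          constructor <;> linarith
  have h3 := mn_mono h2
  rw [mn_add] at h3
  linarith

end conc

/-- probability that a random set of density `2^{-s}` hits a set of `N` elements -/
noncomputable def gg (s N : ℕ) : ℝ := 1 - (1 - (1 / 2) ^ s) ^ N

lemma hit_prob {n S s : ℕ} (hs : s ≤ S) (T : Finset (Fin n)) :
    mn (fun ρ : Fin n → Fin (2 ^ S) => if ∃ i ∈ T, (ρ i : ℕ) < 2 ^ (S - s) then (1 : ℝ) else 0) =
      gg s #T := by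
  have : NeZero (2 ^ S) := ⟨by positivity⟩
  have h1 : ∀ ρ : Fin n → Fin (2 ^ S),
      (if ∃ i ∈ T, (ρ i : ℕ) < 2 ^ (S - s) then (1 : ℝ) else 0) =
      (fun _ => (1 : ℝ)) ρ -
        ∏ i ∈ T, (fun _ (v : Fin (2 ^ S)) => if (v : ℕ) < 2 ^ (S - s) then (0 : ℝ) else 1) i (ρ i) := by
    intro ρ
    by_cases h : ∃ i ∈ T, (ρ i : ℕ) < 2 ^ (S - s)
    · rw [if_pos h]
      obtain ⟨i, hi, h2⟩ := h
      rw [prod_eq_zero hi (by simp [h2])]
      simp
    · rw [if_neg h]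
      push Not at h
      rw [prod_eq_one]
      · simp
      · intro i hi
        simp [not_lt.2 (h i hi)]
  rw [mn_congr h1, mn_sub, mn_const, GKS.mn_prod_subset T
    (fun (_ : Fin n) (v : Fin (2 ^ S)) => if (v : ℕ) < 2 ^ (S - s) then (0 : ℝ) else 1), prod_const]
  unfold gg
  congr 2
  have h2 : ∀ v : Fin (2 ^ S), (if (v : ℕ) < 2 ^ (S - s) then (0 : ℝ) else 1) =
      (fun _ => (1 : ℝ)) v - (if (v : ℕ) < 2 ^ (S - s) then (1 : ℝ) else 0) := by
    intro v; split_ifs <;> simp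
  rw [mn_congr h2, mn_sub, mn_const]
  congr 1
  unfold mn
  have h3 : ∑ v : Fin (2 ^ S), (if (v : ℕ) < 2 ^ (S - s) then (1 : ℝ) else 0) = 2 ^ (S - s) := by
    rw [← sum_filter, sum_const, nsmul_eq_mul, mul_one]
    have h4 : #{v : Fin (2 ^ S) | (v : ℕ) < 2 ^ (S - s)} = 2 ^ (S - s) := by
      have h5 : 2 ^ (S - s) ≤ 2 ^ S := Nat.pow_le_pow_right (by norm_num) (by omega)
      rw [Fin.card_filter_val_lt]
      exact min_eq_right h5
    rw [h4]
    push_cast
    rfl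
  rw [h3, Fintype.card_fin]
  push_cast
  rw [one_div, inv_pow, div_eq_iff (by positivity)]
  rw [inv_mul_eq_div, eq_div_iff (by positivity), ← pow_add]
  congr 1
  omega

lemma gg_zero_zero : gg 0 0 = 0 := by simp [gg]

lemma gg_zero_pos {M : ℕ} (hM : 0 < M) : gg 0 M = 1 := by
  unfold gg
  simp [hM.ne']

lemma quarter_le : ∀ s : ℕ, 1 ≤ s → (1 / 4 : ℝ) ≤ (1 - (1 / 2) ^ s) ^ (2 ^ s) := by
  intro s hs
  induction s, hs using Nat.le_induction with
  | base => norm_num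
  | succ s hs ih =>
    refine ih.trans ?_
    rw [pow_succ 2 s, mul_comm (2 ^ s) 2, pow_mul]
    have h1 : (1 / 2 : ℝ) ^ s ≤ 1 := pow_le_one₀ (by norm_num) (by norm_num)
    refine pow_le_pow_left₀ (by linarith) ?_ _
    rw [pow_succ (1 / 2 : ℝ) s]
    nlinarith [sq_nonneg ((1 / 2 : ℝ) ^ s)]

/-- decoding: support sizes with nearly the same hitting probabilities are close -/
lemma decode {S N M : ℕ} {θ : ℝ} (hθ0 : 0 ≤ θ) (hθ : θ ≤ 1 / 32) (hS : 1 ≤ S) (hNM : N ≤ M)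
    (hN : N ≤ 2 ^ S) (h : ∀ s ≤ S, |gg s M - gg s N| ≤ 2 * θ) :
    (M : ℝ) - N ≤ 32 * θ * N := by
  rcases Nat.eq_zero_or_pos N with h0 | h0
  · subst h0
    rcases Nat.eq_zero_or_pos M with h1 | h1
    · subst h1; simp
    · exfalso
      have := h 0 (Nat.zero_le _)
      rw [gg_zero_zero, gg_zero_pos h1] at this
      norm_num at this
      linarith
  obtain ⟨s, hs1, hsS, hNs, hs2⟩ : ∃ s, 1 ≤ s ∧ s ≤ S ∧ N ≤ 2 ^ s ∧ 2 ^ s ≤ 2 * N := by
    rcases Nat.lt_or_ge 1 N with h1 | h1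
    · refine ⟨Nat.clog 2 N, Nat.clog_pos (by norm_num) h1, ?_, Nat.le_pow_clog (by norm_num) N, ?_⟩
      · exact Nat.clog_le_of_le_pow hN
      · have h2 := Nat.pow_pred_clog_lt_self (b := 2) (by norm_num) h1
        have h3 : Nat.clog 2 N = (Nat.clog 2 N).pred + 1 :=
          (Nat.succ_pred_eq_of_pos (Nat.clog_pos (by norm_num) h1)).symm
        rw [h3, pow_succ]
        omega
    · refine ⟨1, le_rfl, hS, ?_, ?_⟩
      · omega
      · omega
  set q : ℝ := (1 / 2) ^ s with hq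
  have hq0 : 0 < q := by positivity
  have hq1 : q ≤ 1 := pow_le_one₀ (by norm_num) (by norm_num)
  have hq2 : q * 2 ^ s = 1 := by
    rw [hq, ← mul_pow]; norm_num
  obtain ⟨d, rfl⟩ := Nat.exists_eq_add_of_le hNM
  have h1 := h s hsS
  unfold gg at h1
  rw [← hq] at h1
  have h2 : (1 / 4 : ℝ) ≤ (1 - q) ^ N := by
    refine (quarter_le s hs1).trans ?_
    rw [← hq]
    exact pow_le_pow_of_le_one (by linarith) (by linarith) hNs
  have h3 : (1 - q) ^ d * (1 + q * d) ≤ 1 := by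
    have h4 : 1 + (d : ℝ) * q ≤ (1 + q) ^ d := one_add_mul_le_pow (by linarith) d
    have h5 : 0 ≤ (1 - q) ^ d := pow_nonneg (by linarith) d
    calc (1 - q) ^ d * (1 + q * d) ≤ (1 - q) ^ d * (1 + q) ^ d :=
          mul_le_mul_of_nonneg_left (by linarith) h5
      _ = (1 - q ^ 2) ^ d := by rw [← mul_pow]; ring_nf
      _ ≤ 1 := pow_le_one₀ (by nlinarith) (by nlinarith)
  have h4 : 1 - (1 - q) ^ (N + d) - (1 - (1 - q) ^ N) = (1 - q) ^ N * (1 - (1 - q) ^ d) := by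
    rw [pow_add]; ring
  rw [h4] at h1
  have h5 := (abs_le.1 h1).2
  have h6 : (1 - q) ^ d ≤ 1 := pow_le_one₀ (by linarith) (by linarith)
  have h7 : 1 / 4 * (1 - (1 - q) ^ d) ≤ 2 * θ :=
    (mul_le_mul_of_nonneg_right h2 (by linarith)).trans h5
  have hd0 : (0 : ℝ) ≤ d := Nat.cast_nonneg _
  have hqd : 0 ≤ q * d := by positivity
  have h8 : q * d ≤ 8 * θ * (1 + q * d) := by nlinarith
  have h9 : q * d ≤ 16 * θ := by nlinarith
  have h10 : (d : ℝ) = (q * d) * 2 ^ s := by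
    calc (d : ℝ) = (q * 2 ^ s) * d := by rw [hq2, one_mul]
      _ = (q * d) * 2 ^ s := by ring
  have h11 : ((2 : ℝ)) ^ s ≤ 2 * N := by exact_mod_cast hs2
  push_cast
  calc (N : ℝ) + d - N = (q * d) * 2 ^ s := by rw [← h10]; ring
    _ ≤ (16 * θ) * (2 * N) := mul_le_mul h9 h11 (by positivity) (by positivity)
    _ = 32 * θ * N := by ring

/-- symmetric form -/
lemma decode' {S N M : ℕ} {θ : ℝ} (hθ0 : 0 ≤ θ) (hθ : θ ≤ 1 / 32) (hS : 1 ≤ S)
    (hN : N ≤ 2 ^ S) (hM : M ≤ 2 ^ S) (h : ∀ s ≤ S, |gg s M - gg s N| ≤ 2 * θ) :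
    |(M : ℝ) - N| ≤ 32 * θ * N ∧ |(M : ℝ) - N| ≤ 32 * θ * M := by
  rcases le_total N M with h1 | h1
  · have h2 := decode hθ0 hθ hS h1 hN h
    have h3 : (N : ℝ) ≤ M := by exact_mod_cast h1
    rw [abs_of_nonneg (by linarith)]
    refine ⟨h2, h2.trans ?_⟩
    exact mul_le_mul_of_nonneg_left h3 (by positivity)
  · have h2 := decode hθ0 hθ hS h1 hM (fun s hs => by rw [abs_sub_comm]; exact h s hs)
    have h3 : (M : ℝ) ≤ N := by exact_mod_cast h1
    rw [abs_sub_comm, abs_of_nonneg (by linarith)]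
    refine ⟨h2.trans ?_, h2⟩
    exact mul_le_mul_of_nonneg_left h3 (by positivity)

lemma sum_mod (m : ℕ) (F : ℕ → ℝ) : ∀ q : ℕ,
    ∑ u ∈ range (m * q), F (u % m) = q * ∑ v ∈ range m, F v
  | 0 => by simp
  | q + 1 => by
    rw [Nat.mul_succ, sum_range_add, sum_mod m F q]
    have : ∀ x ∈ range m, F ((m * q + x) % m) = F x := by
      intro x hx
      rw [mem_range] at hx
      rw [Nat.mul_add_mod, Nat.mod_eq_of_lt hx]
    rw [sum_congr rfl this]
    push_cast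
    ring

lemma mn_mod {m D : ℕ} (hm : 0 < m) (hD : 0 < D) (hmD : m ∣ D) (F : ℕ → ℝ) :
    mn (fun u : Fin D => F (u % m)) = mn (fun v : Fin m => F v) := by
  obtain ⟨q, rfl⟩ := hmD
  have hq : 0 < q := Nat.pos_of_mul_pos_left hD |> fun _ => by
    rcases Nat.eq_zero_or_pos q with h | h
    · subst h; simp at hD
    · exact h
  unfold mn
  rw [Fin.sum_univ_eq_sum_range (fun u => F (u % m)) (m * q), Fin.sum_univ_eq_sum_range F m,
    sum_mod, Fintype.card_fin, Fintype.card_fin]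
  have h1 : (m : ℝ) ≠ 0 := by exact_mod_cast hm.ne'
  have h2 : (q : ℝ) ≠ 0 := by exact_mod_cast hq.ne'
  push_cast
  field_simp

end H644R2.SIJ
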