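import Pool.Agent.H644R2.SIJ.Sketch
import Pool.Agent.H644R2.SIJ.Send

/-!
The two-round protocol for the upper bound.
-/

open Finset

set_option linter.unusedSectionVars false
set_option linter.unusedVariables false
set_option linter.unusedSimpArgs false

namespace H644R2.SIJ

open Classical in
lemma supp_eq' {n : ℕ} (A B : BMat n) :
    supp A B = #{p : Fin n × Fin n | ∃ c, A p.1 c = true ∧ B c p.2 = true} := by
  unfold supp
  congr 1
  apply filter_congr
  intro p _
  rw [Matrix.mul_apply]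
  have h0 : ∀ c ∈ (univ : Finset (Fin n)), 0 ≤ toInt A p.1 c * toInt B c p.2 := by
    intro c _
    unfold toInt
    simp only [Matrix.map_apply]
    split_ifs <;> simp
  rw [ne_eq, sum_eq_zero_iff_of_nonneg h0]
  push Not
  constructor
  · rintro ⟨c, _, hc⟩
    refine ⟨c, ?_⟩
    unfold toInt at hc
    simp only [Matrix.map_apply] at hc
    split_ifs at hc with h1 h2
    · exact ⟨h1, h2⟩
    all_goals simp at hc
  · rintro ⟨c, h1, h2⟩
    refine ⟨c, mem_univ _, ?_⟩
    unfold toInt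
    simp [h1, h2]

/-- a column -/
def col {n : ℕ} (B : BMat n) (j : Fin n) : Fin n → Bool := fun c => B c j

open Classical in
/-- number of rows meeting the column `y` -/
noncomputable def ns {n : ℕ} (x : BMat n) (y : Fin n → Bool) : ℕ :=
  #{i : Fin n | ∃ c : Fin n, x i c = true ∧ y c = true}

lemma ns_le {n : ℕ} (x : BMat n) (y : Fin n → Bool) : ns x y ≤ n := by
  unfold ns
  refine (card_le_univ _).trans ?_
  simp

lemma supp_sum {n : ℕ} (A B : BMat n) : supp A B = ∑ j, ns A (col B j) := by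
  rw [supp_eq']
  unfold ns col
  simp only [card_filter]
  rw [Fintype.sum_prod_type_right]

lemma supp_le_sq {n : ℕ} (A B : BMat n) : supp A B ≤ n * n := by
  rw [supp_sum]
  refine (sum_le_card_nsmul univ _ n (fun j _ => ns_le _ _)).trans ?_
  simp

section protocol

variable (n S K L D : ℕ) (θ : ℝ)

/-- the first message -/
abbrev M1 : Type := Fin (S + 1) × Fin K → Fin n → Bool

/-- the second message -/
abbrev M2 : Type := Fin (n * n + 1) × (Fin L → (Fin n → Bool) × Fin (n + 1))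

/-- Alice's coins -/
abbrev CA : Type := Fin K → Fin n → Fin (2 ^ S)

variable {n S K L D}

open Classical in
/-- the first message: the union of the rows of random index sets -/
noncomputable def f1 (x : BMat n × CA n S K) : M1 n S K := fun sr c =>
  decide (∃ i, (x.2 sr.2 i : ℕ) < 2 ^ (S - sr.1) ∧ x.1 i c = true)

open Classical in
/-- frequency of hits -/
noncomputable def hits (m : M1 n S K) (y : Fin n → Bool) (s : Fin (S + 1)) : ℝ :=
  (∑ r : Fin K, if ∃ c, m (s, r) c = true ∧ y c = true then (1 : ℝ) else 0) / K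

open Classical in
/-- Bob's estimate of the support size of a column -/
noncomputable def est (m : M1 n S K) (y : Fin n → Bool) : Fin (n + 1) :=
  if h : ∃ M : Fin (n + 1), ∀ s : Fin (S + 1), |hits m y s - gg s M| ≤ θ then h.choose else 0

/-- all frequencies are close to their means -/
def Good (x : BMat n) (B : BMat n) (ρ : CA n S K) : Prop :=
  ∀ (s : Fin (S + 1)) (j : Fin n),
    |hits (f1 (x, ρ)) (col B j) s - gg s (ns x (col B j))| ≤ θ

lemma est_good (hθ0 : 0 ≤ θ) (hθ : θ ≤ 1 / 32) (hS : 1 ≤ S) (hn : n < 2 ^ S) {x B : BMat n}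
    {ρ : CA n S K} (hG : Good θ x B ρ) (j : Fin n) :
    |((est θ (f1 (x, ρ)) (col B j) : ℕ) : ℝ) - ns x (col B j)| ≤ 32 * θ * ns x (col B j) ∧
    |((est θ (f1 (x, ρ)) (col B j) : ℕ) : ℝ) - ns x (col B j)| ≤
      32 * θ * ((est θ (f1 (x, ρ)) (col B j) : ℕ) : ℝ) := by
  have hex : ∃ M : Fin (n + 1), ∀ s : Fin (S + 1),
      |hits (f1 (x, ρ)) (col B j) s - gg s M| ≤ θ :=
    ⟨⟨ns x (col B j), Nat.lt_succ_of_le (ns_le _ _)⟩, fun s => hG s j⟩
  have hch : ∀ s : Fin (S + 1),
      |hits (f1 (x, ρ)) (col B j) s - gg s (est θ (f1 (x, ρ)) (col B j))| ≤ θ := by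
    unfold est
    rw [dif_pos hex]
    exact hex.choose_spec
  have h1 := (est θ (f1 (x, ρ)) (col B j)).2
  refine decode' hθ0 hθ hS ((ns_le _ _).trans hn.le) (by omega) ?_
  intro s hs
  have h2 := hch ⟨s, by omega⟩
  have h3 := hG ⟨s, by omega⟩ j
  have h4 : gg s (est θ (f1 (x, ρ)) (col B j)) - gg s (ns x (col B j)) =
      (hits (f1 (x, ρ)) (col B j) ⟨s, by omega⟩ - gg s (ns x (col B j))) -
      (hits (f1 (x, ρ)) (col B j) ⟨s, by omega⟩ - gg s (est θ (f1 (x, ρ)) (col B j))) := by ring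
  rw [h4]
  refine (abs_sub _ _).trans ?_
  have : (((⟨s, by omega⟩ : Fin (S + 1)) : ℕ)) = s := rfl
  simp only [this] at h2 h3
  linarith

open Classical in
lemma hits_eq (x B : BMat n) (ρ : CA n S K) (s : Fin (S + 1)) (j : Fin n) :
    hits (f1 (x, ρ)) (col B j) s =
      (∑ r : Fin K, if ∃ i ∈ ({i | ∃ c, x i c = true ∧ col B j c = true} : Finset (Fin n)),
        (ρ r i : ℕ) < 2 ^ (S - s) then (1 : ℝ) else 0) / K := by
  unfold hits
  congr 1
  refine sum_congr rfl fun r _ => ?_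
  have : (∃ c, f1 (x, ρ) (s, r) c = true ∧ col B j c = true) ↔
      ∃ i ∈ ({i | ∃ c, x i c = true ∧ col B j c = true} : Finset (Fin n)),
        (ρ r i : ℕ) < 2 ^ (S - s) := by
    simp only [f1, decide_eq_true_eq, mem_filter, mem_univ, true_and]
    constructor
    · rintro ⟨c, ⟨i, h1, h2⟩, h3⟩
      exact ⟨i, ⟨c, h2, h3⟩, h1⟩
    · rintro ⟨i, ⟨c, h2, h3⟩, h1⟩
      exact ⟨c, ⟨i, h1, h2⟩, h3⟩
  by_cases h : ∃ c, f1 (x, ρ) (s, r) c = true ∧ col B j c = true
  · rw [if_pos h, if_pos (this.1 h)]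
  · rw [if_neg h, if_neg (fun h' => h (this.2 h'))]

open Classical in
lemma good_prob (hθ0 : 0 ≤ θ) (hθ : θ ≤ 1) (hK : 0 < K) (x B : BMat n) :
    mn (fun ρ : CA n S K => if Good θ x B ρ then (0 : ℝ) else 1) ≤
      (S + 1) * n * (2 * Real.exp (-(K * θ ^ 2 / 4))) := by
  have : Nonempty (Fin n → Fin (2 ^ S)) := ⟨fun _ => ⟨0, by positivity⟩⟩
  have h1 : ∀ ρ : CA n S K, (if Good θ x B ρ then (0 : ℝ) else 1) ≤
      ∑ s : Fin (S + 1), ∑ j : Fin n,
        (if |hits (f1 (x, ρ)) (col B j) s - gg s (ns x (col B j))| ≤ θ then (0 : ℝ) else 1) := by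
    intro ρ
    have h0 : ∀ (s : Fin (S + 1)) (j : Fin n), (0 : ℝ) ≤
        (if |hits (f1 (x, ρ)) (col B j) s - gg s (ns x (col B j))| ≤ θ then (0 : ℝ) else 1) :=
      fun s j => by split_ifs <;> norm_num
    split_ifs with h
    · exact sum_nonneg fun s _ => sum_nonneg fun j _ => h0 s j
    · unfold Good at h
      push Not at h
      obtain ⟨s, j, hsj⟩ := h
      have e1 : (if |hits (f1 (x, ρ)) (col B j) s - gg s (ns x (col B j))| ≤ θ then (0 : ℝ) else 1)
          = 1 := if_neg (not_le.2 hsj)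
      calc (1 : ℝ) = (if |hits (f1 (x, ρ)) (col B j) s - gg s (ns x (col B j))| ≤ θ
            then (0 : ℝ) else 1) := e1.symm
        _ ≤ ∑ j : Fin n, (if |hits (f1 (x, ρ)) (col B j) s - gg s (ns x (col B j))| ≤ θ
            then (0 : ℝ) else 1) :=
          single_le_sum (f := fun j => if |hits (f1 (x, ρ)) (col B j) s -
            gg s (ns x (col B j))| ≤ θ then (0 : ℝ) else 1) (fun j _ => h0 s j) (mem_univ j)
        _ ≤ _ := single_le_sum (f := fun s => ∑ j : Fin n, if |hits (f1 (x, ρ)) (col B j) s -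
            gg s (ns x (col B j))| ≤ θ then (0 : ℝ) else 1)
            (fun s _ => sum_nonneg fun j _ => h0 s j) (mem_univ s)
  refine (mn_mono h1).trans ?_
  rw [GKS.mn_finset_sum]
  have h2 : ∀ s ∈ (univ : Finset (Fin (S + 1))), mn (fun ρ : CA n S K => ∑ j : Fin n,
        (if |hits (f1 (x, ρ)) (col B j) s - gg s (ns x (col B j))| ≤ θ then (0 : ℝ) else 1)) ≤
        n * (2 * Real.exp (-(K * θ ^ 2 / 4))) := by
    intro s _
    rw [GKS.mn_finset_sum]
    refine (sum_le_card_nsmul univ _ (2 * Real.exp (-(K * θ ^ 2 / 4))) ?_).trans (le_of_eq ?_)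
    · intro j _
      set T : Finset (Fin n) := ({i | ∃ c, x i c = true ∧ col B j c = true} : Finset (Fin n)) with hT
      set Xf : (Fin n → Fin (2 ^ S)) → ℝ := fun ρ =>
        if ∃ i ∈ T, (ρ i : ℕ) < 2 ^ (S - s) then (1 : ℝ) else 0 with hXf
      have e1 : mn Xf = gg s (ns x (col B j)) := by
        rw [hXf]
        have e0 := hit_prob (S := S) (s := s) (Nat.lt_succ_iff.1 s.2) T
        exact e0
      have e2 : ∀ ρ, |Xf ρ - mn Xf| ≤ 1 := by
        intro ρ
        have h3 : 0 ≤ Xf ρ ∧ Xf ρ ≤ 1 := by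
          simp only [hXf]; split_ifs <;> norm_num
        have h4 : 0 ≤ mn Xf := mn_nonneg fun ρ => by simp only [hXf]; split_ifs <;> norm_num
        have h5 : mn Xf ≤ 1 := by
          have : mn Xf ≤ mn (fun _ : Fin n → Fin (2 ^ S) => (1 : ℝ)) := mn_mono fun ρ => by
            simp only [hXf]; split_ifs <;> norm_num
          rwa [mn_const] at this
        rw [abs_le]
        constructor <;> linarith
      have e3 := conc Xf e2 hθ0 hθ hK
      refine le_trans (le_of_eq ?_) e3
      refine mn_congr fun ρ => ?_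
      rw [hits_eq, e1]
    · rw [card_univ, Fintype.card_fin, nsmul_eq_mul]
  refine (sum_le_card_nsmul univ _ _ h2).trans (le_of_eq ?_)
  rw [card_univ, Fintype.card_fin, nsmul_eq_mul]
  push_cast
  ring

/-- total of the estimates -/
noncomputable def tot (m : M1 n S K) (B : BMat n) : ℕ := ∑ j, (est θ m (col B j) : ℕ)

lemma tot_le (m : M1 n S K) (B : BMat n) : tot θ m B ≤ n * n := by
  unfold tot
  refine (sum_le_card_nsmul univ _ n (fun j _ => ?_)).trans ?_
  · have := (est θ m (col B j)).2; omega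
  · simp

/-- the column containing the `v`-th unit -/
noncomputable def pick (hn : 0 < n) (e : Fin n → ℕ) (v : ℕ) : Fin n :=
  if h : v < ∑ j, e j then (finSigmaFinEquiv.symm ⟨v, h⟩).1 else ⟨0, hn⟩

lemma sum_pick (hn : 0 < n) (e : Fin n → ℕ) (F : Fin n → ℝ) :
    ∑ v : Fin (∑ j, e j), F (pick hn e v) = ∑ j, e j * F j := by
  have h1 : ∀ v : Fin (∑ j, e j), F (pick hn e v) = F (finSigmaFinEquiv.symm v).1 := by
    intro v
    unfold pick
    rw [dif_pos v.2]
  rw [sum_congr rfl (fun v _ => h1 v)]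
  rw [Equiv.sum_comp finSigmaFinEquiv.symm (fun w : (i : Fin n) × Fin (e i) => F w.1)]
  rw [Fintype.sum_sigma]
  refine sum_congr rfl fun j _ => ?_
  simp

/-- the second message -/
noncomputable def f2 (hn : 0 < n) (m : M1 n S K) (y : BMat n × (Fin L → Fin D)) : M2 n L :=
  (⟨tot θ m y.1, Nat.lt_succ_of_le (tot_le θ m y.1)⟩, fun l =>
    let j := pick hn (fun j => (est θ m (col y.1 j) : ℕ)) ((y.2 l : ℕ) % tot θ m y.1)
    (col y.1 j, est θ m (col y.1 j)))

/-- the output -/
noncomputable def f3 (m1 : M1 n S K) (m2 : M2 n L) (x : BMat n × CA n S K) : Fin (n * n + 1) :=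
  ⟨min (n * n) ⌊((m2.1 : ℕ) : ℝ) *
    ((∑ l, (ns x.1 (m2.2 l).1 : ℝ) / ((m2.2 l).2 : ℕ)) / L) + 1 / 2⌋₊,
    Nat.lt_succ_of_le (min_le_left _ _)⟩

/-- the ratio for a column -/
noncomputable def ratio (x B : BMat n) (ρ : CA n S K) (j : Fin n) : ℝ :=
  (ns x (col B j) : ℝ) / ((est θ (f1 (x, ρ)) (col B j) : ℕ) : ℝ)

/-- rounding -/
lemma round_ok {N : ℕ} (hN : N ≤ n * n) {z ε : ℝ} (hε : 0 < ε) (hε1 : ε ≤ 1)
    (hz : |z - N| ≤ ε / 8 * N) :
    (N : ℝ) / (1 + ε) ≤ (min (n * n) ⌊z + 1 / 2⌋₊ : ℕ) ∧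
      ((min (n * n) ⌊z + 1 / 2⌋₊ : ℕ) : ℝ) ≤ (1 + ε) * N := by
  obtain ⟨h1, h2⟩ := abs_le.1 hz
  have hN0 : (0 : ℝ) ≤ N := Nat.cast_nonneg _
  have hz0 : 0 ≤ z := by nlinarith
  set f := ⌊z + 1 / 2⌋₊ with hf
  have hf1 : (f : ℝ) ≤ z + 1 / 2 := Nat.floor_le (by linarith)
  have hf2 : z + 1 / 2 < f + 1 := Nat.lt_floor_add_one _
  have hNd : (N : ℝ) / (1 + ε) ≤ N * (1 - ε / 2) := by
    rw [div_le_iff₀ (by linarith)]
    nlinarith
  rcases lt_or_ge (ε / 8 * (N : ℝ)) (1 / 2) with h | h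
  · have h3 : f = N := by
      have h4 : (f : ℝ) < N + 1 := by linarith
      have h5 : (N : ℝ) < f + 1 := by linarith
      have h6 : f < N + 1 := by exact_mod_cast h4
      have h7 : N < f + 1 := by exact_mod_cast h5
      omega
    rw [h3, min_eq_right hN]
    constructor
    · refine hNd.trans ?_; nlinarith
    · nlinarith
  · have h3 : (f : ℝ) ≤ N + ε / 4 * N := by linarith
    have h4 : (N : ℝ) - ε / 4 * N ≤ f := by linarith
    constructor
    · rcases le_total (n * n) f with h5 | h5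
      · rw [min_eq_left h5]
        have : (N : ℝ) ≤ ((n * n : ℕ) : ℝ) := by exact_mod_cast hN
        refine hNd.trans (le_trans ?_ this)
        nlinarith
      · rw [min_eq_right h5]
        refine hNd.trans (le_trans ?_ h4)
        nlinarith
    · have h5 : ((min (n * n) f : ℕ) : ℝ) ≤ f := by exact_mod_cast min_le_right _ _
      nlinarith

open Classical in
/-- the second round succeeds with high probability -/
lemma second_round {ε : ℝ} (hε : 0 < ε) (hε1 : ε ≤ 1) (hn : 0 < n) (hS : 1 ≤ S) (hnS : n < 2 ^ S)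
    (hL : 0 < L) (hD : D = (n * n).factorial) (x B : BMat n) (ρ : CA n S K)
    (hG : Good (√ε / 1024) x B ρ) :
    mn (fun u : Fin L → Fin D => if Approx n ε x B
      (f3 (f1 (x, ρ)) (f2 (√ε / 1024) hn (f1 (x, ρ)) (B, u)) (x, ρ) : ℕ) then (0 : ℝ) else 1) ≤
      2 * Real.exp (-(L * ε / 4)) := by
  set θ : ℝ := √ε / 1024 with hθ
  have hsq0 : 0 < √ε := Real.sqrt_pos.2 hε
  have hsq1 : √ε ≤ 1 := Real.sqrt_le_one.2 hε1
  have hsq : √ε * √ε = ε := Real.mul_self_sqrt hε.le
  have hθ0 : 0 < θ := by rw [hθ]; positivity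
  have hθ1 : θ ≤ 1 / 32 := by rw [hθ]; linarith
  set m := f1 (x, ρ) with hm
  set e : Fin n → ℕ := fun j => (est θ m (col B j) : ℕ) with he
  have hest := est_good θ hθ0.le hθ1 hS hnS hG
  have htot : tot θ m B = ∑ j, e j := rfl
  set N := supp x B with hN
  have hNsum : (N : ℝ) = ∑ j, (ns x (col B j) : ℝ) := by
    rw [hN, supp_sum]; push_cast; rfl
  have htotR : ((tot θ m B : ℕ) : ℝ) = ∑ j, (e j : ℝ) := by rw [htot]; push_cast; rfl
  set γ : ℝ := √ε / 32 with hγ
  have hγθ : 32 * θ = γ := by rw [hθ, hγ]; ring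
  have hγ0 : 0 < γ := by rw [hγ]; positivity
  have hclose1 : |((tot θ m B : ℕ) : ℝ) - N| ≤ γ * N := by
    rw [htotR, hNsum, ← sum_sub_distrib, mul_sum]
    refine (abs_sum_le_sum_abs _ _).trans (sum_le_sum fun j _ => ?_)
    have := (hest j).1
    rw [hγθ] at this
    exact this
  have hclose2 : |((tot θ m B : ℕ) : ℝ) - N| ≤ γ * (tot θ m B : ℕ) := by
    rw [htotR, hNsum, ← sum_sub_distrib, mul_sum]
    refine (abs_sum_le_sum_abs _ _).trans (sum_le_sum fun j _ => ?_)
    have := (hest j).2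
    rw [hγθ] at this
    exact this
  have hN0 : (0 : ℝ) ≤ N := Nat.cast_nonneg _
  have hexp : 0 ≤ 2 * Real.exp (-(L * ε / 4)) := by positivity
  rcases Nat.eq_zero_or_pos (tot θ m B) with h0 | hpos
  · -- everything is zero
    have hNz : (N : ℝ) = 0 := by
      rw [h0] at hclose2
      simp only [Nat.cast_zero, mul_zero, zero_sub, abs_neg] at hclose2
      exact abs_eq_zero.1 (le_antisymm hclose2 (abs_nonneg _))
    refine le_trans (le_of_eq ?_) hexp
    have h1 : ∀ u : Fin L → Fin D, (if Approx n ε x B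
      (f3 m (f2 θ hn m (B, u)) (x, ρ) : ℕ) then (0 : ℝ) else 1) = 0 := by
      intro u
      rw [if_pos]
      have h2 : (f3 m (f2 θ hn m (B, u)) (x, ρ) : ℕ) = 0 := by
        unfold f3 f2
        simp only [h0, Nat.cast_zero, zero_mul, zero_add]
        have : ⌊(1 / 2 : ℝ)⌋₊ = 0 := by
          rw [Nat.floor_eq_zero]; norm_num
        rw [this]
        simp
      rw [h2]
      unfold Approx
      rw [← hN, hNz]
      simp
    rw [mn_congr h1]
    simp [mn]
  · have hposR : (0 : ℝ) < (tot θ m B : ℕ) := by exact_mod_cast hpos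
    have hDpos : 0 < D := by rw [hD]; exact Nat.factorial_pos _
    have hdvd : tot θ m B ∣ D := by
      rw [hD]; exact Nat.dvd_factorial hpos (tot_le θ m B)
    have : Nonempty (Fin D) := ⟨⟨0, hDpos⟩⟩
    set F : Fin n → ℝ := ratio θ x B ρ with hF
    have heF : ∀ j, (e j : ℝ) * F j = ns x (col B j) := by
      intro j
      rw [hF]
      unfold ratio
      by_cases h : (e j : ℝ) = 0
      · have h1 := (hest j).2
        have h2 : ((est θ m (col B j) : ℕ) : ℝ) = 0 := h
        rw [← hm, h2, mul_zero, zero_sub, abs_neg] at h1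
        have h3 := abs_eq_zero.1 (le_antisymm h1 (abs_nonneg _))
        rw [h, h3]; simp
      · have h2 : ((est θ m (col B j) : ℕ) : ℝ) ≠ 0 := h
        show ((est θ m (col B j) : ℕ) : ℝ) * _ = _
        rw [← hm]
        field_simp
    have hF1 : ∀ j, e j ≠ 0 → |F j - 1| ≤ γ := by
      intro j hj
      have hj' : (0 : ℝ) < e j := by exact_mod_cast Nat.pos_of_ne_zero hj
      have h1 := (hest j).2
      rw [hγθ, ← hm] at h1
      have h2 : F j - 1 = -(((est θ m (col B j) : ℕ) : ℝ) - ns x (col B j)) / e j := by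
        have h3 := heF j
        have h4 : F j = ns x (col B j) / e j := by
          rw [eq_div_iff hj'.ne', mul_comm]; exact h3
        rw [h4]
        have h5 : ((est θ m (col B j) : ℕ) : ℝ) = e j := rfl
        rw [h5]
        field_simp
        ring
      rw [h2, abs_div, abs_neg, abs_of_pos hj', div_le_iff₀ hj']
      exact h1
    set φ : ℕ → ℝ := fun v => F (pick hn e v) with hφ
    set μ : ℝ := N / (tot θ m B : ℕ) with hμ
    have hμ1 : |μ - 1| ≤ γ := by
      have : μ - 1 = -(((tot θ m B : ℕ) : ℝ) - N) / (tot θ m B : ℕ) := by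
        rw [hμ]; field_simp; ring
      rw [this, abs_div, abs_neg, abs_of_pos hposR, div_le_iff₀ hposR]
      exact hclose2
    have hmean : mn (fun u : Fin D => φ (u % tot θ m B)) = μ := by
      rw [mn_mod hpos hDpos hdvd φ]
      unfold mn
      have h1 := sum_pick hn e F
      rw [Fintype.card_fin, hμ]
      congr 1
      have h2 : ∑ v : Fin (tot θ m B), φ v = ∑ j, (e j : ℝ) * F j := h1
      rw [h2, hNsum]
      exact sum_congr rfl fun j _ => heF j
    have hpick : ∀ v : ℕ, v < tot θ m B → e (pick hn e v) ≠ 0 := by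
      intro v hv
      unfold pick
      rw [dif_pos (show v < ∑ j, e j from hv)]
      set w := finSigmaFinEquiv.symm (⟨v, hv⟩ : Fin (∑ j, e j)) with hw
      have := w.2.2
      omega
    set X : Fin D → ℝ := fun u => φ (u % tot θ m B) / (2 * γ) with hX
    have hmX : mn X = μ / (2 * γ) := by
      have : ∀ u, X u = φ (u % tot θ m B) * (2 * γ)⁻¹ := fun u => by rw [hX]; rfl
      rw [mn_congr this, mn_mul_right, hmean]
      rfl
    have hX1 : ∀ u, |X u - mn X| ≤ 1 := by
      intro u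
      rw [hmX]
      have h1 : X u - μ / (2 * γ) = (φ (u % tot θ m B) - μ) / (2 * γ) := by
        rw [hX]; ring
      rw [h1, abs_div, abs_of_pos (by positivity : (0 : ℝ) < 2 * γ), div_le_iff₀ (by positivity)]
      have h2 := hF1 _ (hpick (u % tot θ m B) (Nat.mod_lt _ hpos))
      have h3 : φ (u % tot θ m B) - μ = (φ (u % tot θ m B) - 1) - (μ - 1) := by ring
      rw [h3]
      refine (abs_sub _ _).trans ?_
      have h4 : |φ (u % tot θ m B) - 1| ≤ γ := h2
      linarith
    have hc := conc X hX1 hsq0.le hsq1 hL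
    have hexp2 : (L : ℝ) * √ε ^ 2 / 4 = L * ε / 4 := by rw [pow_two, hsq]
    rw [hexp2] at hc
    refine le_trans (mn_mono fun u => ?_) hc
    by_cases hgood : |(∑ r, X (u r)) / L - mn X| ≤ √ε
    · rw [if_pos hgood, if_pos]
      unfold Approx
      have hLR : (0 : ℝ) < L := by exact_mod_cast hL
      set z : ℝ := ((tot θ m B : ℕ) : ℝ) * ((∑ l, φ (u l % tot θ m B)) / L) with hz
      have h1 : ((f3 m (f2 θ hn m (B, u)) (x, ρ) : ℕ)) = min (n * n) ⌊z + 1 / 2⌋₊ := rfl
      rw [h1]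
      refine round_ok (supp_le_sq x B) hε hε1 ?_
      have h2 : (∑ r, X (u r)) / L - mn X =
          ((∑ l, φ (u l % tot θ m B)) / L - μ) / (2 * γ) := by
        rw [hmX]
        have : ∑ r, X (u r) = (∑ l, φ (u l % tot θ m B)) / (2 * γ) := by
          rw [sum_div]
        rw [this]
        ring
      rw [h2, abs_div, abs_of_pos (by positivity : (0 : ℝ) < 2 * γ),
        div_le_iff₀ (by positivity)] at hgood
      have h3 : z - N = ((tot θ m B : ℕ) : ℝ) * ((∑ l, φ (u l % tot θ m B)) / L - μ) := by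
        rw [hz, hμ]; field_simp
      rw [← hN, h3, abs_mul, abs_of_pos hposR]
      have h4 : √ε * (2 * γ) = ε / 16 := by
        rw [hγ]
        calc √ε * (2 * (√ε / 32)) = (√ε * √ε) / 16 := by ring
          _ = ε / 16 := by rw [hsq]
      rw [h4] at hgood
      have h5 : ((tot θ m B : ℕ) : ℝ) ≤ 2 * N := by
        have h6 := (abs_le.1 hclose1).2
        have h7 : γ ≤ 1 := by rw [hγ]; linarith
        nlinarith
      calc ((tot θ m B : ℕ) : ℝ) * |(∑ l, φ (u l % tot θ m B)) / L - μ|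
          ≤ (2 * N) * (ε / 16) := mul_le_mul h5 hgood (abs_nonneg _) (by positivity)
        _ = ε / 8 * N := by ring
    · rw [if_neg hgood]
      split_ifs <;> norm_num

end protocol

end H644R2.SIJ
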