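import Pool.Agent.H644R2.SIJ.UB

/-!
The upper bound `O(n min(1/ε, n) (1 + log n)^2)` with private coins.
-/

open Finset

set_option linter.unusedSectionVars false
set_option linter.unusedVariables false
set_option linter.unusedSimpArgs false

namespace H644R2.SIJ

/-- the uniform distribution -/
noncomputable def unif (Ω : Type) [Fintype Ω] [Nonempty Ω] : Dist Ω where
  prob _ := 1 / (Fintype.card Ω : ℝ)
  nonneg _ := by positivity
  total := by
    have : (0 : ℝ) < Fintype.card Ω := by exact_mod_cast Fintype.card_pos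
    rw [sum_const, card_univ, nsmul_eq_mul]
    field_simp

section

variable {X Y : Type} {Good : X → Y → ℝ → Prop}

lemma PrivateCost.mono {δ δ' : ℝ} {C C' : ℕ} (h : PrivateCost X Y Good δ C) (hδ : δ ≤ δ')
    (hC : C ≤ C') : PrivateCost X Y Good δ' C' := by
  obtain ⟨ΩA, ΩB, iA, iB, DA, DB, T, h1, h2, h3⟩ := h
  exact ⟨ΩA, ΩB, iA, iB, DA, DB, T, h1.trans hC, h2, fun x y Bad hb => (h3 x y Bad hb).trans hδ⟩

open Classical in
lemma private_of {ΩA ΩB : Type} [Fintype ΩA] [Nonempty ΩA] [Fintype ΩB] [Nonempty ΩB] {δ : ℝ}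
    {C : ℕ} (T : Tree (X × ΩA) (Y × ΩB)) (hC : T.cost ≤ C) (hcom : T.Common)
    (h : ∀ x y, mn (fun a : ΩA => mn (fun b : ΩB =>
      if Good x y (T.run (x, a) (y, b)) then (0 : ℝ) else 1)) ≤ δ) :
    PrivateCost X Y Good δ C := by
  refine ⟨ΩA, ΩB, inferInstance, inferInstance, unif ΩA, unif ΩB, T, hC, hcom, ?_⟩
  intro x y Bad hBad
  refine le_trans ?_ (h x y)
  have h1 : mn (fun a : ΩA => mn (fun b : ΩB =>
      if Good x y (T.run (x, a) (y, b)) then (0 : ℝ) else 1)) =
      ∑ ω : ΩA × ΩB, (if Good x y (T.run (x, ω.1) (y, ω.2)) then (0 : ℝ) else 1) *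
        ((1 / (Fintype.card ΩA : ℝ)) * (1 / (Fintype.card ΩB : ℝ))) := by
    unfold mn
    rw [Fintype.sum_prod_type, sum_div]
    refine sum_congr rfl fun a _ => ?_
    rw [← sum_mul]
    ring
  rw [h1]
  have h2 : ∀ ω ∈ Bad, (unif ΩA).prob ω.1 * (unif ΩB).prob ω.2 ≤
      (if Good x y (T.run (x, ω.1) (y, ω.2)) then (0 : ℝ) else 1) *
        ((1 / (Fintype.card ΩA : ℝ)) * (1 / (Fintype.card ΩB : ℝ))) := by
    intro ω hω
    rw [if_neg (hBad ω hω), one_mul]
    exact le_rfl
  refine (sum_le_sum h2).trans ?_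
  refine sum_le_sum_of_subset_of_nonneg (subset_univ _) fun ω _ _ => ?_
  split_ifs
  · rw [zero_mul]
  · positivity

end

lemma card_le_S {n S : ℕ} (hnS : n < 2 ^ S) : n * n + 1 ≤ 2 ^ (2 * S) := by
  have h1 : n + 1 ≤ 2 ^ S := hnS
  have h2 : (n + 1) * (n + 1) ≤ 2 ^ S * 2 ^ S := Nat.mul_le_mul h1 h1
  have h3 : 2 ^ (2 * S) = 2 ^ S * 2 ^ S := by rw [two_mul, pow_add]
  rw [h3]
  nlinarith

open Classical in
theorem main {n S K L : ℕ} {ε : ℝ} (hε : 0 < ε) (hε1 : ε ≤ 1) (hn : 0 < n) (hS : 1 ≤ S)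
    (hnS : n < 2 ^ S) (hK : 0 < K) (hL : 0 < L) :
    PrivateCost (BMat n) (BMat n) (Approx n ε)
      ((S + 1) * n * (2 * Real.exp (-(K * ε / 4194304))) + 2 * Real.exp (-(L * ε / 4)))
      ((S + 1) * K * n + (2 * S + L * (n + S)) + 2 * S) := by
  set D := (n * n).factorial with hD
  have hDpos : 0 < D := Nat.factorial_pos _
  have : Nonempty (Fin D) := ⟨⟨0, hDpos⟩⟩
  have : Nonempty (Fin (2 ^ S)) := ⟨⟨0, by positivity⟩⟩
  have c1 : Fintype.card (M1 n S K) ≤ 2 ^ ((S + 1) * K * n) := by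
    unfold M1
    simp only [Fintype.card_fun, Fintype.card_prod, Fintype.card_fin, Fintype.card_bool]
    rw [← pow_mul]
    exact le_of_eq (by ring)
  have c2 : Fintype.card (M2 n L) ≤ 2 ^ (2 * S + L * (n + S)) := by
    unfold M2
    simp only [Fintype.card_fun, Fintype.card_prod, Fintype.card_fin, Fintype.card_bool]
    rw [pow_add]
    refine Nat.mul_le_mul (card_le_S hnS) ?_
    have : 2 ^ (L * (n + S)) = (2 ^ n * 2 ^ S) ^ L := by
      rw [← pow_add, ← pow_mul]; ring_nf
    rw [this]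
    exact Nat.pow_le_pow_left (Nat.mul_le_mul le_rfl hnS) _
  have c3 : Fintype.card (Fin (n * n + 1)) ≤ 2 ^ (2 * S) := by
    rw [Fintype.card_fin]; exact card_le_S hnS
  set θ : ℝ := √ε / 1024 with hθ
  obtain ⟨T, hT1, hT2, hT3⟩ := three_messages (X := BMat n × CA n S K)
    (Y := BMat n × (Fin L → Fin D)) (M1 := M1 n S K) (M2 := M2 n L) (M3 := Fin (n * n + 1))
    c1 c2 c3 f1 (fun m y => f2 θ hn m y) f3 (fun m => ((m : ℕ) : ℝ))
  refine private_of T hT1 hT2 ?_
  intro x B
  have h1 : ∀ ρ : CA n S K, mn (fun u : Fin L → Fin D =>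
      if Approx n ε x B (T.run (x, ρ) (B, u)) then (0 : ℝ) else 1) ≤
      (if Good θ x B ρ then (0 : ℝ) else 1) + 2 * Real.exp (-(L * ε / 4)) := by
    intro ρ
    have h2 : mn (fun u : Fin L → Fin D =>
      if Approx n ε x B (T.run (x, ρ) (B, u)) then (0 : ℝ) else 1) =
      mn (fun u : Fin L → Fin D => if Approx n ε x B
      (f3 (f1 (x, ρ)) (f2 θ hn (f1 (x, ρ)) (B, u)) (x, ρ) : ℕ) then (0 : ℝ) else 1) := by
      refine mn_congr fun u => ?_
      rw [hT3]
    rw [h2]
    by_cases hG : Good θ x B ρ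
    · rw [if_pos hG, zero_add]
      exact second_round hε hε1 hn hS hnS hL hD x B ρ hG
    · rw [if_neg hG]
      have h3 : mn (fun u : Fin L → Fin D => if Approx n ε x B
        (f3 (f1 (x, ρ)) (f2 θ hn (f1 (x, ρ)) (B, u)) (x, ρ) : ℕ) then (0 : ℝ) else 1) ≤
        mn (fun u : Fin L → Fin D => (1 : ℝ)) := mn_mono fun u => by split_ifs <;> norm_num
      rw [mn_const] at h3
      have : 0 < Real.exp (-(L * ε / 4)) := Real.exp_pos _
      linarith
  refine (mn_mono h1).trans ?_
  rw [mn_add, mn_const]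
  refine add_le_add ?_ le_rfl
  have hsq1 : √ε ≤ 1 := Real.sqrt_le_one.2 hε1
  have hsq0 : 0 ≤ √ε := Real.sqrt_nonneg _
  have h4 := good_prob (n := n) (S := S) (K := K) θ (by positivity) (by rw [hθ]; linarith) hK x B
  refine h4.trans (le_of_eq ?_)
  have h5 : (K : ℝ) * θ ^ 2 / 4 = K * ε / 4194304 := by
    rw [hθ, div_pow, Real.sq_sqrt hε.le]
    ring
  rw [h5]

/-- the trivial protocol -/
theorem trivial_protocol {n S : ℕ} {ε : ℝ} (hε : 0 < ε) (hnS : n < 2 ^ S) :
    PrivateCost (BMat n) (BMat n) (Approx n ε) 0 (n * n + 2 * S + 2 * S) := by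
  classical
  have c1 : Fintype.card (Fin n → Fin n → Bool) ≤ 2 ^ (n * n) := by
    simp only [Fintype.card_fun, Fintype.card_fin, Fintype.card_bool]
    rw [← pow_mul]
  have c3 : Fintype.card (Fin (n * n + 1)) ≤ 2 ^ (2 * S) := by
    rw [Fintype.card_fin]; exact card_le_S hnS
  obtain ⟨T, hT1, hT2, hT3⟩ := three_messages (X := BMat n × Unit)
    (Y := BMat n × Unit) (M1 := Fin n → Fin n → Bool) (M2 := Fin (n * n + 1))
    (M3 := Fin (n * n + 1)) c1 c3 c3 (fun x => x.1)
    (fun m y => ⟨supp (m : BMat n) y.1, Nat.lt_succ_of_le (supp_le_sq _ _)⟩)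
    (fun _ m _ => m) (fun m => ((m : ℕ) : ℝ))
  refine private_of T hT1 hT2 ?_
  intro x B
  have h1 : ∀ a b : Unit, (if Approx n ε x B (T.run (x, a) (B, b)) then (0 : ℝ) else 1) = 0 := by
    intro a b
    rw [hT3, if_pos]
    have h0 : (0 : ℝ) ≤ supp x B := Nat.cast_nonneg _
    constructor
    · show (supp x B : ℝ) / (1 + ε) ≤ (supp x B : ℝ)
      rw [div_le_iff₀ (by linarith)]
      nlinarith
    · show (supp x B : ℝ) ≤ (1 + ε) * (supp x B : ℝ)
      nlinarith
  simp only [h1]
  simp [mn]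

/-- upper bound `O~(n min(1/ε, n))` (Woodruff-Zhang 2018) -/
theorem upper (δ : ℝ) (hδ : 0 < δ) : ∃ C : ℝ, 0 < C ∧ ∀ n : ℕ, 1 ≤ n → ∀ ε : ℝ, 0 < ε → ε ≤ 1 →
    ∃ c : ℕ, PrivateCost (BMat n) (BMat n) (Approx n ε) δ c ∧
      (c : ℝ) ≤ C * n * min (1 / ε) n * (1 + Real.log n) ^ 2 := by
  set a : ℝ := |Real.log (12 / δ)| + 3 with ha
  have ha3 : 3 ≤ a := by rw [ha]; linarith [abs_nonneg (Real.log (12 / δ))]
  refine ⟨12583000 * a, by positivity, ?_⟩
  intro n hn ε hε hε1
  set S := Nat.log 2 n + 1 with hS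
  have hnS : n < 2 ^ S := Nat.lt_pow_succ_log_self (by norm_num) n
  have hnR : (1 : ℝ) ≤ n := by exact_mod_cast hn
  set l : ℝ := 1 + Real.log n with hl
  have hlog0 : 0 ≤ Real.log n := Real.log_nonneg hnR
  have hl1 : 1 ≤ l := by rw [hl]; linarith
  have hSl : (S : ℝ) ≤ 2 * l := by
    have h1 : (2 : ℕ) ^ (Nat.log 2 n) ≤ n := Nat.pow_log_le_self 2 (by omega)
    have h2 : ((2 : ℝ)) ^ (Nat.log 2 n) ≤ n := by exact_mod_cast h1
    have h3 := Real.log_le_log (by positivity) h2
    rw [Real.log_pow] at h3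
    have h4 := Real.log_two_gt_d9
    have h5 : (0 : ℝ) ≤ (Nat.log 2 n : ℕ) := Nat.cast_nonneg _
    have h6 : (Nat.log 2 n : ℝ) ≤ 2 * Real.log n := by nlinarith
    rw [hS]; push_cast; linarith
  have hS1 : 1 ≤ S := by omega
  have hll : l ≤ l ^ 2 := by nlinarith
  rcases le_or_gt (n : ℝ) (1 / ε) with hcase | hcase
  · -- the trivial protocol
    refine ⟨n * n + 2 * S + 2 * S, (trivial_protocol hε hnS).mono hδ.le le_rfl, ?_⟩
    rw [min_eq_right hcase]
    push_cast
    have h1 : (n : ℝ) * n + 2 * S + 2 * S ≤ n * n + 8 * l := by linarith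
    have h2 : (1 : ℝ) ≤ n * n := by nlinarith
    have h3 : (n : ℝ) * n + 8 * l ≤ 9 * (n * n) * l ^ 2 := by nlinarith
    refine (h1.trans h3).trans ?_
    have h4 : (0 : ℝ) ≤ (n * n) * l ^ 2 := by positivity
    nlinarith
  · set M : ℝ := 1 / ε with hM
    have hMε : M * ε = 1 := by rw [hM]; field_simp
    have hM1 : 1 ≤ M := by rw [hM, le_div_iff₀ hε]; linarith
    rw [min_eq_left hcase.le]
    set K := ⌈4194304 * (a * l * M)⌉₊ with hK
    set L := ⌈4 * (a * M)⌉₊ with hL
    have halM : 1 ≤ a * l * M := by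
      have : 1 ≤ a * l := by nlinarith
      nlinarith
    have haM : 1 ≤ a * M := by nlinarith
    have hK1 : 4194304 * (a * l * M) ≤ K := Nat.le_ceil _
    have hK2 : (K : ℝ) ≤ 4194305 * (a * l * M) := by
      have := (Nat.ceil_lt_add_one (by positivity : 0 ≤ 4194304 * (a * l * M))).le
      rw [← hK] at this
      linarith
    have hL1 : 4 * (a * M) ≤ L := Nat.le_ceil _
    have hL2 : (L : ℝ) ≤ 5 * (a * M) := by
      have := (Nat.ceil_lt_add_one (by positivity : 0 ≤ 4 * (a * M))).le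
      rw [← hL] at this
      linarith
    have hK0 : 0 < K := by
      have : (0 : ℝ) < K := by linarith
      exact_mod_cast this
    have hL0 : 0 < L := by
      have : (0 : ℝ) < L := by linarith
      exact_mod_cast this
    refine ⟨(S + 1) * K * n + (2 * S + L * (n + S)) + 2 * S,
      (main hε hε1 hn hS1 hnS hK0 hL0).mono ?_ le_rfl, ?_⟩
    · -- the error
      have hexpa : Real.exp (-|Real.log (12 / δ)|) ≤ δ / 12 := by
        calc Real.exp (-|Real.log (12 / δ)|) ≤ Real.exp (-Real.log (12 / δ)) :=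
              Real.exp_le_exp.2 (neg_le_neg (le_abs_self _))
          _ = δ / 12 := by
              rw [Real.exp_neg, Real.exp_log (by positivity), inv_div]
      have e1 : Real.exp (-(L * ε / 4)) ≤ δ / 12 := by
        refine le_trans (Real.exp_le_exp.2 ?_) hexpa
        have : a ≤ L * ε / 4 := by
          have h1 : 4 * (a * M) * ε ≤ L * ε := mul_le_mul_of_nonneg_right hL1 hε.le
          have h2 : 4 * (a * M) * ε = 4 * a * (M * ε) := by ring
          rw [h2, hMε] at h1
          linarith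
        rw [ha] at this
        linarith
      have e2 : Real.exp (-(K * ε / 4194304)) ≤ δ / 12 * Real.exp (-(3 * l)) := by
        have h0 : |Real.log (12 / δ)| + 3 * l ≤ K * ε / 4194304 := by
          have h1 : 4194304 * (a * l * M) * ε ≤ K * ε := mul_le_mul_of_nonneg_right hK1 hε.le
          have h2 : 4194304 * (a * l * M) * ε = 4194304 * (a * l) * (M * ε) := by ring
          rw [h2, hMε] at h1
          have h3 : |Real.log (12 / δ)| + 3 * l ≤ a * l := by
            rw [ha]
            nlinarith [abs_nonneg (Real.log (12 / δ))]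
          linarith
        calc Real.exp (-(K * ε / 4194304)) ≤ Real.exp (-|Real.log (12 / δ)| + -(3 * l)) :=
              Real.exp_le_exp.2 (by linarith)
          _ = Real.exp (-|Real.log (12 / δ)|) * Real.exp (-(3 * l)) := Real.exp_add _ _
          _ ≤ _ := mul_le_mul_of_nonneg_right hexpa (Real.exp_pos _).le
      have e3 : (n : ℝ) ≤ Real.exp l := by
        have : (n : ℝ) = Real.exp (Real.log n) := (Real.exp_log (by linarith)).symm
        rw [this]
        exact Real.exp_le_exp.2 (by rw [hl]; linarith)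
      have e4 : (S : ℝ) + 1 ≤ 3 * Real.exp l := by
        have : l ≤ Real.exp l := by
          have := Real.add_one_le_exp l
          linarith
        linarith
      have e5 : ((S : ℝ) + 1) * n ≤ 3 * Real.exp l * Real.exp l :=
        mul_le_mul e4 e3 (by positivity) (by positivity)
      have e6 : 0 < Real.exp (-(3 * l)) := Real.exp_pos _
      have e7 : Real.exp l * Real.exp l * Real.exp (-(3 * l)) ≤ 1 := by
        rw [← Real.exp_add, ← Real.exp_add]
        exact Real.exp_le_one_iff.2 (by linarith)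
      have e8 : (S + 1) * n * (2 * Real.exp (-(K * ε / 4194304))) ≤ δ / 2 := by
        calc (S + 1) * n * (2 * Real.exp (-(K * ε / 4194304)))
            ≤ (3 * Real.exp l * Real.exp l) * (2 * (δ / 12 * Real.exp (-(3 * l)))) := by
              refine mul_le_mul e5 ?_ (by positivity) (by positivity)
              linarith
          _ = δ / 2 * (Real.exp l * Real.exp l * Real.exp (-(3 * l))) := by ring
          _ ≤ δ / 2 * 1 := mul_le_mul_of_nonneg_left e7 (by positivity)
          _ = δ / 2 := mul_one _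
      linarith
    · -- the cost
      push_cast
      have hn0 : (0 : ℝ) ≤ n := by linarith
      have g1 : ((S : ℝ) + 1) * K * n ≤ (3 * l) * (4194305 * (a * l * M)) * n := by
        refine mul_le_mul_of_nonneg_right ?_ hn0
        refine mul_le_mul (by linarith) hK2 (by positivity) (by positivity)
      have g2 : (L : ℝ) * (n + S) ≤ 5 * (a * M) * (3 * (n * l)) := by
        refine mul_le_mul hL2 ?_ (by positivity) (by positivity)
        nlinarith
      have g3 : (8 : ℝ) * l ≤ 8 * (a * M * n * l ^ 2) := by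
        have h1 : 1 ≤ a * M * n := by nlinarith
        have h2 : l ≤ a * M * n * l ^ 2 := by
          calc l ≤ l ^ 2 := hll
            _ = 1 * l ^ 2 := (one_mul _).symm
            _ ≤ _ := mul_le_mul_of_nonneg_right h1 (by positivity)
        linarith
      have g4 : 5 * (a * M) * (3 * (n * l)) ≤ 15 * (a * M * n * l ^ 2) := by
        have : a * M * n * l ≤ a * M * n * l ^ 2 := mul_le_mul_of_nonneg_left hll (by positivity)
        linarith
      have g5 : (0 : ℝ) ≤ a * M * n * l ^ 2 := by positivity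
      calc ((S : ℝ) + 1) * K * n + (2 * S + L * (n + S)) + 2 * S
          ≤ (3 * l) * (4194305 * (a * l * M)) * n + 15 * (a * M * n * l ^ 2) +
            8 * (a * M * n * l ^ 2) := by linarith
        _ = 12582938 * (a * M * n * l ^ 2) := by ring
        _ ≤ 12583000 * (a * M * n * l ^ 2) := by linarith
        _ = 12583000 * a * n * M * l ^ 2 := by ring

end H644R2.SIJ
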