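import Pool.Agent.H644R2.SIJ.Defs

namespace H644R2.SIJ

/-- upper bound `O~(n min(1/ε, n))` (Woodruff-Zhang 2018) -/
theorem upper (δ : ℝ) (hδ : 0 < δ) : ∃ C : ℝ, 0 < C ∧ ∀ n : ℕ, 1 ≤ n → ∀ ε : ℝ, 0 < ε → ε ≤ 1 →
    ∃ c : ℕ, PrivateCost (BMat n) (BMat n) (Approx n ε) δ c ∧
      (c : ℝ) ≤ C * n * min (1 / ε) n * (1 + Real.log n) ^ 2 := by
  sorry

end H644R2.SIJ
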